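import Pool.Agent.HumeCol.Defs

namespace HumeCol

variable {plus : Bool}

theorem env_ext {D : Srt → Type} {Γ : List Srt} {e e' : Env D Γ} (h : ∀ s v, e s v = e' s v) :
    e = e' := funext fun s => funext fun v => h s v

/-- composition of an environment with a renaming -/
def Env.comp {D : Srt → Type} {Γ Δ : List Srt} (e : Env D Δ) (ρ : Ren Γ Δ) : Env D Γ :=
  fun s v => e s (ρ s v)

theorem Env.cons_comp_lift {D : Srt → Type} {Γ Δ : List Srt} (e : Env D Δ) (ρ : Ren Γ Δ)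
    {s : Srt} (a : D s) : (Env.cons a e).comp (ρ.lift s) = Env.cons a (e.comp ρ) := by
  apply env_ext
  intro t v
  cases v <;> rfl

theorem Env.comp_cons {D : Srt → Type} {Γ Δ : List Srt} (e : Env D Δ) (ρ : Ren Γ Δ)
    {s : Srt} (w : Var Δ s) : e.comp (ρ.cons w) = Env.cons (e _ w) (e.comp ρ) := by
  apply env_ext
  intro t v
  cases v <;> rfl

theorem Env.comp_nil {D : Srt → Type} {Δ : List Srt} (e : Env D Δ) :
    e.comp Ren.nil = Env.nil := by
  apply env_ext
  intro t v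
  cases v

theorem val_ren (M : Str plus) {Γ Δ : List Srt} (ρ : Ren Γ Δ) (t : Tm plus Γ)
    (e : Env M.Dom Δ) : (t.ren ρ).val M e = t.val M (e.comp ρ) := by
  induction t with
  | var v => rfl
  | num X => rfl
  | col h R t ih =>
    show M.col h _ _ = M.col h _ _
    rw [ih]
    rfl

theorem sat_ren (M : Str plus) {Γ : List Srt} (φ : Fm plus Γ) : ∀ {Δ : List Srt} (ρ : Ren Γ Δ)
    (e : Env M.Dom Δ), (φ.ren ρ).Sat M e ↔ φ.Sat M (e.comp ρ) := by
  induction φ with
  | eqO t u =>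
    intro Δ ρ e
    show _ = _ ↔ _ = _
    rw [val_ren, val_ren]
  | eqR R S => intro Δ ρ e; rfl
  | app R ts =>
    intro Δ ρ e
    show M.App _ _ ↔ M.App _ _
    simp only [val_ren]
    rfl
  | neg φ ih =>
    intro Δ ρ e
    show ¬ _ ↔ ¬ _
    rw [ih]
  | and φ ψ ih1 ih2 =>
    intro Δ ρ e
    show _ ∧ _ ↔ _ ∧ _
    rw [ih1, ih2]
  | all s φ ih =>
    intro Δ ρ e
    show (∀ a, _) ↔ (∀ a, _)
    simp only [ih, Env.cons_comp_lift]

section Simp

variable (M : Str plus) {Γ : List Srt}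

@[simp] theorem sat_eqO (t u : Tm plus Γ) (e : Env M.Dom Γ) :
    (Fm.eqO t u).Sat M e ↔ t.val M e = u.val M e := Iff.rfl

@[simp] theorem sat_eqR {k : ℕ} (R S : Var Γ (Srt.rel k)) (e : Env M.Dom Γ) :
    (Fm.eqR R S : Fm plus Γ).Sat M e ↔ e _ R = e _ S := Iff.rfl

@[simp] theorem sat_app {k : ℕ} (R : Var Γ (Srt.rel k)) (ts : Fin (k + 1) → Tm plus Γ)
    (e : Env M.Dom Γ) :
    (Fm.app R ts).Sat M e ↔ M.App (e _ R) (fun i => (ts i).val M e) := Iff.rfl

@[simp] theorem sat_neg (φ : Fm plus Γ) (e : Env M.Dom Γ) :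
    (Fm.neg φ).Sat M e ↔ ¬ φ.Sat M e := Iff.rfl

@[simp] theorem sat_and (φ ψ : Fm plus Γ) (e : Env M.Dom Γ) :
    (Fm.and φ ψ).Sat M e ↔ φ.Sat M e ∧ ψ.Sat M e := Iff.rfl

@[simp] theorem sat_all (s : Srt) (φ : Fm plus (s :: Γ)) (e : Env M.Dom Γ) :
    (Fm.all s φ).Sat M e ↔ ∀ a : M.Dom s, φ.Sat M (Env.cons a e) := Iff.rfl

@[simp] theorem sat_imp (φ ψ : Fm plus Γ) (e : Env M.Dom Γ) :
    (Fm.imp φ ψ).Sat M e ↔ (φ.Sat M e → ψ.Sat M e) := by
  simp [Fm.imp]

@[simp] theorem sat_iff (φ ψ : Fm plus Γ) (e : Env M.Dom Γ) :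
    (Fm.iff φ ψ).Sat M e ↔ (φ.Sat M e ↔ ψ.Sat M e) := by
  simp [Fm.iff, iff_iff_implies_and_implies]

@[simp] theorem sat_ex (s : Srt) (φ : Fm plus (s :: Γ)) (e : Env M.Dom Γ) :
    (Fm.ex s φ).Sat M e ↔ ∃ a : M.Dom s, φ.Sat M (Env.cons a e) := by
  simp [Fm.ex]

@[simp] theorem sat_mem (X : Var Γ (Srt.rel 0)) (t : Tm plus Γ) (e : Env M.Dom Γ) :
    (Fm.mem X t).Sat M e ↔ M.App (e _ X) (fun _ => t.val M e) := Iff.rfl

@[simp] theorem sat_app2 (F : Var Γ (Srt.rel 1)) (s t : Tm plus Γ) (e : Env M.Dom Γ) :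
    (Fm.app2 F s t).Sat M e ↔ M.App (e _ F) ![s.val M e, t.val M e] := by
  rw [Fm.app2, sat_app]
  have : (fun i => (![s, t] i).val M e) = ![s.val M e, t.val M e] := by
    funext i
    refine Fin.cases ?_ (fun j => ?_) i
    · rfl
    · have : j = 0 := Subsingleton.elim _ _
      subst this
      rfl
  rw [this]

@[simp] theorem val_var (v : Var Γ Srt.obj) (e : Env M.Dom Γ) :
    (Tm.var v : Tm plus Γ).val M e = e _ v := rfl

@[simp] theorem val_num (v : Var Γ (Srt.rel 0)) (e : Env M.Dom Γ) :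
    (Tm.num v : Tm plus Γ).val M e = M.num (e _ v) := rfl

@[simp] theorem val_col (h : plus = true) (R : Var Γ (Srt.rel 1)) (t : Tm plus Γ)
    (e : Env M.Dom Γ) : (Tm.col h R t).val M e = M.col h (e _ R) (t.val M e) := rfl

@[simp] theorem cons_here {D : Srt → Type} {s : Srt} (a : D s) (e : Env D Γ) :
    Env.cons a e _ Var.here = a := rfl

@[simp] theorem cons_there {D : Srt → Type} {s t : Srt} (a : D s) (e : Env D Γ) (v : Var Γ t) :
    Env.cons a e _ (Var.there v) = e _ v := rfl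

end Simp

/-! ### blocks of object variables -/

section Blocks

variable {Γ : List Srt} {D : Srt → Type}

@[simp] theorem push_ovar (e : Env D Γ) : ∀ (n : ℕ) (x : Fin n → D Srt.obj) (i : Fin n),
    e.push n x _ (ovar n i) = x i
  | n + 1, x, i => by
    refine Fin.cases ?_ (fun j => ?_) i
    · rfl
    · exact push_ovar e n (fun i => x i.succ) j

@[simp] theorem push_wk (e : Env D Γ) : ∀ (n : ℕ) (x : Fin n → D Srt.obj) (s : Srt)
    (v : Var Γ s), e.push n x _ (wk n s v) = e s v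
  | 0, _, _, _ => rfl
  | n + 1, x, s, v => push_wk e n (fun i => x i.succ) s v

theorem push_comp_wk (e : Env D Γ) (n : ℕ) (x : Fin n → D Srt.obj) :
    (e.push n x).comp (wk n) = e := env_ext fun s v => push_wk e n x s v

theorem push_comp_liftN {Δ : List Srt} (ρ : Ren Γ Δ) (e : Env D Δ) :
    ∀ (n : ℕ) (x : Fin n → D Srt.obj),
    (e.push n x).comp (ρ.liftN n) = (e.comp ρ).push n x
  | 0, x => rfl
  | n + 1, x => by
    show (Env.cons (x 0) (e.push n fun i => x i.succ)).comp ((ρ.liftN n).lift Srt.obj) = _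
    rw [Env.cons_comp_lift, push_comp_liftN ρ e n]
    rfl

theorem forall_fin_succ_cons {α : Type} {n : ℕ} {P : (Fin (n + 1) → α) → Prop} :
    (∀ x, P x) ↔ ∀ (y : Fin n → α) (a : α), P (Fin.cons a y) := by
  constructor
  · intro h y a; exact h _
  · intro h x
    have := h (fun i => x i.succ) (x 0)
    rwa [show (Fin.cons (x 0) (fun i => x i.succ) : Fin (n + 1) → α) = x from
      Fin.cons_self_tail x] at this

theorem sat_allN (M : Str plus) : ∀ (n : ℕ) (φ : Fm plus (objs n Γ)) (e : Env M.Dom Γ),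
    (Fm.allN n φ).Sat M e ↔ ∀ x : Fin n → M.Dom Srt.obj, φ.Sat M (e.push n x)
  | 0, φ, e => by
    constructor
    · intro h x; exact h
    · intro h; exact h (fun i => i.elim0)
  | n + 1, φ, e => by
    show (Fm.allN n (Fm.all Srt.obj φ)).Sat M e ↔ _
    rw [sat_allN M n]
    constructor
    · intro h x
      exact h (fun i => x i.succ) (x 0)
    · intro h y a
      exact h (Fin.cons a y)

theorem sat_exN (M : Str plus) : ∀ (n : ℕ) (φ : Fm plus (objs n Γ)) (e : Env M.Dom Γ),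
    (Fm.exN n φ).Sat M e ↔ ∃ x : Fin n → M.Dom Srt.obj, φ.Sat M (e.push n x)
  | 0, φ, e => by
    constructor
    · intro h; exact ⟨fun i => i.elim0, h⟩
    · rintro ⟨x, h⟩; exact h
  | n + 1, φ, e => by
    show (Fm.exN n (Fm.ex Srt.obj φ)).Sat M e ↔ _
    rw [sat_exN M n]
    constructor
    · rintro ⟨y, h⟩
      obtain ⟨a, h⟩ := (sat_ex M Srt.obj (Γ := objs n Γ) φ (e.push n y)).1 h
      exact ⟨Fin.cons a y, h⟩
    · rintro ⟨x, h⟩
      exact ⟨fun i => x i.succ,
        (sat_ex M Srt.obj (Γ := objs n Γ) φ (e.push n fun i => x i.succ)).2 ⟨x 0, h⟩⟩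

theorem sat_andN (M : Str plus) : ∀ (n : ℕ) (φ : Fin n → Fm plus Γ) (ψ : Fm plus Γ)
    (e : Env M.Dom Γ), (Fm.andN n φ ψ).Sat M e ↔ (∀ i, (φ i).Sat M e) ∧ ψ.Sat M e
  | 0, φ, ψ, e => by
    constructor
    · intro h; exact ⟨fun i => i.elim0, h⟩
    · rintro ⟨_, h⟩; exact h
  | n + 1, φ, ψ, e => by
    show (Fm.and (φ 0) (Fm.andN n (fun i => φ i.succ) ψ)).Sat M e ↔ _
    rw [sat_and, sat_andN M n, Fin.forall_fin_succ, and_assoc]

theorem sat_close (M : Str plus) : ∀ {Γ : List Srt} (φ : Fm plus Γ),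
    (Fm.close φ).Sat M Env.nil ↔ ∀ e : Env M.Dom Γ, φ.Sat M e
  | [], φ => by
    constructor
    · intro h e
      have : e = Env.nil := env_ext fun s v => nomatch v
      rw [this]; exact h
    · intro h; exact h _
  | s :: Γ, φ => by
    show (Fm.close (Fm.all s φ)).Sat M Env.nil ↔ _
    rw [sat_close M]
    constructor
    · intro h e
      have := h (fun t v => e t v.there) (e s Var.here)
      have he : Env.cons (e s Var.here) (fun t v => e t v.there) = e := by
        apply env_ext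
        intro t v
        cases v <;> rfl
      rwa [he] at this
    · intro h e a
      exact h _

end Blocks

/-! ### meaning of the axioms -/

/-- `F`, cut down to `X × Y`, is a bijection from `X` onto `Y` -/
def IsBij {V : Type} (F : V → V → Prop) (X Y : V → Prop) : Prop :=
  (∀ x, X x → ∃ y, Y y ∧ F x y) ∧ (∀ y, Y y → ∃ x, X x ∧ F x y) ∧
    ∀ x, X x → ∀ x', X x' → ∀ y, Y y → ∀ y', Y y' → F x y ∧ F x' y' → (x = x' ↔ y = y')

theorem sat_bijFm (M : Str plus) {Γ : List Srt} (F : Var Γ (Srt.rel 1))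
    (X Y : Var Γ (Srt.rel 0)) (e : Env M.Dom Γ) :
    (bijFm F X Y : Fm plus Γ).Sat M e ↔
      IsBij (fun x y => M.App (e _ F) ![x, y]) (fun x => M.App (e _ X) (fun _ => x))
        (fun x => M.App (e _ Y) (fun _ => x)) := by
  simp only [bijFm, sat_and, sat_all, sat_imp, sat_mem, sat_ex, sat_app2, sat_iff, sat_eqO,
    val_var, cons_here, cons_there, IsBij]

theorem sat_hume (M : Str plus) : (humeAx plus).Sat M Env.nil ↔
    ∀ X Y : M.Dom (Srt.rel 0), (M.num X = M.num Y ↔ ∃ F : M.Dom (Srt.rel 1),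
      IsBij (fun x y => M.App F ![x, y]) (fun x => M.App X (fun _ => x))
        (fun x => M.App Y (fun _ => x))) := by
  simp only [humeAx, sat_all, sat_iff, sat_eqO, val_num, sat_ex, sat_bijFm, cons_here, cons_there]

theorem sat_compr (M : Str plus) {Γ : List Srt} (k : ℕ) (φ : Fm plus (objs (k + 1) Γ)) :
    (comprAx k φ).Sat M Env.nil ↔ ∀ e : Env M.Dom Γ, ∃ R : M.Dom (Srt.rel k),
      ∀ x : Fin (k + 1) → M.Dom Srt.obj, M.App R x ↔ φ.Sat M (e.push (k + 1) x) := by
  rw [comprAx, sat_close]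
  refine forall_congr' fun e => ?_
  rw [sat_ex]
  refine exists_congr fun R => ?_
  rw [sat_allN]
  refine forall_congr' fun x => ?_
  rw [sat_iff, sat_app, sat_ren, push_comp_liftN]
  simp only [val_var, push_ovar, push_wk, cons_here]
  rfl

theorem sat_col (M : Str plus) (h : plus = true) :
    (colAx h).Sat M Env.nil ↔ ∀ (R : M.Dom (Srt.rel 1)) (n : M.Dom Srt.obj)
      (X : M.Dom (Srt.rel 0)), (∀ x, M.App X (fun _ => x) ↔ M.App R ![n, x]) →
        M.col h R n = M.num X := by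
  simp only [colAx, sat_all, sat_imp, sat_iff, sat_mem, sat_app2, sat_eqO, val_var, val_col,
    val_num, cons_here, cons_there]

theorem sat_ext (M : Str plus) (k : ℕ) :
    (extAx plus k).Sat M Env.nil ↔ ∀ R S : M.Dom (Srt.rel k),
      (∀ x : Fin (k + 1) → M.Dom Srt.obj, M.App R x ↔ M.App S x) → R = S := by
  simp only [extAx, sat_all, sat_imp, sat_allN, sat_iff, sat_app, sat_eqR, val_var, push_ovar,
    push_wk, cons_here, cons_there]

end HumeCol
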