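import Pool.Agent.HumeCol.Card
import Pool.Agent.HumeCol.Syn

/-!
# Internal bijections given by relations
-/

set_option linter.unreachableTactic false
set_option linter.unusedTactic false

namespace HumeCol

open Set

variable {V : Type} [Intl V]

theorem isBij_fun {F : V → V → Prop} {X Y : Set V} (hF : IR F) (hX : IS X) (hY : IS Y)
    (h : IsBij F (fun x => x ∈ X) (fun x => x ∈ Y)) :
    ∃ f : V → V, IFun X f ∧ BijOn f X Y ∧ ∀ x ∈ X, ∀ y ∈ Y, (F x y ↔ y = f x) := by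
  obtain ⟨h1, h2, h3⟩ := h
  obtain ⟨f, hf, hf2⟩ := IFun.of_rel (X := X) (F := fun x y => y ∈ Y ∧ F x y) hX
    (by
      show D (fun e => e 1 ∈ Y ∧ F (e 0) (e 1))
      repeat' first
        | assumption
        | with_reducible apply IsT.get | with_reducible apply IsT.const
        | refine D.fn (by assumption) ?_ ?_
        | with_reducible apply D.and | with_reducible apply D.or | with_reducible apply D.not
        | with_reducible apply D.imp | with_reducible apply D.iff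
        | with_reducible apply D.ex | with_reducible apply D.all
        | with_reducible apply D.eq | with_reducible apply D.const
        | refine D.mem (by assumption) ?_
        | refine D.rel (by assumption) ?_ ?_)
    (by
      intro x hx
      obtain ⟨y, hy, hxy⟩ := h1 x hx
      refine ⟨y, ⟨hy, hxy⟩, ?_⟩
      rintro y' ⟨hy', hxy'⟩
      exact ((h3 x hx x hx y hy y' hy' ⟨hxy, hxy'⟩).1 rfl).symm)
  have hfx : ∀ x ∈ X, f x ∈ Y ∧ F x (f x) := fun x hx => (hf2 x hx (f x)).2 rfl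
  refine ⟨f, hf, ⟨fun x hx => (hfx x hx).1, ?_, ?_⟩, ?_⟩
  · intro x hx y hy hxy
    exact (h3 x hx y hy (f x) (hfx x hx).1 (f y) (hfx y hy).1
      ⟨(hfx x hx).2, (hfx y hy).2⟩).2 hxy
  · intro y hy
    obtain ⟨x, hx, hxy⟩ := h2 y hy
    exact ⟨x, hx, ((hf2 x hx y).1 ⟨hy, hxy⟩).symm⟩
  · intro x hx y hy
    rw [← hf2 x hx y]
    simp [hy]

omit [Intl V] in
/-- a bijection as a relation -/
theorem bij_of_fun {X Y : Set V} {f : V → V} (h : BijOn f X Y) :
    IsBij (fun x y => x ∈ X ∧ y = f x) (fun x => x ∈ X) (fun x => x ∈ Y) := by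
  refine ⟨?_, ?_, ?_⟩
  · intro x hx
    exact ⟨f x, h.mapsTo hx, hx, rfl⟩
  · intro y hy
    obtain ⟨x, hx, rfl⟩ := h.surjOn hy
    exact ⟨x, hx, hx, rfl⟩
  · rintro x hx x' hx' y _ y' _ ⟨⟨_, rfl⟩, ⟨_, rfl⟩⟩
    exact ⟨fun h => by rw [h], fun h' => h.injOn hx hx' h'⟩

theorem eqp_iff_bij {X Y : Set V} (hX : IS X) (hY : IS Y) :
    Eqp X Y ↔ ∃ F : V → V → Prop, IR F ∧ IsBij F (fun x => x ∈ X) (fun x => x ∈ Y) := by
  constructor
  · rintro ⟨f, hf, hb⟩
    exact ⟨fun x y => x ∈ X ∧ y = f x, hf, bij_of_fun hb⟩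
  · rintro ⟨F, hF, hb⟩
    obtain ⟨f, hf, hf2, _⟩ := isBij_fun hF hX hY hb
    exact ⟨f, hf, hf2⟩

end HumeCol
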