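import Pool.Agent.HumeCol.Intl

/-!
# Comparison of internal sets by internal injections
-/

set_option linter.unreachableTactic false
set_option linter.unusedTactic false

namespace HumeCol

open Set

variable {V : Type} [Intl V]

theorem IS.union {X Y : Set V} (hX : IS X) (hY : IS Y) : IS (X ∪ Y) := by
  show D _
  refine D.congr (p := fun e => e 0 ∈ X ∨ e 0 ∈ Y) ?_ (fun e => Iff.rfl)
  repeat' first
    | assumption
    | with_reducible apply IsT.get | with_reducible apply IsT.const
    | refine D.fn (by assumption) ?_ ?_
    | with_reducible apply D.and | with_reducible apply D.or | with_reducible apply D.not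
    | with_reducible apply D.imp | with_reducible apply D.iff
    | with_reducible apply D.ex | with_reducible apply D.all
    | with_reducible apply D.eq | with_reducible apply D.const
    | refine D.mem (by assumption) ?_
    | refine D.rel (by assumption) ?_ ?_

theorem IS.inter {X Y : Set V} (hX : IS X) (hY : IS Y) : IS (X ∩ Y) := by
  show D _
  refine D.congr (p := fun e => e 0 ∈ X ∧ e 0 ∈ Y) ?_ (fun e => Iff.rfl)
  repeat' first
    | assumption
    | with_reducible apply IsT.get | with_reducible apply IsT.const
    | refine D.fn (by assumption) ?_ ?_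
    | with_reducible apply D.and | with_reducible apply D.or | with_reducible apply D.not
    | with_reducible apply D.imp | with_reducible apply D.iff
    | with_reducible apply D.ex | with_reducible apply D.all
    | with_reducible apply D.eq | with_reducible apply D.const
    | refine D.mem (by assumption) ?_
    | refine D.rel (by assumption) ?_ ?_

theorem IS.compl {X : Set V} (hX : IS X) : IS Xᶜ := by
  show D _
  refine D.congr (p := fun e => ¬ e 0 ∈ X) ?_ (fun e => Iff.rfl)
  repeat' first
    | assumption
    | with_reducible apply IsT.get | with_reducible apply IsT.const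
    | refine D.fn (by assumption) ?_ ?_
    | with_reducible apply D.and | with_reducible apply D.or | with_reducible apply D.not
    | with_reducible apply D.imp | with_reducible apply D.iff
    | with_reducible apply D.ex | with_reducible apply D.all
    | with_reducible apply D.eq | with_reducible apply D.const
    | refine D.mem (by assumption) ?_
    | refine D.rel (by assumption) ?_ ?_

theorem IS.diff {X Y : Set V} (hX : IS X) (hY : IS Y) : IS (X \ Y) := hX.inter hY.compl

theorem IS.empty : IS (∅ : Set V) := by
  show D _
  refine D.congr (p := fun e => False) ?_ (fun e => Iff.rfl)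
  repeat' first
    | assumption
    | with_reducible apply IsT.get | with_reducible apply IsT.const
    | refine D.fn (by assumption) ?_ ?_
    | with_reducible apply D.and | with_reducible apply D.or | with_reducible apply D.not
    | with_reducible apply D.imp | with_reducible apply D.iff
    | with_reducible apply D.ex | with_reducible apply D.all
    | with_reducible apply D.eq | with_reducible apply D.const
    | refine D.mem (by assumption) ?_
    | refine D.rel (by assumption) ?_ ?_

theorem IS.univ : IS (univ : Set V) := by
  show D _
  refine D.congr (p := fun e => True) ?_ (fun e => by simp)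
  repeat' first
    | assumption
    | with_reducible apply IsT.get | with_reducible apply IsT.const
    | refine D.fn (by assumption) ?_ ?_
    | with_reducible apply D.and | with_reducible apply D.or | with_reducible apply D.not
    | with_reducible apply D.imp | with_reducible apply D.iff
    | with_reducible apply D.ex | with_reducible apply D.all
    | with_reducible apply D.eq | with_reducible apply D.const
    | refine D.mem (by assumption) ?_
    | refine D.rel (by assumption) ?_ ?_

theorem IS.singleton (a : V) : IS ({a} : Set V) := by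
  show D _
  refine D.congr (p := fun e => e 0 = a) ?_ (fun e => by simp)
  repeat' first
    | assumption
    | with_reducible apply IsT.get | with_reducible apply IsT.const
    | refine D.fn (by assumption) ?_ ?_
    | with_reducible apply D.and | with_reducible apply D.or | with_reducible apply D.not
    | with_reducible apply D.imp | with_reducible apply D.iff
    | with_reducible apply D.ex | with_reducible apply D.all
    | with_reducible apply D.eq | with_reducible apply D.const
    | refine D.mem (by assumption) ?_
    | refine D.rel (by assumption) ?_ ?_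

theorem IS.insert {X : Set V} (hX : IS X) (a : V) : IS (insert a X) := by
  show D _
  refine D.congr (p := fun e => e 0 = a ∨ e 0 ∈ X) ?_ (fun e => by simp)
  repeat' first
    | assumption
    | with_reducible apply IsT.get | with_reducible apply IsT.const
    | refine D.fn (by assumption) ?_ ?_
    | with_reducible apply D.and | with_reducible apply D.or | with_reducible apply D.not
    | with_reducible apply D.imp | with_reducible apply D.iff
    | with_reducible apply D.ex | with_reducible apply D.all
    | with_reducible apply D.eq | with_reducible apply D.const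
    | refine D.mem (by assumption) ?_
    | refine D.rel (by assumption) ?_ ?_

theorem IR.slice {F : V → V → Prop} (hF : IR F) (a : V) : IS {x | F a x} := by
  show D _
  refine D.congr (p := fun e => F a (e 0)) ?_ (fun e => Iff.rfl)
  repeat' first
    | assumption
    | with_reducible apply IsT.get | with_reducible apply IsT.const
    | refine D.fn (by assumption) ?_ ?_
    | with_reducible apply D.and | with_reducible apply D.or | with_reducible apply D.not
    | with_reducible apply D.imp | with_reducible apply D.iff
    | with_reducible apply D.ex | with_reducible apply D.all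
    | with_reducible apply D.eq | with_reducible apply D.const
    | refine D.mem (by assumption) ?_
    | refine D.rel (by assumption) ?_ ?_

/-! ### internal functions -/

theorem IFun.congr {X : Set V} {f g : V → V} (h : IFun X f) (hfg : ∀ x ∈ X, f x = g x) :
    IFun X g := by
  refine D.congr h (fun e => ?_)
  constructor
  · rintro ⟨h1, h2⟩; exact ⟨h1, by rw [h2, hfg _ h1]⟩
  · rintro ⟨h1, h2⟩; exact ⟨h1, by rw [h2, hfg _ h1]⟩

theorem IFun.dom {X : Set V} {f : V → V} (h : IFun X f) : IS X := by
  refine D.congr (p := fun e => ∃ y, e 0 ∈ X ∧ y = f (e 0)) ?_ (fun e => by simp)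
  repeat' first
    | assumption
    | with_reducible apply IsT.get | with_reducible apply IsT.const
    | refine D.fn (by assumption) ?_ ?_
    | with_reducible apply D.and | with_reducible apply D.or | with_reducible apply D.not
    | with_reducible apply D.imp | with_reducible apply D.iff
    | with_reducible apply D.ex | with_reducible apply D.all
    | with_reducible apply D.eq | with_reducible apply D.const
    | refine D.mem (by assumption) ?_
    | refine D.rel (by assumption) ?_ ?_

theorem IFun.id {X : Set V} (h : IS X) : IFun X (fun x => x) := by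
  refine D.congr (p := fun e => e 0 ∈ X ∧ e 1 = e 0) ?_ (fun e => Iff.rfl)
  repeat' first
    | assumption
    | with_reducible apply IsT.get | with_reducible apply IsT.const
    | refine D.fn (by assumption) ?_ ?_
    | with_reducible apply D.and | with_reducible apply D.or | with_reducible apply D.not
    | with_reducible apply D.imp | with_reducible apply D.iff
    | with_reducible apply D.ex | with_reducible apply D.all
    | with_reducible apply D.eq | with_reducible apply D.const
    | refine D.mem (by assumption) ?_
    | refine D.rel (by assumption) ?_ ?_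

theorem IFun.cst {X : Set V} (h : IS X) (c : V) : IFun X (fun _ => c) := by
  refine D.congr (p := fun e => e 0 ∈ X ∧ e 1 = c) ?_ (fun e => Iff.rfl)
  repeat' first
    | assumption
    | with_reducible apply IsT.get | with_reducible apply IsT.const
    | refine D.fn (by assumption) ?_ ?_
    | with_reducible apply D.and | with_reducible apply D.or | with_reducible apply D.not
    | with_reducible apply D.imp | with_reducible apply D.iff
    | with_reducible apply D.ex | with_reducible apply D.all
    | with_reducible apply D.eq | with_reducible apply D.const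
    | refine D.mem (by assumption) ?_
    | refine D.rel (by assumption) ?_ ?_

theorem IFun.restrict {X Y : Set V} {f : V → V} (h : IFun X f) (hY : IS Y) (hYX : Y ⊆ X) :
    IFun Y f := by
  refine D.congr (p := fun e => e 0 ∈ Y ∧ (e 0 ∈ X ∧ e 1 = f (e 0))) ?_ (fun e => ?_)
  ·
    repeat' first
      | assumption
      | with_reducible apply IsT.get | with_reducible apply IsT.const
      | refine D.fn (by assumption) ?_ ?_
      | with_reducible apply D.and | with_reducible apply D.or | with_reducible apply D.not
      | with_reducible apply D.imp | with_reducible apply D.iff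
      | with_reducible apply D.ex | with_reducible apply D.all
      | with_reducible apply D.eq | with_reducible apply D.const
      | refine D.mem (by assumption) ?_
      | refine D.rel (by assumption) ?_ ?_
  · constructor
    · rintro ⟨h1, h2, h3⟩; exact ⟨h1, h3⟩
    · rintro ⟨h1, h3⟩; exact ⟨h1, hYX h1, h3⟩

theorem IFun.comp {X Y : Set V} {f g : V → V} (hf : IFun X f) (hg : IFun Y g)
    (h : MapsTo f X Y) : IFun X (fun x => g (f x)) := by
  refine D.congr (p := fun e => ∃ y, (e 0 ∈ X ∧ y = f (e 0)) ∧ (y ∈ Y ∧ e 1 = g y)) ?_
    (fun e => ?_)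
  ·
    repeat' first
      | assumption
      | with_reducible apply IsT.get | with_reducible apply IsT.const
      | refine D.fn (by assumption) ?_ ?_
      | with_reducible apply D.and | with_reducible apply D.or | with_reducible apply D.not
      | with_reducible apply D.imp | with_reducible apply D.iff
      | with_reducible apply D.ex | with_reducible apply D.all
      | with_reducible apply D.eq | with_reducible apply D.const
      | refine D.mem (by assumption) ?_
      | refine D.rel (by assumption) ?_ ?_
  · constructor
    · rintro ⟨y, ⟨h1, rfl⟩, h2, h3⟩; exact ⟨h1, h3⟩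
    · rintro ⟨h1, h3⟩; exact ⟨_, ⟨h1, rfl⟩, h h1, h3⟩

open Classical in
theorem IFun.ite {X Y : Set V} {f g : V → V} (hf : IFun X f) (hg : IFun Y g) :
    IFun (X ∪ Y) (fun x => if x ∈ X then f x else g x) := by
  have hX := hf.dom
  refine D.congr (p := fun e => (e 0 ∈ X ∧ e 1 = f (e 0)) ∨
    (¬ (e 0 ∈ X) ∧ (e 0 ∈ Y ∧ e 1 = g (e 0)))) ?_ (fun e => ?_)
  ·
    repeat' first
      | assumption
      | with_reducible apply IsT.get | with_reducible apply IsT.const
      | refine D.fn (by assumption) ?_ ?_
      | with_reducible apply D.and | with_reducible apply D.or | with_reducible apply D.not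
      | with_reducible apply D.imp | with_reducible apply D.iff
      | with_reducible apply D.ex | with_reducible apply D.all
      | with_reducible apply D.eq | with_reducible apply D.const
      | refine D.mem (by assumption) ?_
      | refine D.rel (by assumption) ?_ ?_
  · by_cases h : e 0 ∈ X
    · simp [h]
    · simp [h]

theorem IFun.image {X : Set V} {f : V → V} (h : IFun X f) : IS (f '' X) := by
  refine D.congr (p := fun e => ∃ x, (x ∈ X ∧ e 0 = f x)) ?_ (fun e => ?_)
  ·
    repeat' first
      | assumption
      | with_reducible apply IsT.get | with_reducible apply IsT.const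
      | refine D.fn (by assumption) ?_ ?_
      | with_reducible apply D.and | with_reducible apply D.or | with_reducible apply D.not
      | with_reducible apply D.imp | with_reducible apply D.iff
      | with_reducible apply D.ex | with_reducible apply D.all
      | with_reducible apply D.eq | with_reducible apply D.const
      | refine D.mem (by assumption) ?_
      | refine D.rel (by assumption) ?_ ?_
  · constructor
    · rintro ⟨x, hx, h2⟩; exact ⟨x, hx, h2.symm⟩
    · rintro ⟨x, hx, h2⟩; exact ⟨x, hx, h2.symm⟩

theorem IFun.of_rel {X : Set V} {F : V → V → Prop} (hX : IS X) (hF : IR F)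
    (h : ∀ x ∈ X, ∃! y, F x y) : ∃ f : V → V, IFun X f ∧ ∀ x ∈ X, ∀ y, F x y ↔ y = f x := by
  classical
  have h' : ∀ x, ∃ y, x ∈ X → F x y := by
    intro x
    by_cases hx : x ∈ X
    · obtain ⟨y, hy, _⟩ := h x hx
      exact ⟨y, fun _ => hy⟩
    · obtain ⟨a⟩ := (Intl.inh : Nonempty V)
      exact ⟨a, fun hh => absurd hh hx⟩
  choose f hf using h'
  have key : ∀ x ∈ X, ∀ y, F x y ↔ y = f x := by
    intro x hx y
    constructor
    · intro hy; exact (h x hx).unique hy (hf x hx)
    · rintro rfl; exact hf x hx
  refine ⟨f, ?_, key⟩
  refine D.congr (p := fun e => e 0 ∈ X ∧ F (e 0) (e 1)) ?_ (fun e => ?_)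
  ·
    repeat' first
      | assumption
      | with_reducible apply IsT.get | with_reducible apply IsT.const
      | refine D.fn (by assumption) ?_ ?_
      | with_reducible apply D.and | with_reducible apply D.or | with_reducible apply D.not
      | with_reducible apply D.imp | with_reducible apply D.iff
      | with_reducible apply D.ex | with_reducible apply D.all
      | with_reducible apply D.eq | with_reducible apply D.const
      | refine D.mem (by assumption) ?_
      | refine D.rel (by assumption) ?_ ?_
  · constructor
    · rintro ⟨h1, h2⟩; exact ⟨h1, (key _ h1 _).1 h2⟩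
    · rintro ⟨h1, h2⟩; exact ⟨h1, (key _ h1 _).2 h2⟩

theorem IFun.inv {X : Set V} {f : V → V} (h : IFun X f) (hi : InjOn f X) :
    ∃ g : V → V, IFun (f '' X) g ∧ ∀ x ∈ X, g (f x) = x := by
  obtain ⟨g, hg, hg'⟩ := IFun.of_rel (X := f '' X) (F := fun y x => x ∈ X ∧ y = f x) h.image
    (by
      show D _
      repeat' first
        | assumption
        | with_reducible apply IsT.get | with_reducible apply IsT.const
        | refine D.fn (by assumption) ?_ ?_
        | with_reducible apply D.and | with_reducible apply D.or | with_reducible apply D.not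
        | with_reducible apply D.imp | with_reducible apply D.iff
        | with_reducible apply D.ex | with_reducible apply D.all
        | with_reducible apply D.eq | with_reducible apply D.const
        | refine D.mem (by assumption) ?_
        | refine D.rel (by assumption) ?_ ?_)
    (by
      rintro _ ⟨x, hx, rfl⟩
      refine ⟨x, ⟨hx, rfl⟩, ?_⟩
      rintro x' ⟨hx', h2⟩
      exact (hi hx hx' h2).symm)
  refine ⟨g, hg, fun x hx => ?_⟩
  exact ((hg' (f x) ⟨x, hx, rfl⟩ x).1 ⟨hx, rfl⟩).symm

/-! ### comparison -/

/-- there is an internal injection -/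
def Emb (X Y : Set V) : Prop := ∃ f : V → V, IFun X f ∧ MapsTo f X Y ∧ InjOn f X

/-- there is an internal bijection -/
def Eqp (X Y : Set V) : Prop := ∃ f : V → V, IFun X f ∧ BijOn f X Y

theorem Eqp.emb {X Y : Set V} (h : Eqp X Y) : Emb X Y := by
  obtain ⟨f, h1, h2⟩ := h
  exact ⟨f, h1, h2.mapsTo, h2.injOn⟩

theorem Emb.refl {X : Set V} (h : IS X) : Emb X X :=
  ⟨fun x => x, IFun.id h, fun _ hx => hx, fun _ _ _ _ h => h⟩

theorem Emb.of_subset {X Y : Set V} (h : IS X) (hXY : X ⊆ Y) : Emb X Y :=
  ⟨fun x => x, IFun.id h, hXY, fun _ _ _ _ h => h⟩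

theorem Eqp.refl {X : Set V} (h : IS X) : Eqp X X :=
  ⟨fun x => x, IFun.id h, ⟨fun _ hx => hx, fun _ _ _ _ h => h, fun x hx => ⟨x, hx, rfl⟩⟩⟩

theorem Emb.trans {X Y Z : Set V} (h1 : Emb X Y) (h2 : Emb Y Z) : Emb X Z := by
  obtain ⟨f, hf, hfm, hfi⟩ := h1
  obtain ⟨g, hg, hgm, hgi⟩ := h2
  exact ⟨_, hf.comp hg hfm, fun x hx => hgm (hfm hx), fun x hx y hy hxy =>
    hfi hx hy (hgi (hfm hx) (hfm hy) hxy)⟩

theorem Eqp.trans {X Y Z : Set V} (h1 : Eqp X Y) (h2 : Eqp Y Z) : Eqp X Z := by
  obtain ⟨f, hf, hf2⟩ := h1
  obtain ⟨g, hg, hg2⟩ := h2
  exact ⟨_, hf.comp hg hf2.mapsTo, hg2.comp hf2⟩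

theorem Eqp.symm {X Y : Set V} (h : Eqp X Y) : Eqp Y X := by
  obtain ⟨f, hf, hf2⟩ := h
  obtain ⟨g, hg, hg2⟩ := hf.inv hf2.injOn
  rw [hf2.image_eq] at hg
  refine ⟨g, hg, ?_, ?_, ?_⟩
  · intro y hy
    obtain ⟨x, hx, rfl⟩ := hf2.surjOn hy
    rw [hg2 x hx]; exact hx
  · intro y hy y' hy' h
    obtain ⟨x, hx, rfl⟩ := hf2.surjOn hy
    obtain ⟨x', hx', rfl⟩ := hf2.surjOn hy'
    rw [hg2 x hx, hg2 x' hx'] at h
    rw [h]
  · intro x hx
    exact ⟨f x, hf2.mapsTo hx, hg2 x hx⟩

/-- an injection onto is a bijection -/
theorem Eqp.of_surj {X Y : Set V} {f : V → V} (h : IFun X f) (h1 : MapsTo f X Y)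
    (h2 : InjOn f X) (h3 : SurjOn f X Y) : Eqp X Y := ⟨f, h, h1, h2, h3⟩

/-- Dedekind finite -/
def DF (A : Set V) : Prop :=
  ∀ f : V → V, IFun A f → MapsTo f A A → InjOn f A → SurjOn f A A

/-- pigeonhole -/
theorem DF.surj {A B : Set V} (hA : DF A) (hBA : Emb B A) {f : V → V} (hf : IFun A f)
    (h1 : MapsTo f A B) (h2 : InjOn f A) : SurjOn f A B := by
  obtain ⟨h, hh, hhm, hhi⟩ := hBA
  have := hA (fun x => h (f x)) (hf.comp hh h1) (fun x hx => hhm (h1 hx))
    (fun x hx y hy hxy => h2 hx hy (hhi (h1 hx) (h1 hy) hxy))
  intro b hb
  obtain ⟨a, ha, hab⟩ := this (hhm hb)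
  exact ⟨a, ha, hhi (h1 ha) hb hab⟩

theorem DF.of_emb {A B : Set V} (hA : DF A) (hAI : IS A) (h : Emb B A) : DF B := by
  classical
  obtain ⟨h, hh, hhm, hhi⟩ := h
  obtain ⟨g, hg, hg2⟩ := hh.inv hhi
  intro f hf hfm hfi
  have hgm : MapsTo g (h '' B) B := by
    rintro _ ⟨x, hx, rfl⟩; rw [hg2 x hx]; exact hx
  have hF : IFun A (fun y => if y ∈ h '' B then h (f (g y)) else y) := by
    have h1 : IFun (h '' B) (fun y => h (f (g y))) :=
      (hg.comp hf hgm).comp hh (fun y hy => hfm (hgm hy))
    have h2 := IFun.ite h1 (IFun.id hAI)
    have h3 : h '' B ∪ A = A := by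
      apply union_eq_self_of_subset_left
      rintro _ ⟨x, hx, rfl⟩; exact hhm hx
    rwa [h3] at h2
  have hval : ∀ b ∈ B, (fun y => if y ∈ h '' B then h (f (g y)) else y) (h b) = h (f b) := by
    intro b hb
    have : h b ∈ h '' B := ⟨b, hb, rfl⟩
    simp only [this, if_true, hg2 b hb]
  have hs := hA _ hF (by
      intro y hy
      by_cases hy' : y ∈ h '' B
      · obtain ⟨b, hb, rfl⟩ := hy'
        rw [hval b hb]; exact hhm (hfm hb)
      · simp only [hy', if_false]; exact hy)
    (by
      intro y hy y' hy' hyy
      by_cases h1 : y ∈ h '' B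
      · by_cases h2 : y' ∈ h '' B
        · obtain ⟨b, hb, rfl⟩ := h1
          obtain ⟨b', hb', rfl⟩ := h2
          rw [hval b hb, hval b' hb'] at hyy
          rw [hfi hb hb' (hhi (hfm hb) (hfm hb') hyy)]
        · obtain ⟨b, hb, rfl⟩ := h1
          rw [hval b hb] at hyy
          simp only [h2, if_false] at hyy
          exact absurd ⟨f b, hfm hb, hyy⟩ h2
      · by_cases h2 : y' ∈ h '' B
        · obtain ⟨b, hb, rfl⟩ := h2
          rw [hval b hb] at hyy
          simp only [h1, if_false] at hyy
          exact absurd ⟨f b, hfm hb, hyy.symm⟩ h1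
        · simp only [h1, h2, if_false] at hyy
          exact hyy)
  intro b hb
  obtain ⟨y, hy, hyb⟩ := hs (hhm hb)
  by_cases h1 : y ∈ h '' B
  · obtain ⟨b', hb', rfl⟩ := h1
    rw [hval b' hb'] at hyb
    exact ⟨b', hb', hhi (hfm hb') hb hyb⟩
  · simp only [h1, if_false] at hyb
    exact absurd ⟨b, hb, hyb.symm⟩ h1

theorem DF.subset {A B : Set V} (hA : DF A) (hAI : IS A) (hB : IS B) (h : B ⊆ A) : DF B :=
  hA.of_emb hAI (Emb.of_subset hB h)

theorem DF.empty : DF (∅ : Set V) := by
  intro f _ _ _ x hx
  exact absurd hx (Set.notMem_empty x)

theorem DF.insert {A : Set V} (hA : DF A) (hAI : IS A) (a : V) : DF (insert a A) := by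
  by_cases haA : a ∈ A
  · rwa [Set.insert_eq_of_mem haA]
  intro f hf hfm hfi
  -- the modified function
  classical
  have hAs : A ⊆ Insert.insert a A := Set.subset_insert a A
  have haI : a ∈ Insert.insert a A := Set.mem_insert a A
  set g : V → V := fun x => if f x = a then f a else f x with hgdef
  have hg : IFun A g := by
    have hfA := hf.restrict hAI hAs
    refine D.congr (p := fun e => ∃ z, (e 0 ∈ A ∧ z = f (e 0)) ∧
      ((z = a ∧ e 1 = f a) ∨ (¬ (z = a) ∧ e 1 = z))) ?_ (fun e => ?_)
    ·
      repeat' first
        | assumption
        | with_reducible apply IsT.get | with_reducible apply IsT.const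
        | refine D.fn (by assumption) ?_ ?_
        | with_reducible apply D.and | with_reducible apply D.or | with_reducible apply D.not
        | with_reducible apply D.imp | with_reducible apply D.iff
        | with_reducible apply D.ex | with_reducible apply D.all
        | with_reducible apply D.eq | with_reducible apply D.const
        | refine D.mem (by assumption) ?_
        | refine D.rel (by assumption) ?_ ?_
    · constructor
      · rintro ⟨z, ⟨h1, rfl⟩, ⟨h2, h3⟩ | ⟨h2, h3⟩⟩
        · exact ⟨h1, by simp [hgdef, h2, h3]⟩
        · exact ⟨h1, by simp [hgdef, h2, h3]⟩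
      · rintro ⟨h1, h2⟩
        refine ⟨_, ⟨h1, rfl⟩, ?_⟩
        by_cases h3 : f (e 0) = a
        · left; exact ⟨h3, by simpa [hgdef, h3] using h2⟩
        · right; exact ⟨h3, by simpa [hgdef, h3] using h2⟩
  have hfa : ∀ x ∈ A, f x ≠ f a := by
    intro x hx h
    have := hfi (hAs hx) haI h
    exact haA (this ▸ hx)
  have hgm : MapsTo g A A := by
    intro x hx
    by_cases h3 : f x = a
    · have h4 : g x = f a := by simp [hgdef, h3]
      rw [h4]
      rcases hfm haI with h5 | h5
      · exact absurd (h3.trans h5.symm) (hfa x hx)
      · exact h5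
    · have h4 : g x = f x := by simp [hgdef, h3]
      rw [h4]
      rcases hfm (hAs hx) with h5 | h5
      · exact absurd h5 h3
      · exact h5
  have hgi : InjOn g A := by
    intro x hx y hy hxy
    by_cases h3 : f x = a
    · by_cases h4 : f y = a
      · exact hfi (hAs hx) (hAs hy) (h3.trans h4.symm)
      · simp only [hgdef, h3, h4, if_true, if_false] at hxy
        exact absurd hxy.symm (hfa y hy)
    · by_cases h4 : f y = a
      · simp only [hgdef, h3, h4, if_true, if_false] at hxy
        exact absurd hxy (hfa x hx)
      · simp only [hgdef, h3, h4, if_false] at hxy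
        exact hfi (hAs hx) (hAs hy) hxy
  have hgs := hA g hg hgm hgi
  -- A is in the image of f
  have h1 : ∀ y ∈ A, ∃ x ∈ Insert.insert a A, f x = y := by
    intro y hy
    obtain ⟨x, hx, hxy⟩ := hgs hy
    by_cases h3 : f x = a
    · simp only [hgdef, h3, if_true] at hxy
      exact ⟨a, haI, hxy⟩
    · simp only [hgdef, h3, if_false] at hxy
      exact ⟨x, hAs hx, hxy⟩
  intro y hy
  rcases hy with rfl | hy
  · -- y = a
    by_contra hcon
    have hna : ∀ x ∈ Insert.insert y A, f x ≠ y := by
      intro x hx h
      exact hcon ⟨x, hx, h⟩
    have hfaA : f y ∈ A := by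
      rcases hfm haI with h5 | h5
      · exact absurd h5 (hna y haI)
      · exact h5
    obtain ⟨x, hx, hxy⟩ := hgs hfaA
    have h3 : f x ≠ y := hna x (hAs hx)
    simp only [hgdef, h3, if_false] at hxy
    exact hfa x hx hxy
  · obtain ⟨x, hx, hxy⟩ := h1 y hy
    exact ⟨x, hx, hxy⟩

end HumeCol
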