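import Pool.Agent.HumeCol.Interp

/-!
# Comprehension in the new structure
-/

namespace HumeCol

open Srt Set

/-! ### quantification over tuples -/

theorem D.exN {V : Type} [Intl V] : ∀ (n : ℕ) {Q : (ℕ → V) → (Fin n → V) → Prop},
    D (fun v => Q (fun m => v (m + n)) (fun i => v i)) → D (fun v => ∃ x, Q v x)
  | 0, Q, h => by
    refine D.congr h (fun v => ?_)
    constructor
    · intro h; exact ⟨_, h⟩
    · rintro ⟨x, h⟩
      have hx : x = fun i : Fin 0 => v i := funext fun i => i.elim0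
      rw [hx] at h
      exact h
  | n + 1, Q, h => by
    have h1 : D (fun v => ∃ a, ∃ y : Fin n → V, Q v (Fin.cons a y)) := by
      apply D.ex
      apply D.exN n
      refine D.congr (D.sub h (σ := fun j v => if j = 0 then v n else if j ≤ n then v (j - 1)
        else v j) (fun j => ?_)) (fun v => ?_)
      · by_cases h1 : j = 0
        · simp only [h1, if_true]; exact IsT.get n
        · by_cases h2 : j ≤ n
          · simp only [h1, h2, if_false, if_true]; exact IsT.get _
          · simp only [h1, h2, if_false]; exact IsT.get _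
      · have e1 : (fun m => (fun j => if j = 0 then v n else if j ≤ n then v (j - 1)
            else v j) (m + (n + 1))) = fun m => v (m + 1 + n) := by
          funext m
          have a1 : m + (n + 1) ≠ 0 := by omega
          have a2 : ¬ m + (n + 1) ≤ n := by omega
          simp only [a1, a2, if_false]
          congr 1; omega
        have e2 : (fun i : Fin (n + 1) => (fun j => if j = 0 then v n else if j ≤ n then
            v (j - 1) else v j) (i : ℕ)) = Fin.cons (v (0 + n)) (fun i : Fin n => v i) := by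
          funext i
          refine Fin.cases ?_ (fun j => ?_) i
          · simp
          · have a1 : (j.succ : ℕ) ≠ 0 := by simp
            have a2 : (j.succ : ℕ) ≤ n := by simp
            simp only [a1, a2, if_false, if_true, Fin.cons_succ]
            congr 1
        change Q _ _ ↔ Q _ _
        rw [e1, e2]
    refine D.congr h1 (fun v => ?_)
    constructor
    · rintro ⟨a, y, h⟩; exact ⟨_, h⟩
    · rintro ⟨x, h⟩
      refine ⟨x 0, fun i => x i.succ, ?_⟩
      rwa [show (Fin.cons (x 0) (fun i => x i.succ) : Fin (n + 1) → V) = x from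
        Fin.cons_self_tail x]

variable (N : Mod)

/-- families of environments of the new structure with coordinates as objects -/
structure Fam {Δ : List Srt} (E : (ℕ → N.V) → Env (NN N).Dom Δ) : Prop where
  obj : ∀ x : Var Δ obj, IsT (V := N.V) (fun v => E v _ x)
  rel : ∀ (k : ℕ) (R : Var Δ (rel k)), ∃ R0 : (NN N).Dom (rel k), ∀ v, E v _ R = R0

variable {N}

theorem Fam.comp {Δ : List Srt} {E : (ℕ → N.V) → Env (NN N).Dom Δ} (h : Fam N E) (n : ℕ) :
    Fam N (fun v => E (fun m => v (m + n))) where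
  obj := by
    intro x
    obtain ⟨t, ht⟩ := h.obj x
    rcases t with i | a
    · exact ⟨Sum.inl (i + n), fun v => ht _⟩
    · exact ⟨Sum.inr a, fun v => ht _⟩
  rel := by
    intro k R
    obtain ⟨R0, hR⟩ := h.rel k R
    exact ⟨R0, fun v => hR _⟩

theorem Fam.cons {Δ : List Srt} {E : (ℕ → N.V) → Env (NN N).Dom Δ} (h : Fam N E) :
    Fam N (Δ := Srt.obj :: Δ)
      (fun v => Env.cons (s := Srt.obj) (v 0) (E (fun m => v (m + 1)))) where
  obj := by
    intro x
    cases x with
    | here => exact IsT.get 0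
    | there x => exact (h.comp 1).obj x
  rel := by
    intro k R
    cases R with
    | there R => exact (h.comp 1).rel k R

theorem fam_term {Δ : List Srt} (t : Tm true Δ) :
    ∀ {E : (ℕ → N.V) → Env (NN N).Dom Δ}, Fam N E → ∀ {g : (ℕ → N.V) → N.V}, IsT g →
      D (fun v => g v = t.val (NN N) (E v)) := by
  induction t with
  | var x =>
    intro E hE g hg
    exact D.eq hg (hE.obj x)
  | num X =>
    intro E hE g hg
    obtain ⟨X0, hX0⟩ := hE.rel 0 X
    have h1 : D (V := N.V) (fun v => g v = (NN N).num X0) := D.eq hg (IsT.const _)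
    refine D.congr h1 (fun v => ?_)
    rw [val_num, hX0]
  | col hp R t ih =>
    intro E hE g hg
    obtain ⟨R0, hR0⟩ := hE.rel 1 R
    obtain ⟨P, hP, hinv⟩ := (tau_dom N R0.1).1 R0.2
    obtain ⟨hG, _⟩ := graph (IR.ext N.h.compr R0.1) hP hinv.inv2
    have h1 : D (V := N.V) (fun v => ∃ n, n = t.val (NN N) (E v) ∧
        CR (sl (ext2 N.M R0.1) n) (g v)) := by
      apply D.ex
      refine D.and ?_ ?_
      · exact ih (hE.comp 1) (IsT.get 0)
      · exact D.rel hG (IsT.get 0) hg.tail
    refine D.congr h1 (fun v => ?_)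
    have h2 : Tm.val (NN N) (E v) (Tm.col hp R t) =
        (NN N).col rfl R0 (t.val (NN N) (E v)) := by rw [val_col, hR0]
    rw [h2]
    constructor
    · rintro ⟨n, rfl, h⟩
      exact (NN_col N R0 _ _).2 h
    · intro h
      exact ⟨_, rfl, (NN_col N R0 _ _).1 h⟩

theorem fam_app {k : ℕ} (R : N.M.Dom (rel k)) {x : (ℕ → N.V) → Fin (k + 1) → N.V}
    (hx : ∀ i, IsT (fun v => x v i)) : D (V := N.V) (fun v => N.M.App R (x v)) := by
  choose t ht using hx
  refine ⟨k, R, t, fun v => ?_⟩
  have : x v = fun i => tv (t i) v := funext fun i => ht i v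
  change N.M.App R (x v) ↔ _
  rw [this]

theorem D.allFin {V : Type} [Intl V] : ∀ (n : ℕ) {U : Fin n → (ℕ → V) → Prop},
    (∀ i, D (U i)) → D (fun v => ∀ i, U i v)
  | 0, U, _ => (D.const True).congr fun v => by
    constructor
    · intro _ i; exact i.elim0
    · intro _; trivial
  | n + 1, U, h => by
    have h1 := D.and (h 0) (D.allFin n (fun i => h i.succ))
    refine D.congr h1 (fun v => ?_)
    exact (Fin.forall_fin_succ (P := fun i => U i v)).symm

theorem fam_fm {Δ : List Srt} (φ : Fm true Δ) : φ.Arith →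
    ∀ {E : (ℕ → N.V) → Env (NN N).Dom Δ}, Fam N E → D (fun v => φ.Sat (NN N) (E v)) := by
  induction φ with
  | eqO t u =>
    intro _ E hE
    have h1 : D (V := N.V) (fun v => ∃ m, m = t.val (NN N) (E v) ∧ m = u.val (NN N) (E v)) := by
      apply D.ex
      exact D.and (fam_term t (hE.comp 1) (IsT.get 0)) (fam_term u (hE.comp 1) (IsT.get 0))
    refine D.congr h1 (fun v => ?_)
    rw [sat_eqO]
    constructor
    · rintro ⟨m, h1, h2⟩; rw [← h1, ← h2]
    · intro h; exact ⟨_, rfl, h⟩
  | eqR R S =>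
    intro _ E hE
    obtain ⟨R0, hR0⟩ := hE.rel _ R
    obtain ⟨S0, hS0⟩ := hE.rel _ S
    refine D.congr (D.const (V := N.V) (R0 = S0)) (fun v => ?_)
    rw [sat_eqR, hR0, hS0]
  | app R ts =>
    rename_i Δ k
    intro _ E hE
    obtain ⟨R0, hR0⟩ := hE.rel _ R
    have h1 : D (V := N.V) (fun v => ∃ x : Fin (k + 1) → N.V,
        (∀ i, x i = (ts i).val (NN N) (E v)) ∧ N.M.App R0.1 x) := by
      apply D.exN
      refine D.and ?_ ?_
      · exact D.allFin _ (fun i => fam_term (ts i) (hE.comp _) (IsT.get _))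
      · exact fam_app R0.1 (fun i => IsT.get _)
    refine D.congr h1 (fun v => ?_)
    rw [sat_app, hR0]
    constructor
    · rintro ⟨x, h1, h2⟩
      have : x = fun i => (ts i).val (NN N) (E v) := funext h1
      rw [this] at h2
      exact h2
    · intro h; exact ⟨_, fun _ => rfl, h⟩
  | neg φ ih =>
    intro hφ E hE
    exact (ih hφ hE).not
  | and φ ψ ih1 ih2 =>
    intro hφ E hE
    exact (ih1 hφ.1 hE).and (ih2 hφ.2 hE)
  | all s φ ih =>
    intro hφ E hE
    cases s with
    | obj =>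
      have h1 : D (V := N.V) (fun v => ∀ a : N.V,
          φ.Sat (NN N) (Env.cons (s := Srt.obj) a (E v))) := by
        apply D.all
        exact ih hφ hE.cons
      exact h1
    | rel k => exact absurd hφ (by simp [Fm.Arith])

/-! ### variables of `objs n Γ` -/

theorem push_rel {D' : Srt → Type} {Γ : List Srt} (e : Env D' Γ) : ∀ (n : ℕ) {k : ℕ}
    (R : Var (objs n Γ) (rel k)), ∃ R' : Var Γ (rel k), ∀ x, e.push n x _ R = e _ R'
  | 0, _, R => ⟨R, fun _ => rfl⟩
  | n + 1, _, R => by
    cases R with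
    | there R =>
      obtain ⟨R', hR'⟩ := push_rel e n R
      exact ⟨R', fun x => hR' _⟩

theorem push_obj {D' : Srt → Type} {Γ : List Srt} (e : Env D' Γ) : ∀ (n : ℕ)
    (y : Var (objs n Γ) obj), (∃ i : Fin n, ∀ x, e.push n x _ y = x i) ∨
      ∃ y' : Var Γ obj, ∀ x, e.push n x _ y = e _ y'
  | 0, y => Or.inr ⟨y, fun _ => rfl⟩
  | n + 1, y => by
    cases y with
    | here => exact Or.inl ⟨0, fun _ => rfl⟩
    | there y =>
      rcases push_obj e n y with ⟨i, hi⟩ | ⟨y', hy'⟩
      · exact Or.inl ⟨i.succ, fun x => hi _⟩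
      · exact Or.inr ⟨y', fun x => hy' _⟩

theorem fam_push {Γ : List Srt} (e : Env (NN N).Dom Γ) (n : ℕ) :
    Fam N (Δ := objs n Γ) (fun v => e.push n (fun i => v i)) where
  obj := by
    intro y
    rcases push_obj e n y with ⟨i, hi⟩ | ⟨y', hy'⟩
    · exact ⟨Sum.inl (i : ℕ), fun v => hi _⟩
    · exact ⟨Sum.inr (e _ y'), fun v => hy' _⟩
  rel := by
    intro k R
    obtain ⟨R', hR'⟩ := push_rel e n R
    exact ⟨e _ R', fun v => hR' _⟩

/-! ### invariance -/

/-- conditions on an element of the new structure relative to the set `P` -/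
def Cond (N : Mod) : (s : Srt) → (NN N).Dom s → Set N.V → Prop
  | Srt.obj, a, P => a ∈ P
  | Srt.rel 0, X, P => InvN P (N.M.App X.1) ∧ (NN N).num X ∈ P
  | Srt.rel 1, R, P => InvN P (N.M.App R.1) ∧ Inv2 P (fun n m => CR (sl (ext2 N.M R.1) n) m)
  | Srt.rel (_ + 2), R, P => InvN P (N.M.App R.1)

theorem InvN.mono {V : Type} {P Q : Set V} {n : ℕ} {p : (Fin n → V) → Prop}
    (h : InvN P p) (hPQ : P ⊆ Q) : InvN Q p :=
  fun a b ha hb => h a b (fun h => ha (hPQ h)) (fun h => hb (hPQ h))

theorem Cond.mono : ∀ {s : Srt} {a : (NN N).Dom s} {P Q : Set N.V}, Cond N s a P → P ⊆ Q →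
    Cond N s a Q
  | Srt.obj, _, _, _, h, hPQ => hPQ h
  | Srt.rel 0, _, _, _, h, hPQ => ⟨h.1.mono hPQ, hPQ h.2⟩
  | Srt.rel 1, _, _, _, h, hPQ => ⟨h.1.mono hPQ, h.2.mono hPQ⟩
  | Srt.rel (_ + 2), _, _, _, h, hPQ => InvN.mono h hPQ

theorem Cond.exists : ∀ (s : Srt) (a : (NN N).Dom s), ∃ P : Set N.V, JJ P ∧ Cond N s a P
  | Srt.obj, a => ⟨{a}, JJ.singleton (V := N.V) a, rfl⟩
  | Srt.rel 0, X => by
    obtain ⟨P, hP, hinv⟩ := (tau_dom N X.1).1 X.2
    exact ⟨P ∪ {(NN N).num X}, hP.union (JJ.singleton (V := N.V) _),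
      hinv.mono subset_union_left, Or.inr rfl⟩
  | Srt.rel 1, R => by
    obtain ⟨P, hP, hinv⟩ := (tau_dom N R.1).1 R.2
    obtain ⟨_, P', hP', hinv'⟩ := graph (IR.ext N.h.compr R.1) hP hinv.inv2
    exact ⟨P ∪ P', hP.union hP', hinv.mono subset_union_left, hinv'.mono subset_union_right⟩
  | Srt.rel (_ + 2), R => by
    obtain ⟨P, hP, hinv⟩ := (tau_dom N R.1).1 R.2
    exact ⟨P, hP, hinv⟩

theorem Cond.inv : ∀ {k : ℕ} {R : (NN N).Dom (rel k)} {P : Set N.V}, Cond N _ R P →
    InvN P (N.M.App R.1)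
  | 0, _, _, h => h.1
  | 1, _, _, h => h.1
  | (_ + 2), _, _, h => h

theorem Cond.env : ∀ {Γ : List Srt} (e : Env (NN N).Dom Γ), ∃ P : Set N.V, JJ P ∧
    ∀ (s : Srt) (v : Var Γ s), Cond N s (e s v) P
  | [], e => ⟨∅, JJ.empty, fun s v => nomatch v⟩
  | s :: Γ, e => by
    obtain ⟨P, hP, h⟩ := Cond.env (Γ := Γ) (fun t v => e t v.there)
    obtain ⟨Q, hQ, h'⟩ := Cond.exists s (e s Var.here)
    refine ⟨P ∪ Q, hP.union hQ, ?_⟩
    intro t v
    cases v with
    | here => exact h'.mono subset_union_right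
    | there v => exact (h t v).mono subset_union_left

/-- the hypotheses for invariance of satisfaction -/
structure SwEnv {Δ : List Srt} (a b : N.V) (e e' : Env (NN N).Dom Δ) : Prop where
  obj : ∀ x : Var Δ obj, e' _ x = sw (V := N.V) a b (e _ x)
  rel : ∀ (k : ℕ) (R : Var Δ (Srt.rel k)), e' _ R = e _ R
  inv : ∀ (k : ℕ) (R : Var Δ (Srt.rel k)) (x : Fin (k + 1) → N.V),
    (NN N).App (e _ R) (fun i => sw a b (x i)) ↔ (NN N).App (e _ R) x
  num : ∀ X : Var Δ (Srt.rel 0), sw (V := N.V) a b ((NN N).num (e _ X)) = (NN N).num (e _ X)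
  col : ∀ (R : Var Δ (Srt.rel 1)) (n : N.V),
    (NN N).col rfl (e _ R) (sw a b n) = sw (V := N.V) a b ((NN N).col rfl (e _ R) n)

theorem SwEnv.val {Δ : List Srt} {a b : N.V} {e e' : Env (NN N).Dom Δ} (h : SwEnv a b e e')
    (t : Tm true Δ) : t.val (NN N) e' = sw (V := N.V) a b (t.val (NN N) e) := by
  induction t with
  | var x => exact h.obj x
  | num X => rw [val_num, val_num, h.rel]; exact (h.num X).symm
  | col hp R t ih =>
    rw [val_col, val_col, h.rel, ih]
    exact h.col R _

theorem SwEnv.cons {Δ : List Srt} {a b : N.V} {e e' : Env (NN N).Dom Δ} (h : SwEnv a b e e')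
    (c : N.V) : SwEnv a b (Env.cons (s := Srt.obj) c e : Env (NN N).Dom (Srt.obj :: Δ))
      (Env.cons (s := Srt.obj) (sw (V := N.V) a b c) e') where
  obj := by
    intro x
    cases x with
    | here => rfl
    | there x => exact h.obj x
  rel := by
    intro k R
    cases R with
    | there R => exact h.rel k R
  inv := by
    intro k R
    cases R with
    | there R => exact h.inv k R
  num := by
    intro R
    cases R with
    | there R => exact h.num R
  col := by
    intro R
    cases R with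
    | there R => exact h.col R

theorem SwEnv.sat {Δ : List Srt} (φ : Fm true Δ) : φ.Arith → ∀ {a b : N.V}
    {e e' : Env (NN N).Dom Δ}, SwEnv a b e e' → (φ.Sat (NN N) e' ↔ φ.Sat (NN N) e) := by
  induction φ with
  | eqO t u =>
    intro _ a b e e' h
    rw [sat_eqO, sat_eqO, h.val, h.val]
    exact ⟨fun h => sw_inj h, fun h => by rw [h]⟩
  | eqR R S =>
    intro _ a b e e' h
    rw [sat_eqR, sat_eqR, h.rel, h.rel]
  | app R ts =>
    intro _ a b e e' h
    rw [sat_app, sat_app, h.rel]
    simp only [h.val]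
    exact h.inv _ R _
  | neg φ ih =>
    intro hφ a b e e' h
    rw [sat_neg, sat_neg, ih hφ h]
  | and φ ψ ih1 ih2 =>
    intro hφ a b e e' h
    rw [sat_and, sat_and, ih1 hφ.1 h, ih2 hφ.2 h]
  | all s φ ih =>
    intro hφ a b e e' h
    cases s with
    | obj =>
      rw [sat_all, sat_all]
      constructor
      · intro h1 c
        exact (ih hφ (h.cons c)).1 (h1 (sw (V := N.V) a b c))
      · intro h1 c
        have h2 := (ih hφ (h.cons (sw (V := N.V) a b c))).2 (h1 (sw (V := N.V) a b c))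
        have h3 : sw (V := N.V) a b (sw (V := N.V) a b c) = c := sw_sw (V := N.V) a b c
        rw [h3] at h2
        exact h2
    | rel k => exact absurd hφ (by simp [Fm.Arith])

theorem swEnv_push {Γ : List Srt} (e : Env (NN N).Dom Γ) {P : Set N.V}
    (hC : ∀ (s : Srt) (v : Var Γ s), Cond N s (e s v) P) {a b : N.V} (ha : a ∉ P) (hb : b ∉ P)
    (n : ℕ) (x : Fin n → N.V) :
    SwEnv (Δ := objs n Γ) a b (e.push n x) (e.push n (fun i => sw a b (x i))) where
  obj := by
    intro y
    rcases push_obj e n y with ⟨i, hi⟩ | ⟨y', hy'⟩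
    · exact (hi _).trans (congrArg (sw (V := N.V) a b) (hi x).symm)
    · exact ((hy' _).trans (sw_fix ha hb (hC _ y')).symm).trans
        (congrArg (sw (V := N.V) a b) (hy' x).symm)
  rel := by
    intro k R
    obtain ⟨R', hR'⟩ := push_rel e n R
    exact (hR' _).trans (hR' _).symm
  inv := by
    intro k R y
    obtain ⟨R', hR'⟩ := push_rel e n R
    have h0 : e.push n x _ R = e _ R' := hR' x
    rw [h0]
    exact (hC _ R').inv a b ha hb y
  num := by
    intro R
    obtain ⟨R', hR'⟩ := push_rel e n R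
    have h0 : e.push n x _ R = e _ R' := hR' x
    rw [h0]
    exact sw_fix ha hb (hC _ R').2
  col := by
    intro R m
    obtain ⟨R', hR'⟩ := push_rel e n R
    have h0 : e.push n x _ R = e _ R' := hR' x
    rw [h0]
    have h1 := (NN_col N (e _ R') m _).1 rfl
    have h2 := ((hC _ R').2 a b ha hb m ((NN N).col rfl (e _ R') m)).2 h1
    exact ((NN_col N (e _ R') (sw a b m) _).2 h2).symm

theorem NN_compr {Γ : List Srt} (k : ℕ) (φ : Fm true (objs (k + 1) Γ)) (hφ : φ.Arith) :
    (comprAx k φ).Sat (NN N) Env.nil := by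
  rw [sat_compr]
  intro e
  have h1 := fam_fm φ hφ (fam_push e (k + 1))
  obtain ⟨S, hS⟩ := DM.realize N.h.compr h1 k (fun n => if h : n < k + 1 then ⟨n, h⟩ else 0)
  have hS' : ∀ x, N.M.App S x ↔ φ.Sat (NN N) (e.push (k + 1) x) := by
    intro x
    rw [hS]
    have : (fun i : Fin (k + 1) => x (if h : (i : ℕ) < k + 1 then ⟨i, h⟩ else 0)) = x := by
      funext i
      rw [dif_pos i.2]
    rw [this]
  obtain ⟨P, hP, hC⟩ := Cond.env e
  refine ⟨⟨S, (tau_dom N S).2 ⟨P, hP, ?_⟩⟩, hS'⟩
  intro a b ha hb x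
  rw [hS', hS']
  exact SwEnv.sat φ hφ (swEnv_push e hC ha hb (k + 1) x)

theorem NN_models : Models (NN N) (AHP true) := by
  intro A hA
  cases hA with
  | hume => exact NN_hume N
  | compr k φ h => exact NN_compr k φ h
  | col h => exact NN_colAx N

theorem NN_ext (h : Models N.M (Ext false)) : Models (NN N) (Ext true) := by
  rintro A ⟨k, rfl⟩
  rw [sat_ext]
  intro R S hRS
  have h1 := (sat_ext N.M k).1 (h _ ⟨k, rfl⟩) R.1 S.1 hRS
  exact Subtype.ext h1

theorem tau_interprets : tau.Interprets (AHP true) (AHP false) where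
  dom_ne := fun M hM k => (tau_good ⟨M, hM⟩).dom_ne k
  num_fun := fun M hM X hX => (tau_good ⟨M, hM⟩).num_fun X hX
  col_fun := fun M hM R hR n => (tau_good ⟨M, hM⟩).col_fun R hR n
  ax := by
    intro A hA M hM
    rw [Interp.tr_models (tau_good ⟨M, hM⟩)]
    exact NN_models (N := ⟨M, hM⟩) A hA

theorem tau_interprets_ext :
    tau.Interprets (AHP true ∪ Ext true) (AHP false ∪ Ext false) where
  dom_ne := fun M hM k => (tau_good ⟨M, fun A hA => hM A (Or.inl hA)⟩).dom_ne k
  num_fun := fun M hM X hX => (tau_good ⟨M, fun A hA => hM A (Or.inl hA)⟩).num_fun X hX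
  col_fun := fun M hM R hR n => (tau_good ⟨M, fun A hA => hM A (Or.inl hA)⟩).col_fun R hR n
  ax := by
    intro A hA M hM
    rw [Interp.tr_models (tau_good ⟨M, fun A hA => hM A (Or.inl hA)⟩)]
    rcases hA with hA | hA
    · exact NN_models (N := ⟨M, fun A hA => hM A (Or.inl hA)⟩) A hA
    · exact NN_ext (N := ⟨M, fun A hA => hM A (Or.inl hA)⟩) (fun A hA => hM A (Or.inr hA)) A hA

end HumeCol
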