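import Pool.Agent.HumeCol.Small

/-!
# Doubles of small sets, and the new cardinality operation
-/

set_option linter.unreachableTactic false
set_option linter.unusedTactic false

namespace HumeCol

open Set HumeP

variable {V : Type} [HumeP V]

/-- `A` is the union of `Z`, a disjoint copy of `Z`, and `E` -/
def Dbl (Z E A : Set V) : Prop :=
  ∃ j : V → V, IFun Z j ∧ InjOn j Z ∧ (∀ z ∈ Z, j z ∉ Z) ∧ IS E ∧
    (∀ x ∈ E, x ∉ Z ∧ x ∉ j '' Z) ∧ A = Z ∪ j '' Z ∪ E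

theorem Dbl.is {Z E A : Set V} (h : Dbl Z E A) : IS A := by
  obtain ⟨j, hj, _, _, hE, _, rfl⟩ := h
  exact (hj.dom.union hj.image).union hE

theorem Dbl.map {Z E A W E' B : Set V} (hA : Dbl Z E A) (hB : Dbl W E' B) {f g : V → V}
    (hf : IFun Z f) (hfm : MapsTo f Z W) (hfi : InjOn f Z)
    (hg : IFun E g) (hgm : MapsTo g E E') (hgi : InjOn g E) :
    ∃ h : V → V, IFun A h ∧ MapsTo h A B ∧ InjOn h A ∧
      (SurjOn h A B ↔ SurjOn f Z W ∧ SurjOn g E E') := by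
  classical
  obtain ⟨j, hj, hji, hjd, hE, hEd, rfl⟩ := hA
  obtain ⟨k, hk, hki, hkd, hE', hEd', rfl⟩ := hB
  obtain ⟨i, hi, hii⟩ := hj.inv hji
  have him : MapsTo i (j '' Z) Z := by
    rintro _ ⟨z, hz, rfl⟩; rw [hii z hz]; exact hz
  set h : V → V := fun x => if x ∈ Z then f x else if x ∈ j '' Z then k (f (i x)) else g x
    with hh
  have h1 : IFun (j '' Z) (fun x => k (f (i x))) :=
    (hi.comp hf him).comp hk (fun x hx => hfm (him hx))
  have hI : IFun (Z ∪ j '' Z ∪ E) h := by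
    rw [Set.union_assoc]
    exact IFun.ite hf (IFun.ite h1 hg)
  have vZ : ∀ z ∈ Z, h z = f z := by
    intro z hz; simp only [hh, hz, if_true]
  have vj : ∀ z ∈ Z, h (j z) = k (f z) := by
    intro z hz
    have h2 : j z ∉ Z := hjd z hz
    have h3 : j z ∈ j '' Z := ⟨z, hz, rfl⟩
    simp only [hh, h2, h3, if_false, if_true, hii z hz]
  have vE : ∀ x ∈ E, h x = g x := by
    intro x hx
    simp only [hh, (hEd x hx).1, (hEd x hx).2, if_false]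
  refine ⟨h, hI, ?_, ?_, ?_⟩
  · rintro x ((hx | ⟨z, hz, rfl⟩) | hx)
    · rw [vZ x hx]; exact Or.inl (Or.inl (hfm hx))
    · rw [vj z hz]; exact Or.inl (Or.inr ⟨_, hfm hz, rfl⟩)
    · rw [vE x hx]; exact Or.inr (hgm hx)
  · have c1 : ∀ z ∈ Z, ∀ z' ∈ Z, f z ≠ k (f z') := fun z hz z' hz' h =>
      hkd _ (hfm hz') (h ▸ hfm hz)
    have c2 : ∀ z ∈ Z, ∀ x ∈ E, f z ≠ g x := fun z hz x hx h =>
      (hEd' _ (hgm hx)).1 (h ▸ hfm hz)
    have c3 : ∀ z ∈ Z, ∀ x ∈ E, k (f z) ≠ g x := fun z hz x hx h =>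
      (hEd' _ (hgm hx)).2 (h ▸ ⟨_, hfm hz, rfl⟩)
    rintro x ((hx | ⟨z, hz, rfl⟩) | hx) y ((hy | ⟨w, hw, rfl⟩) | hy) hxy
    · rw [vZ x hx, vZ y hy] at hxy; exact hfi hx hy hxy
    · rw [vZ x hx, vj w hw] at hxy; exact absurd hxy (c1 x hx w hw)
    · rw [vZ x hx, vE y hy] at hxy; exact absurd hxy (c2 x hx y hy)
    · rw [vj z hz, vZ y hy] at hxy; exact absurd hxy.symm (c1 y hy z hz)
    · rw [vj z hz, vj w hw] at hxy
      rw [hfi hz hw (hki (hfm hz) (hfm hw) hxy)]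
    · rw [vj z hz, vE y hy] at hxy; exact absurd hxy (c3 z hz y hy)
    · rw [vE x hx, vZ y hy] at hxy; exact absurd hxy.symm (c2 y hy x hx)
    · rw [vE x hx, vj w hw] at hxy; exact absurd hxy.symm (c3 w hw x hx)
    · rw [vE x hx, vE y hy] at hxy; exact hgi hx hy hxy
  · constructor
    · intro hs
      constructor
      · intro w hw
        obtain ⟨x, hx, hxw⟩ := hs (Or.inl (Or.inl hw))
        rcases hx with (hx | ⟨z, hz, rfl⟩) | hx
        · rw [vZ x hx] at hxw; exact ⟨x, hx, hxw⟩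
        · rw [vj z hz] at hxw
          exact absurd (hxw ▸ hw) (hkd _ (hfm hz))
        · rw [vE x hx] at hxw
          exact absurd (hxw ▸ hw) (hEd' _ (hgm hx)).1
      · intro w hw
        obtain ⟨x, hx, hxw⟩ := hs (Or.inr hw)
        rcases hx with (hx | ⟨z, hz, rfl⟩) | hx
        · rw [vZ x hx] at hxw
          exact absurd (hxw ▸ hfm hx) (hEd' w hw).1
        · rw [vj z hz] at hxw
          exact absurd ⟨_, hfm hz, hxw⟩ (hEd' w hw).2
        · rw [vE x hx] at hxw; exact ⟨x, hx, hxw⟩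
    · rintro ⟨hs1, hs2⟩
      rintro y ((hy | ⟨w, hw, rfl⟩) | hy)
      · obtain ⟨x, hx, hxy⟩ := hs1 hy
        exact ⟨x, Or.inl (Or.inl hx), by rw [vZ x hx, hxy]⟩
      · obtain ⟨x, hx, hxy⟩ := hs1 hw
        exact ⟨j x, Or.inl (Or.inr ⟨x, hx, rfl⟩), by rw [vj x hx, hxy]⟩
      · obtain ⟨x, hx, hxy⟩ := hs2 hy
        exact ⟨x, Or.inr hx, by rw [vE x hx, hxy]⟩

theorem Dbl.eqp_of {Z E A W E' B : Set V} (hA : Dbl Z E A) (hB : Dbl W E' B)
    (h1 : Eqp Z W) (h2 : Eqp E E') : Eqp A B := by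
  obtain ⟨f, hf, hf2⟩ := h1
  obtain ⟨g, hg, hg2⟩ := h2
  obtain ⟨h, hh, hm, hi, hs⟩ := hA.map hB hf hf2.mapsTo hf2.injOn hg hg2.mapsTo hg2.injOn
  exact Eqp.of_surj hh hm hi (hs.2 ⟨hf2.surjOn, hg2.surjOn⟩)

theorem Dbl.eqp_of_emb {Z E A W E' B : Set V} (hA : Dbl Z E A) (hB : Dbl W E' B)
    (hdf : DF A) (hAB : Eqp A B) (hZW : Emb Z W) (h2 : Eqp E E') : Eqp Z W := by
  obtain ⟨f, hf, hfm, hfi⟩ := hZW
  obtain ⟨g, hg, hg2⟩ := h2
  obtain ⟨h, hh, hm, hi, hs⟩ := hA.map hB hf hfm hfi hg hg2.mapsTo hg2.injOn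
  exact Eqp.of_surj hf hfm hfi (hs.1 (hdf.surj hAB.symm.emb hh hm hi)).1

theorem Dbl.eqp_iff {Z E A W E' B : Set V} (hA : Dbl Z E A) (hB : Dbl W E' B)
    (hdA : DF A) (hdB : DF B) (hC : Emb Z W ∨ Emb W Z) (h2 : Eqp E E') :
    Eqp A B ↔ Eqp Z W := by
  constructor
  · intro hAB
    rcases hC with hC | hC
    · exact hA.eqp_of_emb hB hdA hAB hC h2
    · exact (hB.eqp_of_emb hA hdB hAB.symm hC h2.symm).symm
  · intro h1
    exact hA.eqp_of hB h1 h2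

theorem Eqp.empty : Eqp (∅ : Set V) ∅ := Eqp.refl IS.empty

theorem Eqp.singleton (a b : V) : Eqp ({a} : Set V) {b} := by
  refine ⟨fun _ => b, IFun.cst (IS.singleton a) b, ?_, ?_, ?_⟩
  · intro x _; rfl
  · intro x hx y hy _; exact hx.trans hy.symm
  · intro x hx; exact ⟨a, rfl, hx.symm⟩

/-- parity -/
theorem Dbl.not_eqp {Z A W B : Set V} {e : V} (hA : Dbl Z ∅ A) (hB : Dbl W {e} B)
    (hdA : DF A) (hdB : DF B) (hC : Emb Z W ∨ Emb W Z) : ¬ Eqp A B := by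
  intro hAB
  have key : ¬ Emb Z W := by
    rintro ⟨f, hf, hfm, hfi⟩
    obtain ⟨h, hh, hm, hi, hs⟩ := hA.map hB hf hfm hfi (g := fun x => x) (IFun.id IS.empty)
      (fun x hx => absurd hx (Set.notMem_empty x)) (fun x hx => absurd hx (Set.notMem_empty x))
    obtain ⟨x, hx, _⟩ := (hs.1 (hdA.surj hAB.symm.emb hh hm hi)).2 (Set.mem_singleton e)
    exact Set.notMem_empty x hx
  rcases hC with hC | hC
  · exact key hC
  · obtain ⟨f, hf, hfm, hfi⟩ := hC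
    by_cases hs : SurjOn f W Z
    · exact key (Eqp.of_surj hf hfm hfi hs).symm.emb
    have : ∃ p ∈ Z, p ∉ f '' W := by
      by_contra hcon
      push Not at hcon
      exact hs (fun c hc => hcon c hc)
    obtain ⟨p, hpZ, hp⟩ := this
    have hAI := hA.is
    obtain ⟨j, hj, hji, hjd, hE, hEd, rfl⟩ := hA
    have hZ' : IS (Z \ {p}) := hj.dom.diff (IS.singleton p)
    have hD : Dbl (Z \ {p}) {p} (Z \ {p} ∪ j '' (Z \ {p}) ∪ {p}) := by
      refine ⟨j, hj.restrict hZ' Set.sdiff_subset, hji.mono Set.sdiff_subset, ?_,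
        IS.singleton p, ?_, rfl⟩
      · rintro z ⟨hz, _⟩ hz'
        exact hjd z hz hz'.1
      · rintro x rfl
        refine ⟨fun h => h.2 rfl, ?_⟩
        rintro ⟨z, hz, hzx⟩
        exact hjd z hz.1 (hzx ▸ hpZ)
    have hfm' : MapsTo f W (Z \ {p}) := by
      intro x hx
      refine ⟨hfm hx, fun h => hp ⟨x, hx, h⟩⟩
    obtain ⟨h, hh, hm, hi, _⟩ := hB.map hD hf hfm' hfi (IFun.cst (IS.singleton e) p)
      (fun x _ => rfl) (fun x hx y hy _ => hx.trans hy.symm)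
    have hsub : Z \ {p} ∪ j '' (Z \ {p}) ∪ {p} ⊆ Z ∪ j '' Z ∪ ∅ := by
      rintro x ((hx | ⟨z, hz, rfl⟩) | hx)
      · exact Or.inl (Or.inl hx.1)
      · exact Or.inl (Or.inr ⟨z, hz.1, rfl⟩)
      · rw [Set.mem_singleton_iff.1 hx]; exact Or.inl (Or.inl hpZ)
    have hs2 := hdB.surj hAB.emb hh (fun x hx => hsub (hm hx)) hi
    obtain ⟨x, hx, hxp⟩ := hs2 (show j p ∈ Z ∪ j '' Z ∪ ∅ from Or.inl (Or.inr ⟨p, hpZ, rfl⟩))
    have := hm hx
    rw [hxp] at this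
    rcases this with (h1 | ⟨z, hz, hzp⟩) | h1
    · exact hjd p hpZ h1.1
    · exact hz.2 (hji hz.1 hpZ hzp)
    · exact hjd p hpZ ((Set.mem_singleton_iff.1 h1).symm ▸ hpZ)

/-! ### the new cardinality relation -/

/-- the graph of the new cardinality operation -/
def CardRel (X : Set V) (m : V) : Prop :=
  (J X ∧ ∃ A : Set V, Dbl X ∅ A ∧ DF A ∧ m = card A) ∨
    (IS X ∧ J Xᶜ ∧ ∃ (A : Set V) (e : V), Dbl Xᶜ {e} A ∧ DF A ∧ m = card A)

theorem J.dbl {X : Set V} (h : J X) : ∃ A : Set V, Dbl X ∅ A ∧ DF A := by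
  obtain ⟨_, _, j, hj, hji, hjd, hdf⟩ := h.phi
  refine ⟨X ∪ j '' X, ⟨j, hj, hji, hjd, IS.empty, fun x hx => absurd hx (Set.notMem_empty x), ?_⟩,
    hdf⟩
  rw [Set.union_empty]

theorem J.dbl1 (hV : ¬ GoodS (univ : Set V)) {X : Set V} (h : J X) :
    ∃ (A : Set V) (e : V), Dbl X {e} A ∧ DF A := by
  obtain ⟨hG, _, j, hj, hji, hjd, hdf⟩ := h.phi
  obtain ⟨e, he⟩ := (Phi.infinite hV hG hj).nonempty
  refine ⟨X ∪ j '' X ∪ {e}, e, ⟨j, hj, hji, hjd, IS.singleton e, ?_, rfl⟩, ?_⟩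
  · rintro x rfl
    exact ⟨fun h => he (Or.inl h), fun h => he (Or.inr h)⟩
  · rw [Set.union_singleton]
    exact hdf.insert (hj.dom.union hj.image) e

/-- sets of the new structure -/
def NS (X : Set V) : Prop := J X ∨ (IS X ∧ J Xᶜ)

theorem NS.is {X : Set V} (h : NS X) : IS X := by
  rcases h with h | h
  · exact h.1
  · exact h.1

theorem cardRel_exists (hV : ¬ GoodS (univ : Set V)) {X : Set V} (hX : NS X) :
    ∃ m, CardRel X m := by
  rcases hX with h | ⟨h1, h2⟩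
  · obtain ⟨A, hA, hA2⟩ := h.dbl
    exact ⟨card A, Or.inl ⟨h, A, hA, hA2, rfl⟩⟩
  · obtain ⟨A, e, hA, hA2⟩ := h2.dbl1 hV
    exact ⟨card A, Or.inr ⟨h1, h2, A, e, hA, hA2, rfl⟩⟩

theorem CompS.of_J {Z W : Set V} (hZ : J Z) (hW : J W) : Emb Z W ∨ Emb W Z :=
  (hZ.union hW).phi.2.1 Z W hZ.1 hW.1 subset_union_left subset_union_right

theorem cardRel_small {X Y : Set V} (hV : ¬ GoodS (univ : Set V)) (hX : J X) (hY : J Y)
    {m m' : V} (hm : CardRel X m) (hm' : CardRel Y m') : m = m' ↔ Eqp X Y := by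
  rcases hm with ⟨_, A, hA, hdA, rfl⟩ | ⟨_, h, _⟩
  · rcases hm' with ⟨_, B, hB, hdB, rfl⟩ | ⟨_, h, _⟩
    · rw [HumeP.hp A B hA.is hB.is]
      exact hA.eqp_iff hB hdA hdB (CompS.of_J hX hY) Eqp.empty
    · exact absurd h (hY.not_compl hV)
  · exact absurd h (hX.not_compl hV)

theorem cardRel_cosmall {X Y : Set V} (hV : ¬ GoodS (univ : Set V)) (hX : J Xᶜ) (hY : J Yᶜ)
    {m m' : V} (hm : CardRel X m) (hm' : CardRel Y m') : m = m' ↔ Eqp Xᶜ Yᶜ := by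
  rcases hm with ⟨h, _⟩ | ⟨_, _, A, e, hA, hdA, rfl⟩
  · exact absurd hX (h.not_compl hV)
  · rcases hm' with ⟨h, _⟩ | ⟨_, _, B, e', hB, hdB, rfl⟩
    · exact absurd hY (h.not_compl hV)
    · rw [HumeP.hp A B hA.is hB.is]
      exact hA.eqp_iff hB hdA hdB (CompS.of_J hX hY) (Eqp.singleton e e')

theorem cardRel_mixed {X Y : Set V} (hV : ¬ GoodS (univ : Set V)) (hX : J X) (hY : J Yᶜ)
    {m m' : V} (hm : CardRel X m) (hm' : CardRel Y m') : m ≠ m' := by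
  rcases hm with ⟨_, A, hA, hdA, rfl⟩ | ⟨_, h, _⟩
  · rcases hm' with ⟨h, _⟩ | ⟨_, _, B, e', hB, hdB, rfl⟩
    · exact absurd hY (h.not_compl hV)
    · intro h
      rw [HumeP.hp A B hA.is hB.is] at h
      exact hA.not_eqp hB hdA hdB (CompS.of_J hX hY) h
  · exact absurd h (hX.not_compl hV)

theorem cardRel_unique (hV : ¬ GoodS (univ : Set V)) {X : Set V} {m m' : V}
    (hm : CardRel X m) (hm' : CardRel X m') : m = m' := by
  have hm0 := hm
  rcases hm with ⟨h, _⟩ | ⟨_, h, _⟩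
  · exact (cardRel_small hV h h hm0 hm').2 (Eqp.refl h.1)
  · exact (cardRel_cosmall hV h h hm0 hm').2 (Eqp.refl h.1)

end HumeCol
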