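import Mathlib

/-!
# AHP₀, AHP₀⁺ and relative interpretations

Many-sorted first-order logic with a sort of objects and, for each `k`, a sort of `(k+1)`-ary
relations on objects (so `rel 0` is the sort of sets and `rel 1` the sort of binary relations).
Formulas are written with de Bruijn variables: a context is the list of the sorts of the free
variables, and the quantifier `all s` binds the first variable (of sort `s`) of the context.
-/

namespace HumeCol

/-- The sorts: objects, and `(k+1)`-ary relations on objects for each `k`. -/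
inductive Srt : Type
  | obj : Srt
  | rel : ℕ → Srt

/-- `Var Γ s`: the variables of sort `s` in the context `Γ`. -/
inductive Var : List Srt → Srt → Type
  | here {Γ : List Srt} {s : Srt} : Var (s :: Γ) s
  | there {Γ : List Srt} {s t : Srt} : Var Γ s → Var (t :: Γ) s

/-- Terms of the sort of objects: variables, `#X` for a set variable `X`, and, in the language
with the column symbol (`plus = true`), `c(R, t)` for a binary relation variable `R`. -/
inductive Tm (plus : Bool) (Γ : List Srt) : Type
  | var : Var Γ Srt.obj → Tm plus Γ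
  | num : Var Γ (Srt.rel 0) → Tm plus Γ
  | col : plus = true → Var Γ (Srt.rel 1) → Tm plus Γ → Tm plus Γ

/-- Formulas in the context `Γ`.  `plus = false` is the language of AHP₀ and `plus = true` that of
AHP₀⁺.  Atomic formulas are equations between object terms, equations between relation variables
of one arity, and `R t₀ … t_k` for a relation variable `R` of arity `k+1`. -/
inductive Fm (plus : Bool) : List Srt → Type
  | eqO {Γ : List Srt} : Tm plus Γ → Tm plus Γ → Fm plus Γ
  | eqR {Γ : List Srt} {k : ℕ} : Var Γ (Srt.rel k) → Var Γ (Srt.rel k) → Fm plus Γ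
  | app {Γ : List Srt} {k : ℕ} : Var Γ (Srt.rel k) → (Fin (k + 1) → Tm plus Γ) → Fm plus Γ
  | neg {Γ : List Srt} : Fm plus Γ → Fm plus Γ
  | and {Γ : List Srt} : Fm plus Γ → Fm plus Γ → Fm plus Γ
  | all {Γ : List Srt} (s : Srt) : Fm plus (s :: Γ) → Fm plus Γ

/-- The formula has no bound relation variable. -/
def Fm.Arith {plus : Bool} : {Γ : List Srt} → Fm plus Γ → Prop
  | _, .eqO _ _ => True
  | _, .eqR _ _ => True
  | _, .app _ _ => True
  | _, .neg φ => φ.Arith
  | _, .and φ ψ => φ.Arith ∧ ψ.Arith
  | _, .all Srt.obj φ => φ.Arith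
  | _, .all (Srt.rel _) _ => False

namespace Fm

variable {plus : Bool} {Γ : List Srt}

/-- Implication. -/
def imp (φ ψ : Fm plus Γ) : Fm plus Γ := neg (and φ (neg ψ))

/-- Equivalence. -/
def iff (φ ψ : Fm plus Γ) : Fm plus Γ := and (imp φ ψ) (imp ψ φ)

/-- Existential quantifier. -/
def ex (s : Srt) (φ : Fm plus (s :: Γ)) : Fm plus Γ := neg (all s (neg φ))

/-- `t ∈ X`. -/
def mem (X : Var Γ (Srt.rel 0)) (t : Tm plus Γ) : Fm plus Γ := app X (fun _ => t)

/-- `F s t` for a binary relation `F`. -/
def app2 (F : Var Γ (Srt.rel 1)) (s t : Tm plus Γ) : Fm plus Γ := app F ![s, t]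

end Fm

/-! ### Structures and satisfaction -/

/-- A structure for the many-sorted language (`plus = true`: with the symbol `c`). -/
structure Str (plus : Bool) where
  /-- the domains of the sorts -/
  Dom : Srt → Type
  /-- the domains are nonempty -/
  ne : ∀ s, Nonempty (Dom s)
  /-- `App R x`: the relation `R` holds of the tuple `x` -/
  App : {k : ℕ} → Dom (Srt.rel k) → (Fin (k + 1) → Dom Srt.obj) → Prop
  /-- the function symbol `#` -/
  num : Dom (Srt.rel 0) → Dom Srt.obj
  /-- the function symbol `c` -/
  col : plus = true → Dom (Srt.rel 1) → Dom Srt.obj → Dom Srt.obj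

/-- Assignments of values to the variables of a context. -/
def Env (D : Srt → Type) (Γ : List Srt) : Type := (s : Srt) → Var Γ s → D s

/-- The assignment on the empty context. -/
def Env.nil {D : Srt → Type} : Env D [] := fun _ v => nomatch v

/-- Extension of an assignment by a value for one more variable. -/
def Env.cons {D : Srt → Type} {Γ : List Srt} {s : Srt} (a : D s) (e : Env D Γ) :
    Env D (s :: Γ)
  | _, .here => a
  | _, .there v => e _ v

/-- Value of a term. -/
def Tm.val {plus : Bool} (M : Str plus) {Γ : List Srt} (e : Env M.Dom Γ) :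
    Tm plus Γ → M.Dom Srt.obj
  | .var v => e _ v
  | .num X => M.num (e _ X)
  | .col h R t => M.col h (e _ R) (t.val M e)

/-- Satisfaction of a formula. -/
def Fm.Sat {plus : Bool} (M : Str plus) : {Γ : List Srt} → Fm plus Γ → Env M.Dom Γ → Prop
  | _, .eqO t u, e => t.val M e = u.val M e
  | _, .eqR R S, e => e _ R = e _ S
  | _, .app R ts, e => M.App (e _ R) (fun i => (ts i).val M e)
  | _, .neg φ, e => ¬ φ.Sat M e
  | _, .and φ ψ, e => φ.Sat M e ∧ ψ.Sat M e
  | _, .all s φ, e => ∀ a : M.Dom s, φ.Sat M (Env.cons a e)

/-- Sentences. -/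
abbrev Sentence (plus : Bool) : Type := Fm plus []

/-- `M` is a model of the set `T` of sentences. -/
def Models {plus : Bool} (M : Str plus) (T : Set (Sentence plus)) : Prop :=
  ∀ A ∈ T, A.Sat M Env.nil

/-- `A` is a consequence of `T`. -/
def Entails {plus : Bool} (T : Set (Sentence plus)) (A : Sentence plus) : Prop :=
  ∀ M : Str plus, Models M T → A.Sat M Env.nil

/-! ### Renaming of variables, blocks of object variables -/

/-- Maps of variables from one context to another. -/
def Ren (Γ Δ : List Srt) : Type := (s : Srt) → Var Γ s → Var Δ s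

/-- Extension of a map of variables under a binder. -/
def Ren.lift {Γ Δ : List Srt} (ρ : Ren Γ Δ) (t : Srt) : Ren (t :: Γ) (t :: Δ)
  | _, .here => .here
  | _, .there v => .there (ρ _ v)

/-- The map which sends the first variable to `w` and the others to their images under `ρ`. -/
def Ren.cons {Γ Δ : List Srt} {t : Srt} (w : Var Δ t) (ρ : Ren Γ Δ) : Ren (t :: Γ) Δ
  | _, .here => w
  | _, .there v => ρ _ v

/-- The inclusion of `Γ` into `t :: Γ`. -/
def Ren.shift {Γ : List Srt} {t : Srt} : Ren Γ (t :: Γ) := fun _ v => v.there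

/-- The inclusion of `Γ` into `t :: u :: Γ`. -/
def Ren.shift2 {Γ : List Srt} {t u : Srt} : Ren Γ (t :: u :: Γ) := fun _ v => v.there.there

/-- The map on the empty context. -/
def Ren.nil {Δ : List Srt} : Ren [] Δ := fun _ v => nomatch v

/-- Renaming in terms. -/
def Tm.ren {plus : Bool} {Γ Δ : List Srt} (ρ : Ren Γ Δ) : Tm plus Γ → Tm plus Δ
  | .var v => .var (ρ _ v)
  | .num X => .num (ρ _ X)
  | .col h R t => .col h (ρ _ R) (t.ren ρ)

/-- Renaming in formulas. -/
def Fm.ren {plus : Bool} : {Γ Δ : List Srt} → Ren Γ Δ → Fm plus Γ → Fm plus Δ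
  | _, _, ρ, .eqO t u => .eqO (t.ren ρ) (u.ren ρ)
  | _, _, ρ, .eqR R S => .eqR (ρ _ R) (ρ _ S)
  | _, _, ρ, .app R ts => .app (ρ _ R) (fun i => (ts i).ren ρ)
  | _, _, ρ, .neg φ => .neg (φ.ren ρ)
  | _, _, ρ, .and φ ψ => .and (φ.ren ρ) (ψ.ren ρ)
  | _, _, ρ, .all s φ => .all s (φ.ren (ρ.lift s))

/-- `Γ` with `n` object variables in front. -/
def objs : ℕ → List Srt → List Srt
  | 0, Γ => Γ
  | n + 1, Γ => Srt.obj :: objs n Γ

/-- The `i`-th of the `n` new object variables. -/
def ovar {Γ : List Srt} : (n : ℕ) → Fin n → Var (objs n Γ) Srt.obj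
  | n + 1, i => Fin.cases (motive := fun _ => Var (objs (n + 1) Γ) Srt.obj) Var.here
      (fun j => Var.there (ovar n j)) i

/-- The inclusion of `Γ` into `objs n Γ`. -/
def wk {Γ : List Srt} : (n : ℕ) → Ren Γ (objs n Γ)
  | 0 => fun _ v => v
  | n + 1 => fun s v => Var.there (wk n s v)

/-- The assignment which gives the new object variables the values `x`. -/
def Env.push {D : Srt → Type} {Γ : List Srt} (e : Env D Γ) :
    (n : ℕ) → (Fin n → D Srt.obj) → Env D (objs n Γ)
  | 0, _ => e
  | n + 1, x => Env.cons (x 0) (e.push n (fun i => x i.succ))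

/-- Extension of a map of variables under `n` object quantifiers. -/
def Ren.liftN {Γ Δ : List Srt} (ρ : Ren Γ Δ) : (n : ℕ) → Ren (objs n Γ) (objs n Δ)
  | 0 => ρ
  | n + 1 => (ρ.liftN n).lift Srt.obj

/-- Universal quantification over the `n` new object variables. -/
def Fm.allN {plus : Bool} {Γ : List Srt} : (n : ℕ) → Fm plus (objs n Γ) → Fm plus Γ
  | 0, φ => φ
  | n + 1, φ => Fm.allN n (Fm.all Srt.obj φ)

/-- Existential quantification over the `n` new object variables. -/
def Fm.exN {plus : Bool} {Γ : List Srt} : (n : ℕ) → Fm plus (objs n Γ) → Fm plus Γ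
  | 0, φ => φ
  | n + 1, φ => Fm.exN n (Fm.ex Srt.obj φ)

/-- The conjunction of `ψ` with the `n` formulas `φ i`. -/
def Fm.andN {plus : Bool} {Γ : List Srt} : (n : ℕ) → (Fin n → Fm plus Γ) → Fm plus Γ → Fm plus Γ
  | 0, _, ψ => ψ
  | n + 1, φ, ψ => Fm.and (φ 0) (Fm.andN n (fun i => φ i.succ) ψ)

/-- Universal closure. -/
def Fm.close {plus : Bool} : {Γ : List Srt} → Fm plus Γ → Sentence plus
  | [], φ => φ
  | s :: _, φ => Fm.close (Fm.all s φ)

/-! ### The axioms -/

section Axioms

variable {plus : Bool}

/-- `F` (cut down to `X × Y`) is a bijection from `X` onto `Y`: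
`∀ x ∈ X ∃ y ∈ Y F x y`, `∀ y ∈ Y ∃ x ∈ X F x y`, and
`∀ x ∈ X ∀ x' ∈ X ∀ y ∈ Y ∀ y' ∈ Y (F x y ∧ F x' y' → (x = x' ↔ y = y'))`. -/
def bijFm {Γ : List Srt} (F : Var Γ (Srt.rel 1)) (X Y : Var Γ (Srt.rel 0)) : Fm plus Γ :=
  .and
    (.all Srt.obj (.imp (.mem X.there (.var .here))
      (.ex Srt.obj (.and (.mem Y.there.there (.var .here))
        (.app2 F.there.there (.var (.there .here)) (.var .here))))))
  (.and
    (.all Srt.obj (.imp (.mem Y.there (.var .here))
      (.ex Srt.obj (.and (.mem X.there.there (.var .here))
        (.app2 F.there.there (.var .here) (.var (.there .here)))))))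
    (.all Srt.obj (.imp (.mem X.there (.var .here))
      (.all Srt.obj (.imp (.mem X.there.there (.var .here))
        (.all Srt.obj (.imp (.mem Y.there.there.there (.var .here))
          (.all Srt.obj (.imp (.mem Y.there.there.there.there (.var .here))
            (.imp
              (.and
                (.app2 F.there.there.there.there (.var (.there (.there (.there .here))))
                  (.var (.there .here)))
                (.app2 F.there.there.there.there (.var (.there (.there .here))) (.var .here)))
              (.iff (.eqO (.var (.there (.there (.there .here)))) (.var (.there (.there .here))))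
                (.eqO (.var (.there .here)) (.var .here)))))))))))))

/-- Hume's Principle: `∀ X ∀ Y (#X = #Y ↔ ∃ F (F is a bijection from X onto Y))`. -/
def humeAx (plus : Bool) : Sentence plus :=
  .all (Srt.rel 0) (.all (Srt.rel 0)
    (.iff (.eqO (.num (.there .here)) (.num .here))
      (.ex (Srt.rel 1) (bijFm .here (.there (.there .here)) (.there .here)))))

/-- The instance for `φ` of comprehension for `(k+1)`-ary relations: the universal closure of
`∃ R ∀ x₀ … ∀ x_k (R x₀ … x_k ↔ φ(x₀, …, x_k))`, where `R` is not free in `φ`. -/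
def comprAx {Γ : List Srt} (k : ℕ) (φ : Fm plus (objs (k + 1) Γ)) : Sentence plus :=
  .close (.ex (Srt.rel k) (.allN (k + 1)
    (.iff (.app (wk (k + 1) _ .here) (fun i => .var (ovar (k + 1) i)))
      (φ.ren (Ren.shift.liftN (k + 1))))))

/-- The axiom for the column symbol:
`∀ R ∀ n ∀ X (∀ x (x ∈ X ↔ R n x) → c(R, n) = #X)`. -/
def colAx (h : plus = true) : Sentence plus :=
  .all (Srt.rel 1) (.all Srt.obj (.all (Srt.rel 0)
    (.imp
      (.all Srt.obj (.iff (.mem (.there .here) (.var .here))
        (.app2 (.there (.there (.there .here))) (.var (.there (.there .here))) (.var .here))))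
      (.eqO (.col h (.there (.there .here)) (.var (.there .here))) (.num .here)))))

/-- The theory AHP₀ (`plus = false`) and the theory AHP₀⁺ (`plus = true`): Hume's Principle,
comprehension for all formulas of the language without bound relation variables, and, for
`plus = true`, the axiom for `c`. -/
inductive AHP (plus : Bool) : Set (Sentence plus)
  | hume : AHP plus (humeAx plus)
  | compr {Γ : List Srt} (k : ℕ) (φ : Fm plus (objs (k + 1) Γ)) (h : φ.Arith) :
      AHP plus (comprAx k φ)
  | col (h : plus = true) : AHP plus (colAx h)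

/-- The extensionality axiom for `(k+1)`-ary relations. -/
def extAx (plus : Bool) (k : ℕ) : Sentence plus :=
  .all (Srt.rel k) (.all (Srt.rel k)
    (.imp
      (.allN (k + 1) (.iff
        (.app (wk (k + 1) _ (.there .here)) (fun i => .var (ovar (k + 1) i)))
        (.app (wk (k + 1) _ .here) (fun i => .var (ovar (k + 1) i)))))
      (.eqR (.there .here) .here)))

/-- The set of all extensionality axioms. -/
def Ext (plus : Bool) : Set (Sentence plus) := Set.range (extAx plus)

end Axioms

/-! ### Relative interpretations -/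

/-- The data of a relative interpretation of the language with `c` in the language without `c`:
objects are interpreted by all objects, `(k+1)`-ary relations by those `(k+1)`-ary relations `R`
which satisfy the formula `dom k`, equality and application by themselves, and the function
symbols `#` and `c` by formulas which define their graphs. -/
structure Interp where
  /-- `dom k (R)`: the relation `R` is in the domain -/
  dom : (k : ℕ) → Fm false [Srt.rel k]
  /-- `num (m, X)`: the graph `m = #X` -/
  num : Fm false [Srt.obj, Srt.rel 0]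
  /-- `col (m, n, R)`: the graph `m = c(R, n)` -/
  col : Fm false [Srt.obj, Srt.obj, Srt.rel 1]

namespace Interp

variable (τ : Interp)

/-- The formula which says that the first variable is the value of the term `t` in the
interpretation. -/
def trTm {Γ : List Srt} : Tm true Γ → Fm false (Srt.obj :: Γ)
  | .var v => .eqO (.var .here) (.var v.there)
  | .num X => τ.num.ren (.cons .here (.cons X.there .nil))
  | .col _ R t => .ex Srt.obj (.and
      ((trTm t).ren (.cons .here .shift2))
      (τ.col.ren (.cons (.there .here) (.cons .here (.cons R.there.there .nil)))))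

/-- The translation of formulas: terms are replaced by the formulas for their graphs, and
quantifiers over relations are relativised. -/
def tr : {Γ : List Srt} → Fm true Γ → Fm false Γ
  | _, .eqO t u => .ex Srt.obj (.and (τ.trTm t) (τ.trTm u))
  | _, .eqR R S => .eqR R S
  | _, .app (k := k) R ts => .exN (k + 1) (.andN (k + 1)
      (fun i => (τ.trTm (ts i)).ren (.cons (ovar (k + 1) i) (wk (k + 1))))
      (.app (wk (k + 1) _ R) (fun i => .var (ovar (k + 1) i))))
  | _, .neg φ => .neg (tr φ)
  | _, .and φ ψ => .and (tr φ) (tr ψ)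
  | _, .all Srt.obj φ => .all Srt.obj (tr φ)
  | _, .all (Srt.rel k) φ =>
      .all (Srt.rel k) (.imp ((τ.dom k).ren (.cons .here .nil)) (tr φ))

/-- `τ` is a relative interpretation of the theory `T'` in the theory `T`: in every model of `T`
the domains are nonempty, the graphs of `#` and `c` are those of functions on the domains, and the
translations of all axioms of `T'` are consequences of `T`. -/
structure Interprets (T' : Set (Sentence true)) (T : Set (Sentence false)) : Prop where
  dom_ne : ∀ M : Str false, Models M T → ∀ k, ∃ R : M.Dom (Srt.rel k),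
    (τ.dom k).Sat M (Env.cons R Env.nil)
  num_fun : ∀ M : Str false, Models M T → ∀ X : M.Dom (Srt.rel 0),
    (τ.dom 0).Sat M (Env.cons X Env.nil) →
      ∃! m : M.Dom Srt.obj, τ.num.Sat M (Env.cons m (Env.cons X Env.nil))
  col_fun : ∀ M : Str false, Models M T → ∀ R : M.Dom (Srt.rel 1),
    (τ.dom 1).Sat M (Env.cons R Env.nil) → ∀ n : M.Dom Srt.obj,
      ∃! m : M.Dom Srt.obj, τ.col.Sat M (Env.cons m (Env.cons n (Env.cons R Env.nil)))
  ax : ∀ A ∈ T', Entails T (τ.tr A)

end Interp

end HumeCol
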