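import Pool.Agent.HumeCol.Model

/-!
# Predicates expressible in the language of AHP₀, uniformly in the model
-/

namespace HumeCol

open Srt Set

/-- dropping the first variable -/
def etail {D : Srt → Type} {Γ : List Srt} {t : Srt} (e : Env D (t :: Γ)) : Env D Γ :=
  fun s v => e s v.there

/-- dropping a block of object variables -/
def epop {D : Srt → Type} {Γ : List Srt} (n : ℕ) (e : Env D (objs n Γ)) : Env D Γ :=
  fun s v => e s (wk n s v)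

variable {Γ : List Srt}

/-- expressible predicates -/
def Expr (U : ∀ N : Mod, Env N.M.Dom Γ → Prop) : Prop :=
  ∃ φ : Fm false Γ, ∀ (N : Mod) (e : Env N.M.Dom Γ), φ.Sat N.M e ↔ U N e

/-- object variables -/
def IsO (f : ∀ N : Mod, Env N.M.Dom Γ → N.V) : Prop :=
  ∃ v : Var Γ obj, ∀ N e, f N e = e _ v

/-- set variables -/
def IsSt (X : ∀ N : Mod, Env N.M.Dom Γ → Set N.V) : Prop :=
  ∃ v : Var Γ (rel 0), ∀ N e, X N e = ext1 N.M (e _ v)

/-- relation variables -/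
def IsRl (F : ∀ N : Mod, Env N.M.Dom Γ → N.V → N.V → Prop) : Prop :=
  ∃ v : Var Γ (rel 1), ∀ N e, F N e = ext2 N.M (e _ v)

theorem Expr.congr {U W : ∀ N : Mod, Env N.M.Dom Γ → Prop} (h : Expr U)
    (hUW : ∀ N e, U N e ↔ W N e) : Expr W := by
  obtain ⟨φ, hφ⟩ := h
  exact ⟨φ, fun N e => (hφ N e).trans (hUW N e)⟩

theorem Expr.and {U W : ∀ N : Mod, Env N.M.Dom Γ → Prop} (h : Expr U) (h' : Expr W) :
    Expr (fun N e => U N e ∧ W N e) := by
  obtain ⟨φ, hφ⟩ := h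
  obtain ⟨ψ, hψ⟩ := h'
  exact ⟨Fm.and φ ψ, fun N e => by rw [sat_and, hφ, hψ]⟩

theorem Expr.not {U : ∀ N : Mod, Env N.M.Dom Γ → Prop} (h : Expr U) :
    Expr (fun N e => ¬ U N e) := by
  obtain ⟨φ, hφ⟩ := h
  exact ⟨Fm.neg φ, fun N e => by rw [sat_neg, hφ]⟩

theorem Expr.or {U W : ∀ N : Mod, Env N.M.Dom Γ → Prop} (h : Expr U) (h' : Expr W) :
    Expr (fun N e => U N e ∨ W N e) :=
  (h.not.and h'.not).not.congr fun N e => by tauto

theorem Expr.imp {U W : ∀ N : Mod, Env N.M.Dom Γ → Prop} (h : Expr U) (h' : Expr W) :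
    Expr (fun N e => U N e → W N e) :=
  (h.and h'.not).not.congr fun N e => by tauto

theorem Expr.iff {U W : ∀ N : Mod, Env N.M.Dom Γ → Prop} (h : Expr U) (h' : Expr W) :
    Expr (fun N e => U N e ↔ W N e) :=
  ((h.imp h').and (h'.imp h)).congr fun N e => by tauto

theorem Expr.allO {P : ∀ N : Mod, Env N.M.Dom Γ → N.V → Prop}
    (h : Expr (Γ := obj :: Γ) (fun N e => P N (etail e) (e _ Var.here))) :
    Expr (fun N e => ∀ x : N.V, P N e x) := by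
  obtain ⟨φ, hφ⟩ := h
  refine ⟨Fm.all obj φ, fun N e => ?_⟩
  rw [sat_all]
  exact forall_congr' fun a => hφ N _

theorem Expr.exO {P : ∀ N : Mod, Env N.M.Dom Γ → N.V → Prop}
    (h : Expr (Γ := obj :: Γ) (fun N e => P N (etail e) (e _ Var.here))) :
    Expr (fun N e => ∃ x : N.V, P N e x) := by
  obtain ⟨φ, hφ⟩ := h
  refine ⟨Fm.ex obj φ, fun N e => ?_⟩
  rw [sat_ex]
  exact exists_congr fun a => hφ N _

theorem Expr.exS {P : ∀ N : Mod, Env N.M.Dom Γ → Set N.V → Prop}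
    (h : Expr (Γ := rel 0 :: Γ) (fun N e => P N (etail e) (ext1 N.M (e _ Var.here)))) :
    Expr (fun N e => ∃ X : Set N.V, IS X ∧ P N e X) := by
  obtain ⟨φ, hφ⟩ := h
  refine ⟨Fm.ex (rel 0) φ, fun N e => ?_⟩
  rw [sat_ex]
  constructor
  · rintro ⟨R, hR⟩
    exact ⟨ext1 N.M R, IS.ext N.h.compr R, (hφ N _).1 hR⟩
  · rintro ⟨X, hX, hP⟩
    obtain ⟨R, rfl⟩ := IS.exists_ext N.h.compr hX
    exact ⟨R, (hφ N _).2 hP⟩

theorem Expr.allS {P : ∀ N : Mod, Env N.M.Dom Γ → Set N.V → Prop}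
    (h : Expr (Γ := rel 0 :: Γ) (fun N e => P N (etail e) (ext1 N.M (e _ Var.here)))) :
    Expr (fun N e => ∀ X : Set N.V, IS X → P N e X) :=
  (Expr.exS (P := fun N e X => ¬ P N e X) h.not).not.congr fun N e => by
    push Not; rfl

theorem Expr.exR {P : ∀ N : Mod, Env N.M.Dom Γ → (N.V → N.V → Prop) → Prop}
    (h : Expr (Γ := rel 1 :: Γ) (fun N e => P N (etail e) (ext2 N.M (e _ Var.here)))) :
    Expr (fun N e => ∃ F : N.V → N.V → Prop, IR F ∧ P N e F) := by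
  obtain ⟨φ, hφ⟩ := h
  refine ⟨Fm.ex (rel 1) φ, fun N e => ?_⟩
  rw [sat_ex]
  constructor
  · rintro ⟨R, hR⟩
    exact ⟨ext2 N.M R, IR.ext N.h.compr R, (hφ N _).1 hR⟩
  · rintro ⟨X, hX, hP⟩
    obtain ⟨R, rfl⟩ := IR.exists_ext N.h.compr hX
    exact ⟨R, (hφ N _).2 hP⟩

theorem Expr.allR {P : ∀ N : Mod, Env N.M.Dom Γ → (N.V → N.V → Prop) → Prop}
    (h : Expr (Γ := rel 1 :: Γ) (fun N e => P N (etail e) (ext2 N.M (e _ Var.here)))) :
    Expr (fun N e => ∀ F : N.V → N.V → Prop, IR F → P N e F) :=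
  (Expr.exR (P := fun N e X => ¬ P N e X) h.not).not.congr fun N e => by
    push Not; rfl

theorem Expr.allN (n : ℕ) {P : ∀ N : Mod, Env N.M.Dom Γ → (Fin n → N.V) → Prop}
    (h : Expr (Γ := objs n Γ) (fun N e => P N (epop n e) (fun i => e _ (ovar n i)))) :
    Expr (fun N e => ∀ x : Fin n → N.V, P N e x) := by
  obtain ⟨φ, hφ⟩ := h
  refine ⟨Fm.allN n φ, fun N e => ?_⟩
  rw [sat_allN]
  refine forall_congr' fun x => ?_
  refine (hφ N _).trans ?_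
  change P N (epop n (e.push n x)) (fun i => e.push n x _ (ovar n i)) ↔ P N e x
  have h1 : epop n (e.push n x) = e := push_comp_wk e n x
  have h2 : (fun i => e.push n x _ (ovar n i)) = x := funext fun i => push_ovar e n x i
  rw [h1, h2]

theorem Expr.tt : Expr (Γ := Γ) (fun _ _ => True) :=
  ⟨Fm.all obj (Fm.eqO (Tm.var Var.here) (Tm.var Var.here)), fun N e => by simp⟩

theorem Expr.andN {n : ℕ} {U : Fin n → ∀ N : Mod, Env N.M.Dom Γ → Prop}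
    (h : ∀ i, Expr (U i)) : Expr (fun N e => ∀ i, U i N e) := by
  choose φ hφ using h
  obtain ⟨ψ, hψ⟩ := (Expr.tt : Expr (Γ := Γ) (fun _ _ => True))
  refine ⟨Fm.andN n φ ψ, fun N e => ?_⟩
  rw [sat_andN]
  simp only [hφ, hψ, and_true]

theorem Expr.eqA {f g : ∀ N : Mod, Env N.M.Dom Γ → N.V} (hf : IsO f) (hg : IsO g) :
    Expr (fun N e => f N e = g N e) := by
  obtain ⟨v, hv⟩ := hf
  obtain ⟨w, hw⟩ := hg
  refine ⟨Fm.eqO (Tm.var v) (Tm.var w), fun N e => ?_⟩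
  change _ ↔ f N e = g N e
  rw [sat_eqO, hv, hw]
  rfl

theorem Expr.memA {X : ∀ N : Mod, Env N.M.Dom Γ → Set N.V} {f : ∀ N : Mod, Env N.M.Dom Γ → N.V}
    (hX : IsSt X) (hf : IsO f) : Expr (fun N e => f N e ∈ X N e) := by
  obtain ⟨v, hv⟩ := hX
  obtain ⟨w, hw⟩ := hf
  refine ⟨Fm.mem v (Tm.var w), fun N e => ?_⟩
  change _ ↔ f N e ∈ X N e
  rw [sat_mem, hv, hw]
  rfl

theorem Expr.relA {F : ∀ N : Mod, Env N.M.Dom Γ → N.V → N.V → Prop}
    {f g : ∀ N : Mod, Env N.M.Dom Γ → N.V}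
    (hF : IsRl F) (hf : IsO f) (hg : IsO g) : Expr (fun N e => F N e (f N e) (g N e)) := by
  obtain ⟨v, hv⟩ := hF
  obtain ⟨w, hw⟩ := hf
  obtain ⟨u, hu⟩ := hg
  refine ⟨Fm.app2 v (Tm.var w) (Tm.var u), fun N e => ?_⟩
  change _ ↔ F N e (f N e) (g N e)
  rw [sat_app2, hv, hw, hu]
  rfl

theorem Expr.cardA {X : ∀ N : Mod, Env N.M.Dom Γ → Set N.V}
    {f : ∀ N : Mod, Env N.M.Dom Γ → N.V} (hX : IsSt X) (hf : IsO f) :
    Expr (fun N e => f N e = HumeP.card (X N e)) := by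
  obtain ⟨v, hv⟩ := hX
  obtain ⟨w, hw⟩ := hf
  refine ⟨Fm.eqO (Tm.var w) (Tm.num v), fun N e => ?_⟩
  change _ ↔ f N e = HumeP.card (X N e)
  rw [sat_eqO, hv, hw]
  show e _ w = N.M.num (e _ v) ↔ e _ w = mcard N.M (ext1 N.M (e _ v))
  rw [mcard_ext N.h]

theorem IsO.tail {t : Srt} {f : ∀ N : Mod, Env N.M.Dom Γ → N.V} (h : IsO f) :
    IsO (Γ := t :: Γ) (fun N e => f N (etail e)) := by
  obtain ⟨v, hv⟩ := h
  exact ⟨v.there, fun N e => hv N _⟩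

theorem IsSt.tail {t : Srt} {f : ∀ N : Mod, Env N.M.Dom Γ → Set N.V} (h : IsSt f) :
    IsSt (Γ := t :: Γ) (fun N e => f N (etail e)) := by
  obtain ⟨v, hv⟩ := h
  exact ⟨v.there, fun N e => hv N _⟩

theorem IsRl.tail {t : Srt} {f : ∀ N : Mod, Env N.M.Dom Γ → N.V → N.V → Prop} (h : IsRl f) :
    IsRl (Γ := t :: Γ) (fun N e => f N (etail e)) := by
  obtain ⟨v, hv⟩ := h
  exact ⟨v.there, fun N e => hv N _⟩

end HumeCol
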