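import Pool.Agent.HumeCol.Expr

/-!
# The predicates used in the interpretation are expressible
-/

set_option linter.unreachableTactic false
set_option linter.unusedTactic false

namespace HumeCol

open Srt Set

section Rel

variable {V : Type} [Intl V]

/-- `F` is an injection of `X` into `Y` -/
def InjR (F : V → V → Prop) (X Y : Set V) : Prop :=
  (∀ x, x ∈ X → ∃ y, y ∈ Y ∧ F x y) ∧
    ∀ x, x ∈ X → ∀ x', x' ∈ X → ∀ y, y ∈ Y → ∀ y', y' ∈ Y → F x y ∧ F x' y' → (x = x' ↔ y = y')

theorem injR_fun {F : V → V → Prop} {X Y : Set V} (hF : IR F) (hX : IS X) (hY : IS Y)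
    (h : InjR F X Y) :
    ∃ f : V → V, IFun X f ∧ MapsTo f X Y ∧ InjOn f X ∧ ∀ x ∈ X, ∀ y ∈ Y, (F x y ↔ y = f x) := by
  obtain ⟨h1, h3⟩ := h
  obtain ⟨f, hf, hf2⟩ := IFun.of_rel (X := X) (F := fun x y => y ∈ Y ∧ F x y) hX
    (by
      show D (fun e => e 1 ∈ Y ∧ F (e 0) (e 1))
      exact D.and (D.mem hY (IsT.get _)) (D.rel hF (IsT.get _) (IsT.get _)))
    (by
      intro x hx
      obtain ⟨y, hy, hxy⟩ := h1 x hx
      refine ⟨y, ⟨hy, hxy⟩, ?_⟩
      rintro y' ⟨hy', hxy'⟩
      exact ((h3 x hx x hx y hy y' hy' ⟨hxy, hxy'⟩).1 rfl).symm)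
  have hfx : ∀ x ∈ X, f x ∈ Y ∧ F x (f x) := fun x hx => (hf2 x hx (f x)).2 rfl
  refine ⟨f, hf, fun x hx => (hfx x hx).1, ?_, ?_⟩
  · intro x hx y hy hxy
    exact (h3 x hx y hy (f x) (hfx x hx).1 (f y) (hfx y hy).1
      ⟨(hfx x hx).2, (hfx y hy).2⟩).2 hxy
  · intro x hx y hy
    rw [← hf2 x hx y]
    simp [hy]

omit [Intl V] in
theorem injR_of_fun {f : V → V} {X Y : Set V} (h1 : MapsTo f X Y) (h2 : InjOn f X) :
    InjR (fun x y => x ∈ X ∧ y = f x) X Y := by
  refine ⟨fun x hx => ⟨f x, h1 hx, hx, rfl⟩, ?_⟩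
  rintro x hx x' hx' y _ y' _ ⟨⟨_, rfl⟩, ⟨_, rfl⟩⟩
  exact ⟨fun h => by rw [h], fun h' => h2 hx hx' h'⟩

theorem emb_iff {X Y : Set V} (hX : IS X) (hY : IS Y) :
    Emb X Y ↔ ∃ F : V → V → Prop, IR F ∧ InjR F X Y := by
  constructor
  · rintro ⟨f, hf, h1, h2⟩
    exact ⟨fun x y => x ∈ X ∧ y = f x, hf, injR_of_fun h1 h2⟩
  · rintro ⟨F, hF, hb⟩
    obtain ⟨f, hf, h1, h2, _⟩ := injR_fun hF hX hY hb
    exact ⟨f, hf, h1, h2⟩

theorem df_iff {A : Set V} (hA : IS A) :
    DF A ↔ ∀ F : V → V → Prop, IR F → (InjR F A A → ∀ y, y ∈ A → ∃ x, x ∈ A ∧ F x y) := by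
  constructor
  · intro h F hF hi y hy
    obtain ⟨f, hf, h1, h2, h3⟩ := injR_fun hF hA hA hi
    obtain ⟨x, hx, hxy⟩ := h f hf h1 h2 hy
    exact ⟨x, hx, (h3 x hx y hy).2 hxy.symm⟩
  · intro h f hf h1 h2 y hy
    obtain ⟨x, hx, _, hxy⟩ := h (fun x y => x ∈ A ∧ y = f x) hf (injR_of_fun h1 h2) y hy
    exact ⟨x, hx, hxy.symm⟩

end Rel

section Rel2

variable {V : Type} [HumeP V]

theorem goodS_iff {P : Set V} : GoodS P ↔
    ∀ R : V → V → Prop, IR R → ∃ F : V → V → Prop, IR F ∧ ∀ n, ∀ m,
      (F n m ↔ (n ∈ P ∧ ∃ X : Set V, IS X ∧ ((∀ x, (x ∈ X ↔ R n x)) ∧ m = HumeP.card X))) := by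
  have key : ∀ (R : V → V → Prop), IR R → ∀ n m,
      (∃ X : Set V, IS X ∧ ((∀ x, (x ∈ X ↔ R n x)) ∧ m = HumeP.card X)) ↔
        m = HumeP.card (sl R n) := by
    intro R hR n m
    constructor
    · rintro ⟨X, _, h1, h2⟩
      rw [h2]
      congr 1
      ext x
      exact h1 x
    · intro h
      exact ⟨sl R n, hR.slice n, fun x => Iff.rfl, h⟩
  constructor
  · intro h R hR
    refine ⟨fun n m => n ∈ P ∧ m = HumeP.card (sl R n), h R hR, fun n m => ?_⟩
    rw [key R hR]
  · intro h R hR
    obtain ⟨F, hF, hF2⟩ := h R hR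
    show D _
    refine D.congr (p := fun e => F (e 0) (e 1)) hF (fun e => ?_)
    rw [hF2, key R hR]

theorem compS_iff {Q : Set V} : CompS Q ↔ ∀ A : Set V, IS A → ∀ B : Set V, IS B →
    ((∀ x, x ∈ A → x ∈ Q) → (∀ x, x ∈ B → x ∈ Q) → (Emb A B ∨ Emb B A)) :=
  ⟨fun h A hA B hB h1 h2 => h A B hA hB h1 h2, fun h A B hA hB h1 h2 => h A hA B hB h1 h2⟩

theorem disjS_iff {Q : Set V} (hQ : IS Q) : DisjS Q ↔ ∃ Q' : Set V, IS Q' ∧
    ((∀ x, x ∈ Q → ¬ x ∈ Q') ∧ (Eqp Q Q' ∧ ∃ S : Set V, IS S ∧
      ((∀ x, (x ∈ S ↔ (x ∈ Q ∨ x ∈ Q'))) ∧ DF S))) := by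
  constructor
  · rintro ⟨j, hj, hji, hjd, hdf⟩
    refine ⟨j '' Q, hj.image, ?_, ⟨j, hj, hji.bijOn_image⟩, Q ∪ j '' Q, hQ.union hj.image,
      fun x => Iff.rfl, hdf⟩
    rintro x hx ⟨y, hy, rfl⟩
    exact hjd y hy hx
  · rintro ⟨Q', _, h1, ⟨j, hj, hj2⟩, S, hS, hS2, hdf⟩
    refine ⟨j, hj, hj2.injOn, fun x hx h => h1 _ h (hj2.mapsTo hx), ?_⟩
    rw [hj2.image_eq]
    have : Q ∪ Q' = S := by ext x; exact (hS2 x).symm
    rwa [this]

theorem J_iff {P : Set V} (hP : IS P) : J P ↔ ∀ F : V → V → Prop, IR F →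
    ((∀ x, ∀ y, ∀ y', F x y → F x y' → y = y') → ∀ Q : Set V, IS Q → (Phi Q →
      ∃ S : Set V, IS S ∧ ((∀ x, (x ∈ S ↔ (x ∈ Q ∨ ∃ z, z ∈ P ∧ F z x))) ∧ Phi S))) := by
  constructor
  · intro h F hF hFn Q hQ hPhi
    exact ⟨Q ∪ Img F P, hQ.union (IS.img hF hP), fun x => Iff.rfl, h.2 F hF hFn Q hPhi⟩
  · intro h
    refine ⟨hP, fun F hF hFn Q hQ => ?_⟩
    obtain ⟨S, _, hS2, hS3⟩ := h F hF hFn Q hQ.is hQ
    have : Q ∪ Img F P = S := by ext x; exact (hS2 x).symm
    rwa [this]

theorem dbl_iff {Z E A : Set V} (hE : IS E) : Dbl Z E A ↔ ∃ Z' : Set V, IS Z' ∧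
    (Eqp Z Z' ∧ ((∀ x, x ∈ Z → ¬ x ∈ Z') ∧ ((∀ x, x ∈ E → (¬ x ∈ Z ∧ ¬ x ∈ Z')) ∧
      ∀ x, (x ∈ A ↔ ((x ∈ Z ∨ x ∈ Z') ∨ x ∈ E))))) := by
  constructor
  · rintro ⟨j, hj, hji, hjd, _, hEd, rfl⟩
    refine ⟨j '' Z, hj.image, ⟨j, hj, hji.bijOn_image⟩, ?_, hEd, fun x => Iff.rfl⟩
    rintro x hx ⟨y, hy, rfl⟩
    exact hjd y hy hx
  · rintro ⟨Z', _, ⟨j, hj, hj2⟩, h1, h2, h3⟩
    refine ⟨j, hj, hj2.injOn, fun x hx h => h1 _ h (hj2.mapsTo hx), hE, ?_, ?_⟩
    · rw [hj2.image_eq]; exact h2
    · rw [hj2.image_eq]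
      ext x; exact h3 x

theorem cardRel_iff {X : Set V} (hX : IS X) (m : V) : CardRel X m ↔
    ((J X ∧ ∃ A : Set V, IS A ∧ ((∃ E : Set V, IS E ∧ ((∀ x, ¬ x ∈ E) ∧ Dbl X E A)) ∧
      (DF A ∧ m = HumeP.card A))) ∨
    ∃ Y : Set V, IS Y ∧ ((∀ x, (x ∈ Y ↔ ¬ x ∈ X)) ∧ (J Y ∧ ∃ A : Set V, IS A ∧
      ((∃ e, ∃ E : Set V, IS E ∧ ((∀ x, (x ∈ E ↔ x = e)) ∧ Dbl Y E A)) ∧
        (DF A ∧ m = HumeP.card A))))) := by
  constructor
  · rintro (⟨h1, A, h2, h3, h4⟩ | ⟨_, h1, A, e, h2, h3, h4⟩)
    · exact Or.inl ⟨h1, A, h2.is, ⟨∅, IS.empty, fun x => Set.notMem_empty x, h2⟩, h3, h4⟩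
    · exact Or.inr ⟨Xᶜ, hX.compl, fun x => Iff.rfl, h1, A, h2.is,
        ⟨e, {e}, IS.singleton e, fun x => Iff.rfl, h2⟩, h3, h4⟩
  · rintro (⟨h1, A, _, ⟨E, _, h5, h2⟩, h3, h4⟩ | ⟨Y, _, h0, h1, A, _, ⟨e, E, _, h5, h2⟩, h3, h4⟩)
    · have : E = ∅ := by ext x; simp [h5 x]
      rw [this] at h2
      exact Or.inl ⟨h1, A, h2, h3, h4⟩
    · have hE : E = {e} := by ext x; exact h5 x
      have hY : Y = Xᶜ := by ext x; exact h0 x
      rw [hE, hY] at h2
      rw [hY] at h1
      exact Or.inr ⟨hX, h1, A, e, h2, h3, h4⟩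

end Rel2

section Ex

variable {Γ : List Srt}

theorem IsO.eq' {f : ∀ N : Mod, Env N.M.Dom Γ → N.V} (h : IsO f) :
    ∃ v : Var Γ obj, f = fun (N : Mod) (e : Env N.M.Dom Γ) => e _ v := by
  obtain ⟨v, hv⟩ := h
  exact ⟨v, funext fun N => funext fun e => hv N e⟩

theorem IsSt.eq' {f : ∀ N : Mod, Env N.M.Dom Γ → Set N.V} (h : IsSt f) :
    ∃ v : Var Γ (rel 0), f = fun (N : Mod) (e : Env N.M.Dom Γ) => ext1 N.M (e _ v) := by
  obtain ⟨v, hv⟩ := h
  exact ⟨v, funext fun N => funext fun e => hv N e⟩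

theorem IsRl.eq' {f : ∀ N : Mod, Env N.M.Dom Γ → N.V → N.V → Prop} (h : IsRl f) :
    ∃ v : Var Γ (rel 1), f = fun (N : Mod) (e : Env N.M.Dom Γ) => ext2 N.M (e _ v) := by
  obtain ⟨v, hv⟩ := h
  exact ⟨v, funext fun N => funext fun e => hv N e⟩

variable {X Y Z E A : ∀ N : Mod, Env N.M.Dom Γ → Set N.V}
  {F : ∀ N : Mod, Env N.M.Dom Γ → N.V → N.V → Prop} {m : ∀ N : Mod, Env N.M.Dom Γ → N.V}

theorem ex_inj (hF : IsRl F) (hX : IsSt X) (hY : IsSt Y) :
    Expr (fun N e => InjR (F N e) (X N e) (Y N e)) := by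
  obtain ⟨v, rfl⟩ := hF.eq'
  obtain ⟨w, rfl⟩ := hX.eq'
  obtain ⟨u, rfl⟩ := hY.eq'
  simp only [InjR]
  repeat' first
    | assumption
    | with_reducible apply Expr.allS | with_reducible apply Expr.exS
    | with_reducible apply Expr.allR | with_reducible apply Expr.exR
    | with_reducible apply Expr.and | with_reducible apply Expr.or | with_reducible apply Expr.not
    | with_reducible apply Expr.imp | with_reducible apply Expr.iff
    | with_reducible apply Expr.exO | with_reducible apply Expr.allO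
    | with_reducible apply Expr.cardA | with_reducible apply Expr.eqA
    | with_reducible apply Expr.memA
    | with_reducible apply Expr.relA
    | (show IsO _; exact ⟨_, fun _ _ => rfl⟩)
    | (show IsSt _; exact ⟨_, fun _ _ => rfl⟩)
    | (show IsRl _; exact ⟨_, fun _ _ => rfl⟩)

theorem ex_bij (hF : IsRl F) (hX : IsSt X) (hY : IsSt Y) :
    Expr (fun N e => IsBij (F N e) (fun x => x ∈ X N e) (fun x => x ∈ Y N e)) := by
  obtain ⟨v, rfl⟩ := hF.eq'
  obtain ⟨w, rfl⟩ := hX.eq'
  obtain ⟨u, rfl⟩ := hY.eq'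
  simp only [IsBij]
  repeat' first
    | assumption
    | with_reducible apply Expr.allS | with_reducible apply Expr.exS
    | with_reducible apply Expr.allR | with_reducible apply Expr.exR
    | with_reducible apply Expr.and | with_reducible apply Expr.or | with_reducible apply Expr.not
    | with_reducible apply Expr.imp | with_reducible apply Expr.iff
    | with_reducible apply Expr.exO | with_reducible apply Expr.allO
    | with_reducible apply Expr.cardA | with_reducible apply Expr.eqA
    | with_reducible apply Expr.memA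
    | with_reducible apply Expr.relA
    | (show IsO _; exact ⟨_, fun _ _ => rfl⟩)
    | (show IsSt _; exact ⟨_, fun _ _ => rfl⟩)
    | (show IsRl _; exact ⟨_, fun _ _ => rfl⟩)

theorem ex_emb (hX : IsSt X) (hY : IsSt Y) : Expr (fun N e => Emb (X N e) (Y N e)) := by
  obtain ⟨w, rfl⟩ := hX.eq'
  obtain ⟨u, rfl⟩ := hY.eq'
  refine Expr.congr ?_ (fun N e =>
    (emb_iff (IS.ext N.h.compr (e _ w)) (IS.ext N.h.compr (e _ u))).symm)
  repeat' first
    | assumption
    | with_reducible apply ex_inj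
    | with_reducible apply Expr.allS | with_reducible apply Expr.exS
    | with_reducible apply Expr.allR | with_reducible apply Expr.exR
    | with_reducible apply Expr.and | with_reducible apply Expr.or | with_reducible apply Expr.not
    | with_reducible apply Expr.imp | with_reducible apply Expr.iff
    | with_reducible apply Expr.exO | with_reducible apply Expr.allO
    | with_reducible apply Expr.cardA | with_reducible apply Expr.eqA
    | with_reducible apply Expr.memA
    | with_reducible apply Expr.relA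
    | (show IsO _; exact ⟨_, fun _ _ => rfl⟩)
    | (show IsSt _; exact ⟨_, fun _ _ => rfl⟩)
    | (show IsRl _; exact ⟨_, fun _ _ => rfl⟩)

theorem ex_eqp (hX : IsSt X) (hY : IsSt Y) : Expr (fun N e => Eqp (X N e) (Y N e)) := by
  obtain ⟨w, rfl⟩ := hX.eq'
  obtain ⟨u, rfl⟩ := hY.eq'
  refine Expr.congr ?_ (fun N e =>
    (eqp_iff_bij (IS.ext N.h.compr (e _ w)) (IS.ext N.h.compr (e _ u))).symm)
  repeat' first
    | assumption
    | with_reducible apply ex_bij
    | with_reducible apply Expr.allS | with_reducible apply Expr.exS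
    | with_reducible apply Expr.allR | with_reducible apply Expr.exR
    | with_reducible apply Expr.and | with_reducible apply Expr.or | with_reducible apply Expr.not
    | with_reducible apply Expr.imp | with_reducible apply Expr.iff
    | with_reducible apply Expr.exO | with_reducible apply Expr.allO
    | with_reducible apply Expr.cardA | with_reducible apply Expr.eqA
    | with_reducible apply Expr.memA
    | with_reducible apply Expr.relA
    | (show IsO _; exact ⟨_, fun _ _ => rfl⟩)
    | (show IsSt _; exact ⟨_, fun _ _ => rfl⟩)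
    | (show IsRl _; exact ⟨_, fun _ _ => rfl⟩)

theorem ex_df (hX : IsSt X) : Expr (fun N e => DF (X N e)) := by
  obtain ⟨w, rfl⟩ := hX.eq'
  refine Expr.congr ?_ (fun N e => (df_iff (IS.ext N.h.compr (e _ w))).symm)
  repeat' first
    | assumption
    | with_reducible apply ex_inj
    | with_reducible apply Expr.allS | with_reducible apply Expr.exS
    | with_reducible apply Expr.allR | with_reducible apply Expr.exR
    | with_reducible apply Expr.and | with_reducible apply Expr.or | with_reducible apply Expr.not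
    | with_reducible apply Expr.imp | with_reducible apply Expr.iff
    | with_reducible apply Expr.exO | with_reducible apply Expr.allO
    | with_reducible apply Expr.cardA | with_reducible apply Expr.eqA
    | with_reducible apply Expr.memA
    | with_reducible apply Expr.relA
    | (show IsO _; exact ⟨_, fun _ _ => rfl⟩)
    | (show IsSt _; exact ⟨_, fun _ _ => rfl⟩)
    | (show IsRl _; exact ⟨_, fun _ _ => rfl⟩)

theorem ex_good (hX : IsSt X) : Expr (fun N e => GoodS (X N e)) := by
  obtain ⟨w, rfl⟩ := hX.eq'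
  refine Expr.congr ?_ (fun N e => goodS_iff.symm)
  repeat' first
    | assumption
    | with_reducible apply Expr.allS | with_reducible apply Expr.exS
    | with_reducible apply Expr.allR | with_reducible apply Expr.exR
    | with_reducible apply Expr.and | with_reducible apply Expr.or | with_reducible apply Expr.not
    | with_reducible apply Expr.imp | with_reducible apply Expr.iff
    | with_reducible apply Expr.exO | with_reducible apply Expr.allO
    | with_reducible apply Expr.cardA | with_reducible apply Expr.eqA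
    | with_reducible apply Expr.memA
    | with_reducible apply Expr.relA
    | (show IsO _; exact ⟨_, fun _ _ => rfl⟩)
    | (show IsSt _; exact ⟨_, fun _ _ => rfl⟩)
    | (show IsRl _; exact ⟨_, fun _ _ => rfl⟩)

theorem ex_comp (hX : IsSt X) : Expr (fun N e => CompS (X N e)) := by
  obtain ⟨w, rfl⟩ := hX.eq'
  refine Expr.congr ?_ (fun N e => compS_iff.symm)
  repeat' first
    | assumption
    | with_reducible apply ex_emb
    | with_reducible apply Expr.allS | with_reducible apply Expr.exS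
    | with_reducible apply Expr.allR | with_reducible apply Expr.exR
    | with_reducible apply Expr.and | with_reducible apply Expr.or | with_reducible apply Expr.not
    | with_reducible apply Expr.imp | with_reducible apply Expr.iff
    | with_reducible apply Expr.exO | with_reducible apply Expr.allO
    | with_reducible apply Expr.cardA | with_reducible apply Expr.eqA
    | with_reducible apply Expr.memA
    | with_reducible apply Expr.relA
    | (show IsO _; exact ⟨_, fun _ _ => rfl⟩)
    | (show IsSt _; exact ⟨_, fun _ _ => rfl⟩)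
    | (show IsRl _; exact ⟨_, fun _ _ => rfl⟩)

theorem ex_disj (hX : IsSt X) : Expr (fun N e => DisjS (X N e)) := by
  obtain ⟨w, rfl⟩ := hX.eq'
  refine Expr.congr ?_ (fun N e => (disjS_iff (IS.ext N.h.compr (e _ w))).symm)
  repeat' first
    | assumption
    | with_reducible apply ex_eqp
    | with_reducible apply ex_df
    | with_reducible apply Expr.allS | with_reducible apply Expr.exS
    | with_reducible apply Expr.allR | with_reducible apply Expr.exR
    | with_reducible apply Expr.and | with_reducible apply Expr.or | with_reducible apply Expr.not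
    | with_reducible apply Expr.imp | with_reducible apply Expr.iff
    | with_reducible apply Expr.exO | with_reducible apply Expr.allO
    | with_reducible apply Expr.cardA | with_reducible apply Expr.eqA
    | with_reducible apply Expr.memA
    | with_reducible apply Expr.relA
    | (show IsO _; exact ⟨_, fun _ _ => rfl⟩)
    | (show IsSt _; exact ⟨_, fun _ _ => rfl⟩)
    | (show IsRl _; exact ⟨_, fun _ _ => rfl⟩)

theorem ex_phi (hX : IsSt X) : Expr (fun N e => Phi (X N e)) := by
  simp only [Phi]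
  exact (ex_good hX).and ((ex_comp hX).and (ex_disj hX))

theorem ex_J (hX : IsSt X) : Expr (fun N e => J (X N e)) := by
  obtain ⟨w, rfl⟩ := hX.eq'
  refine Expr.congr ?_ (fun N e => (J_iff (IS.ext N.h.compr (e _ w))).symm)
  repeat' first
    | assumption
    | with_reducible apply ex_phi
    | with_reducible apply Expr.allS | with_reducible apply Expr.exS
    | with_reducible apply Expr.allR | with_reducible apply Expr.exR
    | with_reducible apply Expr.and | with_reducible apply Expr.or | with_reducible apply Expr.not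
    | with_reducible apply Expr.imp | with_reducible apply Expr.iff
    | with_reducible apply Expr.exO | with_reducible apply Expr.allO
    | with_reducible apply Expr.cardA | with_reducible apply Expr.eqA
    | with_reducible apply Expr.memA
    | with_reducible apply Expr.relA
    | (show IsO _; exact ⟨_, fun _ _ => rfl⟩)
    | (show IsSt _; exact ⟨_, fun _ _ => rfl⟩)
    | (show IsRl _; exact ⟨_, fun _ _ => rfl⟩)

theorem ex_goodU : Expr (Γ := Γ) (fun N _ => GoodS (univ : Set N.V)) := by
  refine Expr.congr (U := fun N _ => ∃ S : Set N.V, IS S ∧ ((∀ x, x ∈ S) ∧ GoodS S)) ?_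
    (fun N e => ?_)
  ·
    repeat' first
      | assumption
      | with_reducible apply ex_good
      | with_reducible apply Expr.allS | with_reducible apply Expr.exS
      | with_reducible apply Expr.allR | with_reducible apply Expr.exR
      | with_reducible apply Expr.and | with_reducible apply Expr.or | with_reducible apply Expr.not
      | with_reducible apply Expr.imp | with_reducible apply Expr.iff
      | with_reducible apply Expr.exO | with_reducible apply Expr.allO
      | with_reducible apply Expr.cardA | with_reducible apply Expr.eqA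
      | with_reducible apply Expr.memA
      | with_reducible apply Expr.relA
      | (show IsO _; exact ⟨_, fun _ _ => rfl⟩)
      | (show IsSt _; exact ⟨_, fun _ _ => rfl⟩)
      | (show IsRl _; exact ⟨_, fun _ _ => rfl⟩)
  · constructor
    · rintro ⟨S, _, h1, h2⟩
      rwa [Set.eq_univ_of_forall h1] at h2
    · intro h
      exact ⟨univ, IS.univ, fun x => Set.mem_univ x, h⟩

theorem ex_JJ (hX : IsSt X) : Expr (fun N e => JJ (X N e)) := by
  obtain ⟨w, rfl⟩ := hX.eq'
  refine Expr.congr (U := fun N e => GoodS (univ : Set N.V) ∨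
    (¬ GoodS (univ : Set N.V) ∧ J (ext1 N.M (e _ w)))) ?_ (fun N e => ?_)
  · exact ex_goodU.or (ex_goodU.not.and (ex_J ⟨w, fun _ _ => rfl⟩))
  · constructor
    · rintro (h | h)
      · exact Or.inl ⟨h, IS.ext N.h.compr (e _ w)⟩
      · exact Or.inr h
    · rintro (⟨h, _⟩ | h)
      · exact Or.inl h
      · exact Or.inr h

theorem ex_dbl (hX : IsSt Z) (hE : IsSt E) (hA : IsSt A) :
    Expr (fun N e => Dbl (Z N e) (E N e) (A N e)) := by
  obtain ⟨w, rfl⟩ := hX.eq'
  obtain ⟨u, rfl⟩ := hE.eq'
  obtain ⟨v, rfl⟩ := hA.eq'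
  refine Expr.congr ?_ (fun N e =>
    (dbl_iff (IS.ext N.h.compr (e _ u))).symm)
  repeat' first
    | assumption
    | with_reducible apply ex_eqp
    | with_reducible apply Expr.allS | with_reducible apply Expr.exS
    | with_reducible apply Expr.allR | with_reducible apply Expr.exR
    | with_reducible apply Expr.and | with_reducible apply Expr.or | with_reducible apply Expr.not
    | with_reducible apply Expr.imp | with_reducible apply Expr.iff
    | with_reducible apply Expr.exO | with_reducible apply Expr.allO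
    | with_reducible apply Expr.cardA | with_reducible apply Expr.eqA
    | with_reducible apply Expr.memA
    | with_reducible apply Expr.relA
    | (show IsO _; exact ⟨_, fun _ _ => rfl⟩)
    | (show IsSt _; exact ⟨_, fun _ _ => rfl⟩)
    | (show IsRl _; exact ⟨_, fun _ _ => rfl⟩)

theorem ex_cardRel (hX : IsSt X) (hm : IsO m) : Expr (fun N e => CardRel (X N e) (m N e)) := by
  obtain ⟨w, rfl⟩ := hX.eq'
  obtain ⟨u, rfl⟩ := hm.eq'
  refine Expr.congr ?_ (fun N e => (cardRel_iff (IS.ext N.h.compr (e _ w)) _).symm)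
  repeat' first
    | assumption
    | with_reducible apply ex_J
    | with_reducible apply ex_dbl
    | with_reducible apply ex_df
    | with_reducible apply Expr.allS | with_reducible apply Expr.exS
    | with_reducible apply Expr.allR | with_reducible apply Expr.exR
    | with_reducible apply Expr.and | with_reducible apply Expr.or | with_reducible apply Expr.not
    | with_reducible apply Expr.imp | with_reducible apply Expr.iff
    | with_reducible apply Expr.exO | with_reducible apply Expr.allO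
    | with_reducible apply Expr.cardA | with_reducible apply Expr.eqA
    | with_reducible apply Expr.memA
    | with_reducible apply Expr.relA
    | (show IsO _; exact ⟨_, fun _ _ => rfl⟩)
    | (show IsSt _; exact ⟨_, fun _ _ => rfl⟩)
    | (show IsRl _; exact ⟨_, fun _ _ => rfl⟩)

theorem ex_CR (hX : IsSt X) (hm : IsO m) : Expr (fun N e => CR (X N e) (m N e)) := by
  simp only [CR]
  exact (ex_goodU.and (Expr.cardA hX hm)).or (ex_goodU.not.and (ex_cardRel hX hm))

end Ex

end HumeCol
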