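import Pool.Agent.HumeCol.Inv

/-!
# The graph of the column counting operation of the new structure
-/

set_option linter.unreachableTactic false
set_option linter.unusedTactic false

namespace HumeCol

open Set HumeP

variable {V : Type} [HumeP V]

/-- the ideal -/
def JJ (P : Set V) : Prop :=
  (GoodS (univ : Set V) ∧ IS P) ∨ (¬ GoodS (univ : Set V) ∧ J P)

/-- the graph of the cardinality operation of the new structure -/
def CR (X : Set V) (m : V) : Prop :=
  (GoodS (univ : Set V) ∧ m = card X) ∨ (¬ GoodS (univ : Set V) ∧ CardRel X m)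

theorem JJ.is {P : Set V} (h : JJ P) : IS P := by
  rcases h with ⟨_, h⟩ | ⟨_, h⟩
  · exact h
  · exact h.1

theorem JJ.empty : JJ (∅ : Set V) := by
  by_cases hV : GoodS (univ : Set V)
  · exact Or.inl ⟨hV, IS.empty⟩
  · exact Or.inr ⟨hV, J.empty⟩

theorem JJ.singleton (a : V) : JJ ({a} : Set V) := by
  by_cases hV : GoodS (univ : Set V)
  · exact Or.inl ⟨hV, IS.singleton a⟩
  · exact Or.inr ⟨hV, J.singleton hV a⟩

theorem JJ.union {P Q : Set V} (hP : JJ P) (hQ : JJ Q) : JJ (P ∪ Q) := by
  rcases hP with ⟨hV, hP⟩ | ⟨hV, hP⟩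
  · exact Or.inl ⟨hV, hP.union hQ.is⟩
  · rcases hQ with ⟨hV', _⟩ | ⟨_, hQ⟩
    · exact absurd hV' hV
    · exact Or.inr ⟨hV, hP.union hQ⟩

theorem CR.exists_unique {X P : Set V} (hX : IS X) (hP : JJ P) (hinv : Inv1 P X) :
    ∃! m, CR X m := by
  by_cases hV : GoodS (univ : Set V)
  · refine ⟨card X, Or.inl ⟨hV, rfl⟩, ?_⟩
    rintro m (⟨_, h⟩ | ⟨h, _⟩)
    · exact h
    · exact absurd hV h
  · have hP' : J P := by
      rcases hP with ⟨h, _⟩ | ⟨_, h⟩
      · exact absurd h hV
      · exact h
    obtain ⟨m, hm⟩ := cardRel_exists hV (NS.of_inv hX hP' hinv)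
    refine ⟨m, Or.inr ⟨hV, hm⟩, ?_⟩
    rintro m' (⟨h, _⟩ | ⟨_, h⟩)
    · exact absurd h hV
    · exact cardRel_unique hV h hm

omit [HumeP V] in
theorem inv2_univ (F : V → V → Prop) : Inv2 (univ : Set V) F :=
  fun a _ ha => absurd (Set.mem_univ a) ha

theorem CR.hume {X Y P Q : Set V} (hX : IS X) (hY : IS Y) (hP : JJ P) (hXP : Inv1 P X)
    (hQ : JJ Q) (hYQ : Inv1 Q Y) {m m' : V} (hm : CR X m) (hm' : CR Y m') :
    m = m' ↔ ∃ F : V → V → Prop, IR F ∧ (∃ P, JJ P ∧ Inv2 P F) ∧
      IsBij F (fun x => x ∈ X) (fun x => x ∈ Y) := by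
  by_cases hV : GoodS (univ : Set V)
  · have h1 : m = card X := by
      rcases hm with ⟨_, h⟩ | ⟨h, _⟩
      · exact h
      · exact absurd hV h
    have h2 : m' = card Y := by
      rcases hm' with ⟨_, h⟩ | ⟨h, _⟩
      · exact h
      · exact absurd hV h
    rw [h1, h2, HumeP.hp X Y hX hY]
    constructor
    · rintro ⟨f, hf, hb⟩
      refine ⟨fun x y => x ∈ X ∧ y = f x, hf, ⟨univ, Or.inl ⟨hV, IS.univ⟩, inv2_univ _⟩,
        ?_, ?_, ?_⟩
      · intro x hx
        exact ⟨f x, hb.mapsTo hx, hx, rfl⟩
      · intro y hy
        obtain ⟨x, hx, rfl⟩ := hb.surjOn hy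
        exact ⟨x, hx, hx, rfl⟩
      · rintro x hx x' hx' y _ y' _ ⟨⟨_, rfl⟩, ⟨_, rfl⟩⟩
        exact ⟨fun h => by rw [h], fun h => hb.injOn hx hx' h⟩
    · rintro ⟨F, hF, _, hb⟩
      obtain ⟨f, hf, hf2, _⟩ := isBij_fun hF hX hY hb
      exact ⟨f, hf, hf2⟩
  · have hJ : ∀ P : Set V, JJ P ↔ J P := by
      intro P
      constructor
      · rintro (⟨h, _⟩ | ⟨_, h⟩)
        · exact absurd h hV
        · exact h
      · intro h; exact Or.inr ⟨hV, h⟩
    have hC : ∀ (X : Set V) m, CR X m ↔ CardRel X m := by
      intro X m
      constructor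
      · rintro (⟨h, _⟩ | ⟨_, h⟩)
        · exact absurd h hV
        · exact h
      · intro h; exact Or.inr ⟨hV, h⟩
    rw [hC] at hm hm'
    rw [cardRel_hume hV (NS.of_inv hX ((hJ P).1 hP) hXP) (NS.of_inv hY ((hJ Q).1 hQ) hYQ) hm hm']
    simp only [hJ]

omit [HumeP V] in
/-- slices of an invariant relation at a point -/
theorem Inv2.slice {P : Set V} {R : V → V → Prop} (h : Inv2 P R) {n : V} (hn : n ∈ P) :
    Inv1 P (sl R n) := by
  intro a b ha hb x
  have := h a b ha hb n x
  rw [sw_fix ha hb hn] at this
  exact this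

omit [HumeP V] in
theorem inv_sub {P : Set V} {X : Set V} (h : Inv1 P X) {u : V} (hu : u ∉ P) (hX : u ∉ X) :
    X ⊆ P := by
  intro x hx
  by_contra hxP
  have := h x u hxP hu x
  rw [sw_left] at this
  exact hX (this.2 hx)

omit [HumeP V] in
theorem inv_sub_compl {P : Set V} {X : Set V} (h : Inv1 P X) {u : V} (hu : u ∉ P) (hX : u ∈ X) :
    Xᶜ ⊆ P := by
  intro x hx
  by_contra hxP
  have := h x u hxP hu x
  rw [sw_left] at this
  exact hx (this.1 hX)

theorem graph_B (hV : ¬ GoodS (univ : Set V)) {R : V → V → Prop} (hR : IR R) {P : Set V}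
    (hP : J P) (hinv : Inv2 P R) :
    IR (fun n m => CardRel (sl R n) m) ∧ ∃ c, ∀ n, n ∉ P → ∀ m, CardRel (sl R n) m ↔ m = c := by
  obtain ⟨u, hu⟩ := (hP.infinite hV).nonempty
  have hu' : u ∉ P := hu
  -- the common value off `P`
  have hNS : ∀ n, NS (sl R n) := by
    intro n
    have h1 : Inv2 (insert n P) R := hinv.mono (Set.subset_insert n P)
    exact NS.of_inv (hR.slice n) (hP.ins hV n) (h1.slice (Set.mem_insert n P))
  obtain ⟨c, hc⟩ := cardRel_exists hV (hNS u)
  have hoff : ∀ n, n ∉ P → CardRel (sl R n) c := by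
    intro n hn
    obtain ⟨m, hm⟩ := cardRel_exists hV (hNS n)
    have : m = c := by
      rw [cardRel_hume hV (hNS n) (hNS u) hm hc]
      refine ⟨fun x y => y = sw n u x, ?_, ⟨{n, u}, J.of_finite hV (Set.toFinite _), ?_⟩,
        ?_, ?_, ?_⟩
      · show D (fun e => e 1 = sw n u (e 0))
        refine D.congr (p := fun e => (e 0 = n ∧ e 1 = u) ∨ (e 0 = u ∧ e 1 = n) ∨
          ((¬ e 0 = n ∧ ¬ e 0 = u) ∧ e 1 = e 0)) ?_ (fun e => ?_)
        ·
          repeat' first
            | assumption
            | with_reducible apply IsT.get | with_reducible apply IsT.const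
            | refine D.fn (by assumption) ?_ ?_
            | with_reducible apply D.and | with_reducible apply D.or | with_reducible apply D.not
            | with_reducible apply D.imp | with_reducible apply D.iff
            | with_reducible apply D.ex | with_reducible apply D.all
            | with_reducible apply D.eq | with_reducible apply D.const
            | refine D.mem (by assumption) ?_
            | refine D.rel (by assumption) ?_ ?_
        · by_cases h1 : e 0 = n
          · rw [h1, sw_left]
            constructor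
            · rintro (⟨_, h⟩ | ⟨h2, h⟩ | ⟨⟨h2, _⟩, _⟩)
              · exact h
              · rw [h, h2]
              · exact absurd rfl h2
            · intro h; exact Or.inl ⟨rfl, h⟩
          · by_cases h2 : e 0 = u
            · rw [h2, sw_right]
              constructor
              · rintro (⟨h3, _⟩ | ⟨_, h⟩ | ⟨⟨_, h3⟩, _⟩)
                · exact absurd (h2.trans h3) h1
                · exact h
                · exact absurd rfl h3
              · intro h; exact Or.inr (Or.inl ⟨rfl, h⟩)
            · rw [sw_of_ne h1 h2]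
              constructor
              · rintro (⟨h3, _⟩ | ⟨h3, _⟩ | ⟨_, h⟩)
                · exact absurd h3 h1
                · exact absurd h3 h2
                · exact h
              · intro h; exact Or.inr (Or.inr ⟨⟨h1, h2⟩, h⟩)
      · intro a b ha hb x y
        have hna : n ≠ a := fun h => ha (Or.inl h.symm)
        have hnb : n ≠ b := fun h => hb (Or.inl h.symm)
        have hua : u ≠ a := fun h => ha (Or.inr h.symm)
        have hub : u ≠ b := fun h => hb (Or.inr h.symm)
        have hcomm : sw n u (sw a b x) = sw a b (sw n u x) := by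
          by_cases h1 : x = n
          · rw [h1, sw_of_ne hna hnb, sw_left, sw_of_ne hua hub]
          · by_cases h2 : x = u
            · rw [h2, sw_of_ne hua hub, sw_right, sw_of_ne hna hnb]
            · rw [sw_of_ne h1 h2]
              refine sw_of_ne ?_ ?_
              · intro h
                apply h1
                rw [← sw_sw a b x, h, sw_of_ne hna hnb]
              · intro h
                apply h2
                rw [← sw_sw a b x, h, sw_of_ne hua hub]
        show sw a b y = sw n u (sw a b x) ↔ y = sw n u x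
        rw [hcomm]
        exact ⟨fun h => sw_inj h, fun h => by rw [h]⟩
      · intro x hx
        refine ⟨sw n u x, ?_, rfl⟩
        have := (hinv n u hn hu' n x).2 hx
        rwa [sw_left] at this
      · intro y hy
        refine ⟨sw n u y, ?_, (sw_sw n u y).symm⟩
        have := (hinv n u hn hu' u y).2 hy
        rwa [sw_right] at this
      · rintro x _ x' _ y _ y' _ ⟨rfl, rfl⟩
        exact ⟨fun h => by rw [h], fun h => sw_inj h⟩
    rwa [this] at hm
  have hoff' : ∀ n, n ∉ P → ∀ m, CardRel (sl R n) m ↔ m = c := by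
    intro n hn m
    constructor
    · intro h; exact cardRel_unique hV h (hoff n hn)
    · rintro rfl; exact hoff n hn
  refine ⟨?_, c, hoff'⟩
  obtain ⟨hG, _, j, hj, hji, hjd, hdf⟩ := hP.phi
  obtain ⟨e, he⟩ := (Phi.infinite hV hG hj).nonempty
  have he1 : e ∉ P := fun h => he (Or.inl h)
  have he2 : e ∉ j '' P := fun h => he (Or.inr h)
  have hPjI : IS (P ∪ j '' P) := hP.1.union hj.image
  -- the two auxiliary relations
  set R1 : V → V → Prop := fun n y => R n y ∨ ∃ x, (x ∈ P ∧ y = j x) ∧ R n x with hR1
  set R2 : V → V → Prop := fun n y => ¬ R n y ∨ (∃ x, (x ∈ P ∧ y = j x) ∧ ¬ R n x) ∨ y = e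
    with hR2
  have hR1I : IR R1 := by
    show D (fun e => R (e 0) (e 1) ∨ ∃ x, (x ∈ P ∧ e 1 = j x) ∧ R (e 0) x)
    repeat' first
      | assumption
      | with_reducible apply IsT.get | with_reducible apply IsT.const
      | refine D.fn (by assumption) ?_ ?_
      | with_reducible apply D.and | with_reducible apply D.or | with_reducible apply D.not
      | with_reducible apply D.imp | with_reducible apply D.iff
      | with_reducible apply D.ex | with_reducible apply D.all
      | with_reducible apply D.eq | with_reducible apply D.const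
      | refine D.mem (by assumption) ?_
      | refine D.rel (by assumption) ?_ ?_
  have hR2I : IR R2 := by
    show D (fun e' => ¬ R (e' 0) (e' 1) ∨ (∃ x, (x ∈ P ∧ e' 1 = j x) ∧ ¬ R (e' 0) x) ∨ e' 1 = e)
    repeat' first
      | assumption
      | with_reducible apply IsT.get | with_reducible apply IsT.const
      | refine D.fn (by assumption) ?_ ?_
      | with_reducible apply D.and | with_reducible apply D.or | with_reducible apply D.not
      | with_reducible apply D.imp | with_reducible apply D.iff
      | with_reducible apply D.ex | with_reducible apply D.all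
      | with_reducible apply D.eq | with_reducible apply D.const
      | refine D.mem (by assumption) ?_
      | refine D.rel (by assumption) ?_ ?_
  have key1 : ∀ n ∈ P, ¬ R n u → CardRel (sl R n) (card (sl R1 n)) := by
    intro n hn hnu
    have hsub : sl R n ⊆ P := inv_sub (hinv.slice hn) hu' hnu
    have hJn : J (sl R n) := hP.subset (hR.slice n) hsub
    have hEq : sl R1 n = sl R n ∪ j '' (sl R n) ∪ ∅ := by
      ext y
      constructor
      · rintro (h | ⟨x, ⟨_, rfl⟩, h⟩)
        · exact Or.inl (Or.inl h)
        · exact Or.inl (Or.inr ⟨x, h, rfl⟩)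
      · rintro ((h | ⟨x, h, rfl⟩) | h)
        · exact Or.inl h
        · exact Or.inr ⟨x, ⟨hsub h, rfl⟩, h⟩
        · exact absurd h (Set.notMem_empty y)
    refine Or.inl ⟨hJn, sl R1 n, ⟨j, hj.restrict (hR.slice n) hsub, hji.mono hsub, ?_, IS.empty,
      fun x hx => absurd hx (Set.notMem_empty x), hEq⟩, ?_, rfl⟩
    · intro z hz h; exact hjd z (hsub hz) (hsub h)
    · refine hdf.subset hPjI (hR1I.slice n) ?_
      rw [hEq, Set.union_empty]
      exact Set.union_subset_union hsub (Set.image_mono hsub)
  have key2 : ∀ n ∈ P, R n u → CardRel (sl R n) (card (sl R2 n)) := by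
    intro n hn hnu
    have hsub : (sl R n)ᶜ ⊆ P := inv_sub_compl (hinv.slice hn) hu' hnu
    have hIc : IS (sl R n)ᶜ := (hR.slice n).compl
    have hJn : J (sl R n)ᶜ := hP.subset hIc hsub
    have hEq : sl R2 n = (sl R n)ᶜ ∪ j '' (sl R n)ᶜ ∪ {e} := by
      ext y
      constructor
      · rintro (h | ⟨x, ⟨_, rfl⟩, h⟩ | h)
        · exact Or.inl (Or.inl h)
        · exact Or.inl (Or.inr ⟨x, h, rfl⟩)
        · exact Or.inr h
      · rintro ((h | ⟨x, h, rfl⟩) | h)
        · exact Or.inl h
        · exact Or.inr (Or.inl ⟨x, ⟨hsub h, rfl⟩, h⟩)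
        · exact Or.inr (Or.inr h)
    refine Or.inr ⟨hR.slice n, hJn, sl R2 n, e, ⟨j, hj.restrict hIc hsub, hji.mono hsub, ?_,
      IS.singleton e, ?_, hEq⟩, ?_, rfl⟩
    · intro z hz h; exact hjd z (hsub hz) (hsub h)
    · intro x hx
      rw [Set.mem_singleton_iff.1 hx]
      exact ⟨fun h => he1 (hsub h), fun h => he2 (Set.image_mono hsub h)⟩
    · have h1 := hdf.insert hPjI e
      refine h1.subset (hPjI.insert e) (hR2I.slice n) ?_
      rw [hEq, Set.union_singleton]
      exact Set.insert_subset_insert (Set.union_subset_union hsub (Set.image_mono hsub))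
  have hG1 := hG R1 hR1I
  have hG2 := hG R2 hR2I
  show D (fun v => CardRel (sl R (v 0)) (v 1))
  refine D.congr (p := fun v => (¬ R (v 0) u ∧ (v 0 ∈ P ∧ v 1 = card (sl R1 (v 0)))) ∨
    (R (v 0) u ∧ (v 0 ∈ P ∧ v 1 = card (sl R2 (v 0)))) ∨ (¬ v 0 ∈ P ∧ v 1 = c)) ?_ (fun v => ?_)
  · have hPI := hP.1
    refine D.or (D.and ?_ hG1) (D.or (D.and ?_ hG2) ?_)
    ·
      repeat' first
        | assumption
        | with_reducible apply IsT.get | with_reducible apply IsT.const
        | refine D.fn (by assumption) ?_ ?_
        | with_reducible apply D.and | with_reducible apply D.or | with_reducible apply D.not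
        | with_reducible apply D.imp | with_reducible apply D.iff
        | with_reducible apply D.ex | with_reducible apply D.all
        | with_reducible apply D.eq | with_reducible apply D.const
        | refine D.mem (by assumption) ?_
        | refine D.rel (by assumption) ?_ ?_
    ·
      repeat' first
        | assumption
        | with_reducible apply IsT.get | with_reducible apply IsT.const
        | refine D.fn (by assumption) ?_ ?_
        | with_reducible apply D.and | with_reducible apply D.or | with_reducible apply D.not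
        | with_reducible apply D.imp | with_reducible apply D.iff
        | with_reducible apply D.ex | with_reducible apply D.all
        | with_reducible apply D.eq | with_reducible apply D.const
        | refine D.mem (by assumption) ?_
        | refine D.rel (by assumption) ?_ ?_
    ·
      repeat' first
        | assumption
        | with_reducible apply IsT.get | with_reducible apply IsT.const
        | refine D.fn (by assumption) ?_ ?_
        | with_reducible apply D.and | with_reducible apply D.or | with_reducible apply D.not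
        | with_reducible apply D.imp | with_reducible apply D.iff
        | with_reducible apply D.ex | with_reducible apply D.all
        | with_reducible apply D.eq | with_reducible apply D.const
        | refine D.mem (by assumption) ?_
        | refine D.rel (by assumption) ?_ ?_
  · by_cases hn : v 0 ∈ P
    · by_cases hnu : R (v 0) u
      · have h2 := key2 _ hn hnu
        constructor
        · rintro (⟨h, _⟩ | ⟨_, _, h⟩ | ⟨h, _⟩)
          · exact absurd hnu h
          · rw [h]; exact h2
          · exact absurd hn h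
        · intro h; exact Or.inr (Or.inl ⟨hnu, hn, cardRel_unique hV h h2⟩)
      · have h2 := key1 _ hn hnu
        constructor
        · rintro (⟨_, _, h⟩ | ⟨h, _⟩ | ⟨h, _⟩)
          · rw [h]; exact h2
          · exact absurd h hnu
          · exact absurd hn h
        · intro h; exact Or.inl ⟨hnu, hn, cardRel_unique hV h h2⟩
    · rw [hoff' _ hn]
      constructor
      · rintro (⟨_, h, _⟩ | ⟨_, h, _⟩ | ⟨_, h⟩)
        · exact absurd h hn
        · exact absurd h hn
        · exact h
      · intro h; exact Or.inr (Or.inr ⟨hn, h⟩)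

/-- the graph of the column counting operation belongs to the new structure -/
theorem graph {R : V → V → Prop} (hR : IR R) {P : Set V} (hP : JJ P) (hinv : Inv2 P R) :
    IR (fun n m => CR (sl R n) m) ∧ ∃ P', JJ P' ∧ Inv2 P' (fun n m => CR (sl R n) m) := by
  by_cases hV : GoodS (univ : Set V)
  · refine ⟨?_, univ, Or.inl ⟨hV, IS.univ⟩, inv2_univ _⟩
    show D (fun v => CR (sl R (v 0)) (v 1))
    refine D.congr (hV R hR) (fun v => ?_)
    constructor
    · rintro ⟨_, h⟩; exact Or.inl ⟨hV, h⟩
    · rintro (⟨_, h⟩ | ⟨h, _⟩)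
      · exact ⟨Set.mem_univ _, h⟩
      · exact absurd hV h
  · have hC : ∀ (X : Set V) m, CR X m ↔ CardRel X m := by
      intro X m
      constructor
      · rintro (⟨h, _⟩ | ⟨_, h⟩)
        · exact absurd h hV
        · exact h
      · intro h; exact Or.inr ⟨hV, h⟩
    have hP' : J P := by
      rcases hP with ⟨h, _⟩ | ⟨_, h⟩
      · exact absurd h hV
      · exact h
    simp only [hC]
    obtain ⟨h1, c, h2⟩ := graph_B hV hR hP' hinv
    refine ⟨h1, P ∪ Img (fun n m => CardRel (sl R n) m) P ∪ {c}, ?_, ?_⟩
    · refine Or.inr ⟨hV, (hP'.union (hP'.img h1 ?_)).union (J.singleton hV c)⟩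
      intro x y y' h3 h4
      exact cardRel_unique hV h3 h4
    · intro a b ha hb n m
      have haP : a ∉ P := fun h => ha (Or.inl (Or.inl h))
      have hbP : b ∉ P := fun h => hb (Or.inl (Or.inl h))
      have haI : a ∉ Img (fun n m => CardRel (sl R n) m) P := fun h => ha (Or.inl (Or.inr h))
      have hbI : b ∉ Img (fun n m => CardRel (sl R n) m) P := fun h => hb (Or.inl (Or.inr h))
      have hac : a ≠ c := fun h => ha (Or.inr h)
      have hbc : b ≠ c := fun h => hb (Or.inr h)
      show CardRel (sl R (sw a b n)) (sw a b m) ↔ CardRel (sl R n) m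
      by_cases hn : n ∈ P
      · rw [sw_fix haP hbP hn]
        constructor
        · intro h
          have h3 : sw a b m ∈ Img (fun n m => CardRel (sl R n) m) P := ⟨n, hn, h⟩
          have h4 := sw_fix haI hbI h3
          rw [sw_sw] at h4
          rwa [← h4] at h
        · intro h
          rwa [sw_fix haI hbI (show m ∈ Img (fun n m => CardRel (sl R n) m) P from ⟨n, hn, h⟩)]
      · have hn' : sw a b n ∉ P := fun h => hn ((sw_mem haP hbP).1 h)
        rw [h2 _ hn', h2 _ hn]
        constructor
        · intro h
          rw [← sw_sw a b m, h, sw_of_ne hac.symm hbc.symm]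
        · rintro rfl
          exact sw_of_ne hac.symm hbc.symm

end HumeCol
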