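import Pool.Agent.HumeCol.Syn

namespace HumeCol

open Srt

namespace Interp

variable (τ : Interp) (M : Str false)

/-- domains of the interpreted structure -/
def ndom : Srt → Type
  | Srt.obj => M.Dom Srt.obj
  | Srt.rel k => {R : M.Dom (Srt.rel k) // (τ.dom k).Sat M (Env.cons R Env.nil)}

/-- the inclusion of the domains -/
def incl : (s : Srt) → τ.ndom M s → M.Dom s
  | Srt.obj => fun x => x
  | Srt.rel _ => fun R => R.1

/-- the graphs of the interpretation are those of functions on nonempty domains -/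
structure Good : Prop where
  dom_ne : ∀ k, ∃ R : M.Dom (Srt.rel k), (τ.dom k).Sat M (Env.cons R Env.nil)
  num_fun : ∀ X : M.Dom (Srt.rel 0), (τ.dom 0).Sat M (Env.cons X Env.nil) →
      ∃! m : M.Dom Srt.obj, τ.num.Sat M (Env.cons m (Env.cons X Env.nil))
  col_fun : ∀ R : M.Dom (Srt.rel 1), (τ.dom 1).Sat M (Env.cons R Env.nil) →
    ∀ n : M.Dom Srt.obj,
      ∃! m : M.Dom Srt.obj, τ.col.Sat M (Env.cons m (Env.cons n (Env.cons R Env.nil)))

variable {τ M}

/-- the structure defined by `τ` in `M` -/
noncomputable def str (h : Good τ M) : Str true where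
  Dom := τ.ndom M
  ne := fun s => match s with
    | Srt.obj => M.ne Srt.obj
    | Srt.rel k => let ⟨R, hR⟩ := h.dom_ne k; ⟨⟨R, hR⟩⟩
  App := fun R x => M.App R.1 x
  num := fun X => (h.num_fun X.1 X.2).choose
  col := fun _ R n => (h.col_fun R.1 R.2 n).choose

theorem str_num (h : Good τ M) (X : τ.ndom M (rel 0)) (m : M.Dom obj) :
    m = (str h).num X ↔ τ.num.Sat M (Env.cons m (Env.cons X.1 Env.nil)) := by
  have hc := (h.num_fun X.1 X.2).choose_spec
  constructor
  · rintro rfl
    exact hc.1
  · intro hm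
    exact hc.2 m hm

theorem str_col (h : Good τ M) (hp : true = true) (R : τ.ndom M (rel 1)) (n m : M.Dom obj) :
    m = (str h).col hp R n ↔
      τ.col.Sat M (Env.cons m (Env.cons n (Env.cons R.1 Env.nil))) := by
  have hc := (h.col_fun R.1 R.2 n).choose_spec
  constructor
  · rintro rfl
    exact hc.1
  · intro hm
    exact hc.2 m hm

/-- the image of an environment -/
def emap {Γ : List Srt} (e : Env (τ.ndom M) Γ) : Env M.Dom Γ := fun s v => τ.incl M s (e s v)

theorem emap_cons {Γ : List Srt} {s : Srt} (a : τ.ndom M s) (e : Env (τ.ndom M) Γ) :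
    emap (Env.cons a e) = Env.cons (τ.incl M s a) (emap e) := by
  apply env_ext
  intro t v
  cases v <;> rfl

theorem trTm_sat (h : Good τ M) {Γ : List Srt} (t : Tm true Γ) (e : Env (τ.ndom M) Γ) :
    ∀ m : M.Dom obj, (τ.trTm t).Sat M (Env.cons m (emap e)) ↔ m = t.val (str h) e := by
  induction t with
  | var v => intro m; rfl
  | num X =>
    intro m
    show (Fm.ren _ _).Sat M _ ↔ m = (str h).num (e _ X)
    rw [sat_ren, str_num]
    rw [Env.comp_cons, Env.comp_cons, Env.comp_nil]
    rfl
  | col hp R t ih =>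
    intro m
    show (Fm.ex Srt.obj _).Sat M _ ↔ m = (str h).col hp (e _ R) (t.val (str h) e)
    rw [sat_ex]
    constructor
    · rintro ⟨n, h1⟩
      rw [sat_and, sat_ren, sat_ren, Env.comp_cons, Env.comp_cons, Env.comp_cons, Env.comp_cons,
        Env.comp_nil] at h1
      obtain ⟨h1, h2⟩ := h1
      have h1' := (ih n).1 h1
      subst h1'
      exact (str_col h hp (e _ R) _ m).2 h2
    · intro hm
      refine ⟨t.val (str h) e, ?_⟩
      rw [sat_and, sat_ren, sat_ren, Env.comp_cons, Env.comp_cons, Env.comp_cons, Env.comp_cons,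
        Env.comp_nil]
      exact ⟨(ih _).2 rfl, (str_col h hp (e _ R) _ m).1 hm⟩

theorem tr_sat (h : Good τ M) {Γ : List Srt} (φ : Fm true Γ) : ∀ (e : Env (τ.ndom M) Γ),
    (τ.tr φ).Sat M (emap e) ↔ φ.Sat (str h) e := by
  induction φ with
  | eqO t u =>
    intro e
    show (Fm.ex Srt.obj _).Sat M _ ↔ _
    rw [sat_ex]
    constructor
    · rintro ⟨m, h1, h2⟩
      have h1' := (trTm_sat h t e m).1 h1
      have h2' := (trTm_sat h u e m).1 h2
      show t.val (str h) e = u.val (str h) e
      rw [← h1', ← h2']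
    · intro h1
      exact ⟨_, (trTm_sat h t e _).2 rfl, (trTm_sat h u e _).2 h1⟩
  | eqR R S =>
    intro e
    show (e _ R).1 = (e _ S).1 ↔ e _ R = e _ S
    exact Subtype.ext_iff.symm
  | app R ts =>
    rename_i Δ k
    intro e
    show (Fm.exN _ _).Sat M _ ↔ _
    rw [sat_exN]
    have key : ∀ (x : Fin (k + 1) → M.Dom obj) (i : Fin (k + 1)),
        ((τ.trTm (ts i)).ren (Ren.cons (ovar (k + 1) i) (wk (k + 1)))).Sat M
          ((emap e).push (k + 1) x) ↔ x i = (ts i).val (str h) e := by
      intro x i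
      rw [sat_ren, Env.comp_cons, push_comp_wk, push_ovar]
      exact trTm_sat h (ts i) e (x i)
    constructor
    · rintro ⟨x, h1⟩
      rw [sat_andN] at h1
      obtain ⟨h1, h2⟩ := h1
      have hx : x = fun i => (ts i).val (str h) e := funext fun i => (key x i).1 (h1 i)
      rw [sat_app] at h2
      simp only [val_var, push_ovar, push_wk] at h2
      show M.App (e _ R).1 _
      rw [hx] at h2
      exact h2
    · intro h1
      obtain ⟨x, hx⟩ : ∃ x : Fin (k + 1) → M.Dom obj, x = fun i => (ts i).val (str h) e :=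
        ⟨_, rfl⟩
      refine ⟨x, ?_⟩
      rw [sat_andN]
      refine ⟨fun i => (key x i).2 (by rw [hx]), ?_⟩
      rw [sat_app]
      simp only [val_var, push_ovar, push_wk]
      rw [hx]
      exact h1
  | neg φ ih =>
    intro e
    show ¬ _ ↔ ¬ _
    rw [ih]
  | and φ ψ ih1 ih2 =>
    intro e
    show _ ∧ _ ↔ _ ∧ _
    rw [ih1, ih2]
  | all s φ ih =>
    intro e
    cases s with
    | obj =>
      show (∀ a, _) ↔ (∀ a, _)
      refine forall_congr' fun a => ?_
      have h0 : emap (Env.cons (s := Srt.obj) a e) = Env.cons a (emap e) := emap_cons _ _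
      rw [← h0]
      exact ih _
    | rel k =>
      show (∀ a, (Fm.imp _ _).Sat M _) ↔ (∀ a, _)
      constructor
      · intro h1 a
        have h2 := (sat_imp M _ _ _).1 (h1 a.1) (by
          rw [sat_ren, Env.comp_cons, Env.comp_nil]
          exact a.2)
        have h0 : emap (Env.cons (s := Srt.rel k) a e) = Env.cons a.1 (emap e) := emap_cons _ _
        rw [← h0] at h2
        exact (ih _).1 h2
      · intro h1 a
        rw [sat_imp]
        intro ha
        rw [sat_ren, Env.comp_cons, Env.comp_nil] at ha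
        have h0 : emap (Env.cons (s := Srt.rel k) (⟨a, ha⟩ : τ.ndom M (rel k)) e)
            = Env.cons a (emap e) := emap_cons _ _
        rw [← h0]
        exact (ih _).2 (h1 ⟨a, ha⟩)

theorem tr_models (h : Good τ M) (A : Sentence true) :
    (τ.tr A).Sat M Env.nil ↔ A.Sat (str h) Env.nil := by
  have := tr_sat h A (Env.nil : Env (τ.ndom M) [])
  rw [show (emap (Env.nil : Env (τ.ndom M) [])) = Env.nil from env_ext fun s v => nomatch v] at this
  exact this

end Interp

end HumeCol
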