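import Pool.Agent.HumeCol.Expr2
import Pool.Agent.HumeCol.Trans

/-!
# The interpretation
-/

set_option linter.unreachableTactic false
set_option linter.unusedTactic false

namespace HumeCol

open Srt Set

/-- transposition as a relation -/
def SwR {V : Type} (a b x y : V) : Prop :=
  (x = a ∧ y = b) ∨ ((x = b ∧ y = a) ∨ ((¬ x = a ∧ ¬ x = b) ∧ y = x))

theorem swR_iff {V : Type} (a b x y : V) : SwR a b x y ↔ y = sw a b x := by
  by_cases h1 : x = a
  · subst h1
    rw [sw_left]
    constructor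
    · rintro (⟨_, h⟩ | ⟨h, h'⟩ | ⟨⟨h, _⟩, _⟩)
      · exact h
      · rw [h', h]
      · exact absurd rfl h
    · intro h; exact Or.inl ⟨rfl, h⟩
  · by_cases h2 : x = b
    · subst h2
      rw [sw_right]
      constructor
      · rintro (⟨h, _⟩ | ⟨_, h⟩ | ⟨⟨_, h⟩, _⟩)
        · exact absurd h h1
        · exact h
        · exact absurd rfl h
      · intro h; exact Or.inr (Or.inl ⟨rfl, h⟩)
    · rw [sw_of_ne h1 h2]
      constructor
      · rintro (⟨h, _⟩ | ⟨h, _⟩ | ⟨_, h⟩)
        · exact absurd h h1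
        · exact absurd h h2
        · exact h
      · intro h; exact Or.inr (Or.inr ⟨⟨h1, h2⟩, h⟩)

/-- invariance of relations of any arity -/
def InvN {V : Type} (P : Set V) {n : ℕ} (p : (Fin n → V) → Prop) : Prop :=
  ∀ a b, a ∉ P → b ∉ P → ∀ x, p (fun i => sw a b (x i)) ↔ p x

/-- the relation belongs to the new structure -/
def InDom (N : Mod) {k : ℕ} (R : N.M.Dom (rel k)) : Prop :=
  ∃ P : Set N.V, JJ P ∧ InvN P (N.M.App R)

theorem ex_swR {Γ : List Srt} {a b x y : ∀ N : Mod, Env N.M.Dom Γ → N.V}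
    (ha : IsO a) (hb : IsO b) (hx : IsO x) (hy : IsO y) :
    Expr (fun N e => SwR (a N e) (b N e) (x N e) (y N e)) := by
  simp only [SwR]
  repeat' first
    | assumption
    | with_reducible apply Expr.allS | with_reducible apply Expr.exS
    | with_reducible apply Expr.allR | with_reducible apply Expr.exR
    | with_reducible apply Expr.and | with_reducible apply Expr.or | with_reducible apply Expr.not
    | with_reducible apply Expr.imp | with_reducible apply Expr.iff
    | with_reducible apply Expr.exO | with_reducible apply Expr.allO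
    | with_reducible apply Expr.cardA | with_reducible apply Expr.eqA
    | with_reducible apply Expr.memA
    | with_reducible apply Expr.relA
    | (show IsO _; exact ⟨_, fun _ _ => rfl⟩)
    | (show IsSt _; exact ⟨_, fun _ _ => rfl⟩)
    | (show IsRl _; exact ⟨_, fun _ _ => rfl⟩)

theorem ex_appN {Γ : List Srt} {k : ℕ} (v : Var Γ (rel k))
    {x : ∀ N : Mod, Env N.M.Dom Γ → Fin (k + 1) → N.V}
    (hx : ∀ i, IsO (fun N e => x N e i)) : Expr (fun N e => N.M.App (e _ v) (x N e)) := by
  choose w hw using hx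
  refine ⟨Fm.app v (fun i => Tm.var (w i)), fun N e => ?_⟩
  rw [sat_app]
  have : x N e = fun i => e _ (w i) := funext fun i => hw i N e
  change _ ↔ N.M.App (e _ v) (x N e)
  rw [this]
  rfl

theorem ex_inDom (k : ℕ) : Expr (Γ := [rel k]) (fun N e => InDom N (e _ Var.here)) := by
  refine Expr.congr (U := fun N e => ∃ P : Set N.V, IS P ∧ (JJ P ∧
    ∀ a, ∀ b, (¬ a ∈ P → ¬ b ∈ P → ∀ x : Fin (k + 1) → N.V, ∀ y : Fin (k + 1) → N.V,
      ((∀ i, SwR a b (x i) (y i)) → (N.M.App (e _ Var.here) y ↔ N.M.App (e _ Var.here) x)))))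
    ?_ (fun N e => ?_)
  · refine Expr.exS ?_
    refine Expr.and (ex_JJ ⟨_, fun _ _ => rfl⟩) ?_
    refine Expr.allO (Expr.allO ?_)
    refine Expr.imp (Expr.not (Expr.memA ⟨_, fun _ _ => rfl⟩ ⟨_, fun _ _ => rfl⟩)) ?_
    refine Expr.imp (Expr.not (Expr.memA ⟨_, fun _ _ => rfl⟩ ⟨_, fun _ _ => rfl⟩)) ?_
    refine Expr.allN (k + 1) (Expr.allN (k + 1) ?_)
    refine Expr.imp (Expr.andN fun i => ex_swR ⟨_, fun _ _ => rfl⟩ ⟨_, fun _ _ => rfl⟩
      ⟨_, fun _ _ => rfl⟩ ⟨_, fun _ _ => rfl⟩) ?_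
    refine Expr.iff ?_ ?_
    · exact ex_appN _ (fun i => ⟨_, fun _ _ => rfl⟩)
    · exact ex_appN _ (fun i => ⟨_, fun _ _ => rfl⟩)
  · constructor
    · rintro ⟨P, _, h1, h2⟩
      refine ⟨P, h1, fun a b ha hb x => ?_⟩
      exact h2 a b ha hb x (fun i => sw a b (x i)) (fun i => (swR_iff _ _ _ _).2 rfl)
    · rintro ⟨P, h1, h2⟩
      refine ⟨P, h1.is, h1, fun a b ha hb x y hxy => ?_⟩
      have : y = fun i => sw a b (x i) := funext fun i => (swR_iff _ _ _ _).1 (hxy i)
      rw [this]
      exact h2 a b ha hb x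

theorem ex_numF : Expr (Γ := [obj, rel 0])
    (fun N e => CR (ext1 N.M (e _ (Var.there Var.here))) (e _ Var.here)) :=
  ex_CR ⟨_, fun _ _ => rfl⟩ ⟨_, fun _ _ => rfl⟩

theorem ex_colF : Expr (Γ := [obj, obj, rel 1])
    (fun N e => CR (sl (ext2 N.M (e _ (Var.there (Var.there Var.here))))
      (e _ (Var.there Var.here))) (e _ Var.here)) := by
  refine Expr.congr (U := fun N e => ∃ X : Set N.V, IS X ∧
    ((∀ x, (x ∈ X ↔ (ext2 N.M (e _ (Var.there (Var.there Var.here)))) (e _ (Var.there Var.here)) x))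
      ∧ CR X (e _ Var.here))) ?_ (fun N e => ?_)
  ·
    repeat' first
      | assumption
      | with_reducible apply ex_CR
      | with_reducible apply Expr.allS | with_reducible apply Expr.exS
      | with_reducible apply Expr.allR | with_reducible apply Expr.exR
      | with_reducible apply Expr.and | with_reducible apply Expr.or | with_reducible apply Expr.not
      | with_reducible apply Expr.imp | with_reducible apply Expr.iff
      | with_reducible apply Expr.exO | with_reducible apply Expr.allO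
      | with_reducible apply Expr.cardA | with_reducible apply Expr.eqA
      | with_reducible apply Expr.memA
      | with_reducible apply Expr.relA
      | (show IsO _; exact ⟨_, fun _ _ => rfl⟩)
      | (show IsSt _; exact ⟨_, fun _ _ => rfl⟩)
      | (show IsRl _; exact ⟨_, fun _ _ => rfl⟩)
  · constructor
    · rintro ⟨X, _, h1, h2⟩
      have : X = sl (ext2 N.M (e _ (Var.there (Var.there Var.here))))
        (e _ (Var.there Var.here)) := by ext x; exact h1 x
      rwa [this] at h2
    · intro h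
      exact ⟨_, (IR.ext N.h.compr _).slice _, fun x => Iff.rfl, h⟩

/-- the interpretation -/
noncomputable def tau : Interp where
  dom := fun k => (ex_inDom k).choose
  num := ex_numF.choose
  col := ex_colF.choose

theorem tau_dom (N : Mod) {k : ℕ} (R : N.M.Dom (rel k)) :
    (tau.dom k).Sat N.M (Env.cons R Env.nil) ↔ InDom N R :=
  (ex_inDom k).choose_spec N _

theorem tau_num (N : Mod) (X : N.M.Dom (rel 0)) (m : N.V) :
    tau.num.Sat N.M (Env.cons m (Env.cons X Env.nil)) ↔ CR (ext1 N.M X) m :=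
  ex_numF.choose_spec N _

theorem tau_col (N : Mod) (R : N.M.Dom (rel 1)) (n m : N.V) :
    tau.col.Sat N.M (Env.cons m (Env.cons n (Env.cons R Env.nil))) ↔
      CR (sl (ext2 N.M R) n) m :=
  ex_colF.choose_spec N _

theorem InvN.inv1 {N : Mod} {P : Set N.V} {X : N.M.Dom (rel 0)} (h : InvN P (N.M.App X)) :
    Inv1 P (ext1 N.M X) := fun a b ha hb x => h a b ha hb (fun _ => x)

theorem InvN.inv2 {N : Mod} {P : Set N.V} {X : N.M.Dom (rel 1)} (h : InvN P (N.M.App X)) :
    Inv2 P (ext2 N.M X) := by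
  intro a b ha hb x y
  have := h a b ha hb ![x, y]
  have h2 : (fun i => sw a b ((![x, y] : Fin 2 → N.V) i)) = ![sw a b x, sw a b y] := by
    funext i
    fin_cases i <;> rfl
  rw [h2] at this
  exact this

theorem inv2_invN {N : Mod} {P : Set N.V} {X : N.M.Dom (rel 1)} (h : Inv2 P (ext2 N.M X)) :
    InvN P (N.M.App X) := by
  intro a b ha hb x
  have h1 : x = ![x 0, x 1] := by
    funext i
    fin_cases i <;> rfl
  have h2 : (fun i => sw a b (x i)) = ![sw a b (x 0), sw a b (x 1)] := by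
    funext i
    fin_cases i <;> rfl
  rw [h2, h1]
  exact h a b ha hb (x 0) (x 1)

theorem tau_good (N : Mod) : Interp.Good tau N.M where
  dom_ne := by
    intro k
    obtain ⟨R, hR⟩ := DM.realize N.h.compr (p := fun _ => False)
      (D.const (V := N.V) False) k (fun _ => 0)
    refine ⟨R, ?_⟩
    rw [tau_dom]
    exact ⟨∅, JJ.empty, fun a b _ _ x => by rw [hR, hR]⟩
  num_fun := by
    intro X hX
    rw [tau_dom] at hX
    obtain ⟨P, hP, hinv⟩ := hX
    simp only [tau_num]
    exact CR.exists_unique (IS.ext N.h.compr X) hP hinv.inv1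
  col_fun := by
    intro R hR n
    rw [tau_dom] at hR
    obtain ⟨P, hP, hinv⟩ := hR
    simp only [tau_col]
    have h2 : Inv2 (P ∪ {n}) (ext2 N.M R) := hinv.inv2.mono subset_union_left
    exact CR.exists_unique ((IR.ext N.h.compr R).slice n) (hP.union (JJ.singleton n))
      (h2.slice (Or.inr rfl))

/-- the new structure -/
noncomputable def NN (N : Mod) : Str true := Interp.str (tau_good N)

theorem NN_num (N : Mod) (X : (NN N).Dom (rel 0)) (m : N.V) :
    m = (NN N).num X ↔ CR (ext1 N.M X.1) m :=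
  (Interp.str_num (tau_good N) X m).trans (tau_num N X.1 m)

theorem NN_col (N : Mod) (R : (NN N).Dom (rel 1)) (n m : N.V) :
    m = (NN N).col rfl R n ↔ CR (sl (ext2 N.M R.1) n) m :=
  (Interp.str_col (tau_good N) rfl R n m).trans (tau_col N R.1 n m)

theorem NN_hume (N : Mod) : (humeAx true).Sat (NN N) Env.nil := by
  rw [sat_hume]
  intro X Y
  obtain ⟨P, hP, hPX⟩ := (tau_dom N X.1).1 X.2
  obtain ⟨Q, hQ, hQY⟩ := (tau_dom N Y.1).1 Y.2
  have h := CR.hume (IS.ext N.h.compr X.1) (IS.ext N.h.compr Y.1) hP hPX.inv1 hQ hQY.inv1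
    ((NN_num N X _).1 rfl) ((NN_num N Y _).1 rfl)
  refine h.trans ?_
  constructor
  · rintro ⟨F, hF, ⟨P', hP', hinv⟩, hb⟩
    obtain ⟨R, rfl⟩ := IR.exists_ext N.h.compr hF
    exact ⟨⟨R, (tau_dom N R).2 ⟨P', hP', inv2_invN hinv⟩⟩, hb⟩
  · rintro ⟨F, hb⟩
    obtain ⟨P', hP', hinv⟩ := (tau_dom N F.1).1 F.2
    exact ⟨ext2 N.M F.1, IR.ext N.h.compr F.1, ⟨P', hP', hinv.inv2⟩, hb⟩

theorem NN_colAx (N : Mod) : (colAx (plus := true) rfl).Sat (NN N) Env.nil := by
  rw [sat_col]
  intro R n X hX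
  refine (NN_num N X _).2 ?_
  have h := (NN_col N R n _).1 rfl
  have h2 : sl (ext2 N.M R.1) n = ext1 N.M X.1 := by
    ext x
    exact (hX x).symm
  rwa [h2] at h

end HumeCol
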