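import Mathlib

/-!
# Internal predicates

`Intl V` is a class of predicates on `V`-valued assignments closed under first order definability.
-/

namespace HumeCol

/-- value of a variable or constant -/
def tv {V : Type} (t : ℕ ⊕ V) (e : ℕ → V) : V := Sum.elim e id t

/-- extension of an assignment -/
def scons {V : Type} (a : V) (e : ℕ → V) : ℕ → V := fun n => Nat.casesOn n a (fun m => e m)

/-- a class of predicates closed under first order definability with parameters -/
class Intl (V : Type) where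
  /-- the internal predicates -/
  D : ((ℕ → V) → Prop) → Prop
  d_and : ∀ {p q : (ℕ → V) → Prop}, D p → D q → D (fun e => p e ∧ q e)
  d_not : ∀ {p : (ℕ → V) → Prop}, D p → D (fun e => ¬ p e)
  d_ex : ∀ {p : (ℕ → V) → Prop}, D p → D (fun e => ∃ a, p (scons a e))
  d_eq : ∀ s t : ℕ ⊕ V, D (fun e => tv s e = tv t e)
  d_sub : ∀ {p : (ℕ → V) → Prop}, D p → ∀ t : ℕ → ℕ ⊕ V, D (fun e => p (fun n => tv (t n) e))
  inh : Nonempty V

section

variable {V : Type} [Intl V]

/-- internal predicates -/
def D (p : (ℕ → V) → Prop) : Prop := Intl.D p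

/-- coordinates and constants -/
def IsT (f : (ℕ → V) → V) : Prop := ∃ t : ℕ ⊕ V, ∀ e, f e = tv t e

omit [Intl V] in
theorem IsT.get (n : ℕ) : IsT (fun e : ℕ → V => e n) := ⟨Sum.inl n, fun _ => rfl⟩

omit [Intl V] in
theorem IsT.const (a : V) : IsT (fun _ : ℕ → V => a) := ⟨Sum.inr a, fun _ => rfl⟩

omit [Intl V] in
theorem IsT.tail {f : (ℕ → V) → V} (h : IsT f) : IsT (fun e => f (fun n => e (n + 1))) := by
  obtain ⟨t, ht⟩ := h
  cases t with
  | inl n => exact ⟨Sum.inl (n + 1), fun e => ht _⟩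
  | inr a => exact ⟨Sum.inr a, fun e => ht _⟩

theorem D.and {p q : (ℕ → V) → Prop} (hp : D p) (hq : D q) : D (fun e => p e ∧ q e) :=
  Intl.d_and hp hq

theorem D.not {p : (ℕ → V) → Prop} (hp : D p) : D (fun e => ¬ p e) := Intl.d_not hp

theorem D.congr {p q : (ℕ → V) → Prop} (hp : D p) (h : ∀ e, p e ↔ q e) : D q := by
  have : p = q := funext fun e => propext (h e)
  rwa [← this]

theorem D.or {p q : (ℕ → V) → Prop} (hp : D p) (hq : D q) : D (fun e => p e ∨ q e) :=
  (hp.not.and hq.not).not.congr fun e => by tauto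

theorem D.imp {p q : (ℕ → V) → Prop} (hp : D p) (hq : D q) : D (fun e => p e → q e) :=
  (hp.and hq.not).not.congr fun e => by tauto

theorem D.iff {p q : (ℕ → V) → Prop} (hp : D p) (hq : D q) : D (fun e => p e ↔ q e) :=
  ((hp.imp hq).and (hq.imp hp)).congr fun e => by tauto

theorem D.ex {P : (ℕ → V) → V → Prop} (h : D (fun e => P (fun n => e (n + 1)) (e 0))) :
    D (fun e => ∃ a, P e a) := Intl.d_ex h

theorem D.all {P : (ℕ → V) → V → Prop} (h : D (fun e => P (fun n => e (n + 1)) (e 0))) :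
    D (fun e => ∀ a, P e a) :=
  (D.ex (P := fun e a => ¬ P e a) h.not).not.congr fun e => by push Not; rfl

theorem D.eq {f g : (ℕ → V) → V} (hf : IsT f) (hg : IsT g) : D (fun e => f e = g e) := by
  obtain ⟨s, hs⟩ := hf
  obtain ⟨t, ht⟩ := hg
  simp only [hs, ht]
  exact Intl.d_eq s t

theorem D.tt : D (fun _ : ℕ → V => True) := by
  obtain ⟨a⟩ := (Intl.inh : Nonempty V)
  exact (D.eq (IsT.const a) (IsT.const a)).congr fun e => by simp

theorem D.const (q : Prop) : D (fun _ : ℕ → V => q) := by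
  by_cases hq : q
  · exact D.tt.congr fun e => by simp [hq]
  · exact D.tt.not.congr fun e => by simp [hq]

theorem D.sub {p : (ℕ → V) → Prop} (h : D p) {σ : ℕ → (ℕ → V) → V} (hσ : ∀ n, IsT (σ n)) :
    D (fun e => p (fun n => σ n e)) := by
  choose t ht using hσ
  simp only [ht]
  exact Intl.d_sub h t

/-- internal sets -/
def IS (X : Set V) : Prop := D (fun e : ℕ → V => e 0 ∈ X)

/-- internal binary relations -/
def IR (F : V → V → Prop) : Prop := D (fun e : ℕ → V => F (e 0) (e 1))

theorem D.mem {X : Set V} (hX : IS X) {f : (ℕ → V) → V} (hf : IsT f) : D (fun e => f e ∈ X) :=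
  D.sub hX (σ := fun _ => f) (fun _ => hf)

theorem D.rel {F : V → V → Prop} (hF : IR F) {f g : (ℕ → V) → V} (hf : IsT f) (hg : IsT g) :
    D (fun e => F (f e) (g e)) :=
  (D.sub hF (σ := fun n => if n = 0 then f else g) (fun n => by
    by_cases h : n = 0 <;> simp [h, hf, hg])).congr fun e => by simp

/-- `f` restricted to `X` is an internal function -/
def IFun (X : Set V) (f : V → V) : Prop := D (fun e : ℕ → V => e 0 ∈ X ∧ e 1 = f (e 0))

theorem D.fn {X : Set V} {f : V → V} (h : IFun X f) {s t : (ℕ → V) → V} (hs : IsT s)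
    (ht : IsT t) : D (fun e => s e ∈ X ∧ t e = f (s e)) :=
  D.rel (F := fun x y => x ∈ X ∧ y = f x) h hs ht

end

end HumeCol
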