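import Pool.Agent.HumeCol.Dbl
import Pool.Agent.HumeCol.Bij

/-!
# Hume's principle for the new cardinality operation
-/

set_option linter.unreachableTactic false
set_option linter.unusedTactic false

namespace HumeCol

open Set HumeP

section Swap

variable {V : Type}

open Classical in
/-- the transposition of `a` and `b` -/
noncomputable def sw (a b x : V) : V := Equiv.swap a b x

theorem sw_sw (a b x : V) : sw a b (sw a b x) = x := by
  classical
  exact Equiv.swap_apply_self a b x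

theorem sw_of_ne {a b x : V} (h1 : x ≠ a) (h2 : x ≠ b) : sw a b x = x := by
  classical
  exact Equiv.swap_apply_of_ne_of_ne h1 h2

theorem sw_left (a b : V) : sw a b a = b := by
  classical
  exact Equiv.swap_apply_left a b

theorem sw_right (a b : V) : sw a b b = a := by
  classical
  exact Equiv.swap_apply_right a b

theorem sw_inj {a b x y : V} (h : sw a b x = sw a b y) : x = y := by
  rw [← sw_sw a b x, h, sw_sw]

theorem sw_fix {P : Set V} {a b x : V} (ha : a ∉ P) (hb : b ∉ P) (hx : x ∈ P) :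
    sw a b x = x := sw_of_ne (fun h => ha (h ▸ hx)) (fun h => hb (h ▸ hx))

theorem sw_mem {P : Set V} {a b x : V} (ha : a ∉ P) (hb : b ∉ P) : sw a b x ∈ P ↔ x ∈ P := by
  constructor
  · intro h
    have := sw_fix ha hb h
    rw [sw_sw] at this
    rwa [← this] at h
  · intro h
    rwa [sw_fix ha hb h]

/-- invariance of sets -/
def Inv1 (P X : Set V) : Prop := ∀ a b, a ∉ P → b ∉ P → ∀ x, sw a b x ∈ X ↔ x ∈ X

/-- invariance of binary relations -/
def Inv2 (P : Set V) (F : V → V → Prop) : Prop :=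
  ∀ a b, a ∉ P → b ∉ P → ∀ x y, F (sw a b x) (sw a b y) ↔ F x y

theorem Inv2.mono {P Q : Set V} {F : V → V → Prop} (h : Inv2 P F) (hPQ : P ⊆ Q) : Inv2 Q F :=
  fun a b ha hb => h a b (fun h => ha (hPQ h)) (fun h => hb (hPQ h))

theorem Inv1.mono {P Q : Set V} {X : Set V} (h : Inv1 P X) (hPQ : P ⊆ Q) : Inv1 Q X :=
  fun a b ha hb => h a b (fun h => ha (hPQ h)) (fun h => hb (hPQ h))

end Swap

variable {V : Type} [HumeP V]

theorem NS.of_inv {P X : Set V} (hX : IS X) (hP : J P) (h : Inv1 P X) : NS X := by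
  by_cases h1 : X ⊆ P
  · exact Or.inl (hP.subset hX h1)
  · obtain ⟨a, haX, haP⟩ := Set.not_subset.1 h1
    refine Or.inr ⟨hX, hP.subset hX.compl ?_⟩
    intro b hb
    by_contra hbP
    have := (h a b haP hbP a).2 haX
    rw [sw_left] at this
    exact hb this

theorem NS.inv {X : Set V} (h : NS X) : ∃ P, J P ∧ Inv1 P X := by
  rcases h with h | ⟨_, h⟩
  · exact ⟨X, h, fun a b ha hb x => sw_mem ha hb⟩
  · refine ⟨Xᶜ, h, fun a b ha hb x => ?_⟩
    have := sw_mem (x := x) ha hb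
    constructor
    · intro h1; by_contra h2; exact this.2 h2 h1
    · intro h1; by_contra h2; exact this.1 h2 h1

theorem Eqp.diff_of_emb {Z W : Set V} (hZ : IS Z) (hd : DF Z) (h : Eqp Z W)
    (h2 : Emb (Z \ W) (W \ Z)) : Eqp (Z \ W) (W \ Z) := by
  classical
  obtain ⟨g, hg, hgm, hgi⟩ := h2
  have hI := IFun.ite hg (IFun.id hZ)
  have hZu : Z \ W ∪ Z = Z := Set.union_eq_self_of_subset_left Set.sdiff_subset
  rw [hZu] at hI
  set G : V → V := fun x => if x ∈ Z \ W then g x else x with hG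
  have v1 : ∀ x ∈ Z \ W, G x = g x := fun x hx => by simp only [hG, hx, if_true]
  have v2 : ∀ x, x ∉ Z \ W → G x = x := fun x hx => by simp only [hG, hx, if_false]
  have hGm : MapsTo G Z W := by
    intro x hx
    by_cases h3 : x ∈ Z \ W
    · rw [v1 x h3]; exact (hgm h3).1
    · rw [v2 x h3]; by_contra h4; exact h3 ⟨hx, h4⟩
  have hGi : InjOn G Z := by
    intro x hx y hy hxy
    by_cases h3 : x ∈ Z \ W
    · by_cases h4 : y ∈ Z \ W
      · rw [v1 x h3, v1 y h4] at hxy; exact hgi h3 h4 hxy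
      · rw [v1 x h3, v2 y h4] at hxy
        exact absurd hy (hxy ▸ (hgm h3).2)
    · by_cases h4 : y ∈ Z \ W
      · rw [v2 x h3, v1 y h4] at hxy
        exact absurd hx (hxy ▸ (hgm h4).2)
      · rw [v2 x h3, v2 y h4] at hxy; exact hxy
  have hI' : IFun Z G := hI.congr (fun x _ => by by_cases h : x ∈ Z \ W <;> simp only [hG, h,
    if_true, if_false])
  have hs := hd.surj h.symm.emb hI' hGm hGi
  refine Eqp.of_surj hg hgm hgi ?_
  intro w hw
  obtain ⟨x, hx, hxw⟩ := hs hw.1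
  by_cases h3 : x ∈ Z \ W
  · rw [v1 x h3] at hxw; exact ⟨x, h3, hxw⟩
  · rw [v2 x h3] at hxw
    exact absurd (hxw ▸ hx) hw.2

theorem Eqp.diff {Z W : Set V} (hZ : J Z) (hW : J W) (hdZ : DF Z) (hdW : DF W)
    (h : Eqp Z W) : Eqp (Z \ W) (W \ Z) := by
  have h1 : J (Z \ W) := hZ.subset (hZ.1.diff hW.1) Set.sdiff_subset
  have h2 : J (W \ Z) := hW.subset (hW.1.diff hZ.1) Set.sdiff_subset
  rcases CompS.of_J h1 h2 with h3 | h3
  · exact h.diff_of_emb hZ.1 hdZ h3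
  · exact (h.symm.diff_of_emb hW.1 hdW h3).symm

theorem J.df {Z : Set V} (h : J Z) : DF Z := by
  obtain ⟨_, _, j, hj, _, _, hdf⟩ := h.phi
  exact hdf.subset (hj.dom.union hj.image) h.1 subset_union_left

theorem Eqp.of_compl_emb {P Z W : Set V} (hd : DF P) (hZP : Z ⊆ P) (hWP : W ⊆ P)
    (h1 : Eqp (P \ Z) (P \ W)) (h2 : Emb Z W) : Eqp Z W := by
  classical
  obtain ⟨g, hg, hg2⟩ := h1
  obtain ⟨f, hf, hfm, hfi⟩ := h2
  have hI := IFun.ite hf hg
  have hu : Z ∪ P \ Z = P := Set.union_sdiff_cancel hZP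
  rw [hu] at hI
  set h : V → V := fun x => if x ∈ Z then f x else g x with hh
  have v1 : ∀ x ∈ Z, h x = f x := fun x hx => by simp only [hh, hx, if_true]
  have v2 : ∀ x, x ∉ Z → h x = g x := fun x hx => by simp only [hh, hx, if_false]
  have hm : MapsTo h P P := by
    intro x hx
    by_cases hz : x ∈ Z
    · rw [v1 x hz]; exact hWP (hfm hz)
    · rw [v2 x hz]; exact (hg2.mapsTo ⟨hx, hz⟩).1
  have hi : InjOn h P := by
    intro x hx y hy hxy
    by_cases hz : x ∈ Z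
    · by_cases hz' : y ∈ Z
      · rw [v1 x hz, v1 y hz'] at hxy; exact hfi hz hz' hxy
      · rw [v1 x hz, v2 y hz'] at hxy
        exact absurd (hxy ▸ hfm hz) (hg2.mapsTo ⟨hy, hz'⟩).2
    · by_cases hz' : y ∈ Z
      · rw [v2 x hz, v1 y hz'] at hxy
        exact absurd (hxy ▸ hfm hz') (hg2.mapsTo ⟨hx, hz⟩).2
      · rw [v2 x hz, v2 y hz'] at hxy
        exact hg2.injOn ⟨hx, hz⟩ ⟨hy, hz'⟩ hxy
  have hs := hd h hI hm hi
  refine Eqp.of_surj hf hfm hfi ?_
  intro w hw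
  obtain ⟨x, hx, hxw⟩ := hs (hWP hw)
  by_cases hz : x ∈ Z
  · rw [v1 x hz] at hxw; exact ⟨x, hz, hxw⟩
  · rw [v2 x hz] at hxw
    exact absurd (hxw ▸ hw) (hg2.mapsTo ⟨hx, hz⟩).2

/-- equinumerosity in the new structure, small sets -/
theorem bij_small {X Y : Set V} (hX : J X) (hY : J Y) :
    Eqp X Y ↔ ∃ F : V → V → Prop, IR F ∧ (∃ P, J P ∧ Inv2 P F) ∧
      IsBij F (fun x => x ∈ X) (fun x => x ∈ Y) := by
  constructor
  · rintro ⟨f, hf, hb⟩
    refine ⟨fun x y => x ∈ X ∧ y = f x, hf, ⟨X ∪ Y, hX.union hY, ?_⟩, ?_, ?_, ?_⟩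
    · intro a b ha hb' x y
      have ha1 : a ∉ X := fun h => ha (Or.inl h)
      have hb1 : b ∉ X := fun h => hb' (Or.inl h)
      have ha2 : a ∉ Y := fun h => ha (Or.inr h)
      have hb2 : b ∉ Y := fun h => hb' (Or.inr h)
      show sw a b x ∈ X ∧ sw a b y = f (sw a b x) ↔ x ∈ X ∧ y = f x
      rw [sw_mem ha1 hb1]
      constructor
      · rintro ⟨hx, h2⟩
        refine ⟨hx, ?_⟩
        rw [sw_fix ha1 hb1 hx] at h2
        rw [← sw_sw a b y, h2, sw_fix ha2 hb2 (hb.mapsTo hx)]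
      · rintro ⟨hx, rfl⟩
        refine ⟨hx, ?_⟩
        rw [sw_fix ha1 hb1 hx, sw_fix ha2 hb2 (hb.mapsTo hx)]
    · intro x hx
      exact ⟨f x, hb.mapsTo hx, hx, rfl⟩
    · intro y hy
      obtain ⟨x, hx, rfl⟩ := hb.surjOn hy
      exact ⟨x, hx, hx, rfl⟩
    · rintro x hx x' hx' y _ y' _ ⟨⟨_, rfl⟩, ⟨_, rfl⟩⟩
      exact ⟨fun h => by rw [h], fun h => hb.injOn hx hx' h⟩
  · rintro ⟨F, hF, _, hb⟩
    obtain ⟨f, hf, hf2, _⟩ := isBij_fun hF hX.1 hY.1 hb
    exact ⟨f, hf, hf2⟩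

/-- equinumerosity in the new structure, co-small sets -/
theorem bij_cosmall (hV : ¬ GoodS (univ : Set V)) {X Y : Set V} (hXI : IS X) (hYI : IS Y)
    (hX : J Xᶜ) (hY : J Yᶜ) :
    Eqp Xᶜ Yᶜ ↔ ∃ F : V → V → Prop, IR F ∧ (∃ P, J P ∧ Inv2 P F) ∧
      IsBij F (fun x => x ∈ X) (fun x => x ∈ Y) := by
  constructor
  · intro h
    obtain ⟨g, hg, hg2⟩ := (Eqp.diff hX hY hX.df hY.df h).symm
    have hdX : Yᶜ \ Xᶜ ⊆ X := fun x hx => by
      by_contra h; exact hx.2 h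
    have hdY : Xᶜ \ Yᶜ ⊆ Y := fun x hx => by
      by_contra h; exact hx.2 h
    have hPI : IS (Xᶜ ∪ Yᶜ) := hX.1.union hY.1
    have hgI : IR (fun x y => x ∈ Yᶜ \ Xᶜ ∧ y = g x) := hg
    refine ⟨fun x y => (¬ x ∈ Xᶜ ∪ Yᶜ ∧ y = x) ∨ (x ∈ Yᶜ \ Xᶜ ∧ y = g x), ?_,
      ⟨Xᶜ ∪ Yᶜ, hX.union hY, ?_⟩, ?_, ?_, ?_⟩
    · show D (fun e => (¬ e 0 ∈ Xᶜ ∪ Yᶜ ∧ e 1 = e 0) ∨ (e 0 ∈ Yᶜ \ Xᶜ ∧ e 1 = g (e 0)))
      repeat' first
        | assumption
        | with_reducible apply IsT.get | with_reducible apply IsT.const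
        | refine D.fn (by assumption) ?_ ?_
        | with_reducible apply D.and | with_reducible apply D.or | with_reducible apply D.not
        | with_reducible apply D.imp | with_reducible apply D.iff
        | with_reducible apply D.ex | with_reducible apply D.all
        | with_reducible apply D.eq | with_reducible apply D.const
        | refine D.mem (by assumption) ?_
        | refine D.rel (by assumption) ?_ ?_
    · intro a b ha hb x y
      show (¬ sw a b x ∈ Xᶜ ∪ Yᶜ ∧ sw a b y = sw a b x) ∨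
        (sw a b x ∈ Yᶜ \ Xᶜ ∧ sw a b y = g (sw a b x)) ↔ _
      have ha1 : a ∉ Yᶜ \ Xᶜ := fun h => ha (Or.inr h.1)
      have hb1 : b ∉ Yᶜ \ Xᶜ := fun h => hb (Or.inr h.1)
      have ha2 : a ∉ Xᶜ \ Yᶜ := fun h => ha (Or.inl h.1)
      have hb2 : b ∉ Xᶜ \ Yᶜ := fun h => hb (Or.inl h.1)
      rw [sw_mem ha hb, sw_mem ha1 hb1]
      constructor
      · rintro (⟨h1, h2⟩ | ⟨h1, h2⟩)
        · exact Or.inl ⟨h1, sw_inj h2⟩
        · refine Or.inr ⟨h1, ?_⟩
          rw [sw_fix ha1 hb1 h1] at h2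
          rw [← sw_sw a b y, h2, sw_fix ha2 hb2 (hg2.mapsTo h1)]
      · rintro (⟨h1, rfl⟩ | ⟨h1, rfl⟩)
        · exact Or.inl ⟨h1, rfl⟩
        · exact Or.inr ⟨h1, by rw [sw_fix ha1 hb1 h1, sw_fix ha2 hb2 (hg2.mapsTo h1)]⟩
    · intro x hx
      by_cases hy : x ∈ Y
      · refine ⟨x, hy, Or.inl ⟨?_, rfl⟩⟩
        rintro (h | h)
        · exact h hx
        · exact h hy
      · have h1 : x ∈ Yᶜ \ Xᶜ := ⟨hy, fun h => h hx⟩
        exact ⟨g x, hdY (hg2.mapsTo h1), Or.inr ⟨h1, rfl⟩⟩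
    · intro y hy
      by_cases hx : y ∈ X
      · refine ⟨y, hx, Or.inl ⟨?_, rfl⟩⟩
        rintro (h | h)
        · exact h hx
        · exact h hy
      · have h1 : y ∈ Xᶜ \ Yᶜ := ⟨hx, fun h => h hy⟩
        obtain ⟨x, hx2, hxy⟩ := hg2.surjOn h1
        exact ⟨x, hdX hx2, Or.inr ⟨hx2, hxy.symm⟩⟩
    · rintro x hx x' hx' y hy y' hy' ⟨h1, h2⟩
      have hn : ∀ z ∈ Yᶜ \ Xᶜ, g z ∈ Xᶜ := fun z hz => (hg2.mapsTo hz).1
      rcases h1 with ⟨h1, rfl⟩ | ⟨h1, rfl⟩
      · rcases h2 with ⟨h2, rfl⟩ | ⟨h2, rfl⟩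
        · exact Iff.rfl
        · constructor
          · rintro rfl; exact absurd (Or.inr h2.1) h1
          · intro h; exact absurd hx (h ▸ hn _ h2)
      · rcases h2 with ⟨h2, rfl⟩ | ⟨h2, rfl⟩
        · constructor
          · rintro rfl; exact absurd (Or.inr h1.1) h2
          · intro h; exact absurd hx' (h ▸ hn _ h1)
        · exact ⟨fun h => by rw [h], fun h => hg2.injOn h1 h2 h⟩
  · rintro ⟨F, hF, ⟨P0, hP0, hinv0⟩, hb⟩
    obtain ⟨f, hf, hf2, hf3⟩ := isBij_fun hF hXI hYI hb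
    set P : Set V := P0 ∪ (Xᶜ ∪ Yᶜ) with hPdef
    have hP : J P := hP0.union (hX.union hY)
    have hinv : Inv2 P F := hinv0.mono subset_union_left
    have hXP : Xᶜ ⊆ P := fun x hx => Or.inr (Or.inl hx)
    have hYP : Yᶜ ⊆ P := fun x hx => Or.inr (Or.inr hx)
    have hXo : ∀ x, x ∉ P → x ∈ X := fun x hx => by by_contra h; exact hx (hXP h)
    have hYo : ∀ x, x ∉ P → x ∈ Y := fun x hx => by by_contra h; exact hx (hYP h)
    have hfix : ∀ x, x ∉ P → f x = x := by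
      intro x hx
      by_contra hne
      have hFx : F x (f x) := (hf3 x (hXo x hx) (f x) (hf2.mapsTo (hXo x hx))).2 rfl
      by_cases hfP : f x ∈ P
      · obtain ⟨x', hx'⟩ := (((hP.infinite hV).sdiff (Set.finite_singleton x))).nonempty
        have h1 := (hinv x x' hx hx'.1 x (f x)).2 hFx
        rw [sw_left, sw_fix hx hx'.1 hfP] at h1
        have h2 := (hf3 x' (hXo x' hx'.1) (f x) (hf2.mapsTo (hXo x hx))).1 h1
        exact hx'.2 (hf2.injOn (hXo x' hx'.1) (hXo x hx) h2.symm)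
      · obtain ⟨z, hz⟩ := (((hP.infinite hV).sdiff (Set.toFinite {x, f x}))).nonempty
        have hz1 : z ≠ x := fun h => hz.2 (Or.inl h)
        have hz2 : z ≠ f x := fun h => hz.2 (Or.inr h)
        have h1 := (hinv (f x) z hfP hz.1 x (f x)).2 hFx
        rw [sw_left, sw_of_ne (Ne.symm hne) hz1.symm] at h1
        have h2 := (hf3 x (hXo x hx) z (hYo z hz.1)).1 h1
        exact hz2 h2
    have hdiff : Eqp (P \ Xᶜ) (P \ Yᶜ) := by
      have hs : P \ Xᶜ ⊆ X := fun x hx => by by_contra h; exact hx.2 h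
      refine ⟨f, hf.restrict (hP.1.diff hX.1) hs, ?_, hf2.injOn.mono hs, ?_⟩
      · intro x hx
        refine ⟨?_, fun h => h (hf2.mapsTo (hs hx))⟩
        by_contra hfP
        have h1 := hfix _ hfP
        have h2 := hf2.injOn (hXo _ hfP) (hs hx) h1
        exact hfP (by rw [h2]; exact hx.1)
      · intro y hy
        have hyY : y ∈ Y := by by_contra h; exact hy.2 h
        obtain ⟨x, hx, hxy⟩ := hf2.surjOn hyY
        refine ⟨x, ⟨?_, fun h => h hx⟩, hxy⟩
        by_contra hxP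
        rw [hfix x hxP] at hxy
        exact hxP (hxy ▸ hy.1)
    rcases CompS.of_J hX hY with h | h
    · exact Eqp.of_compl_emb hP.df hXP hYP hdiff h
    · exact (Eqp.of_compl_emb hP.df hYP hXP hdiff.symm h).symm

theorem no_bij (hV : ¬ GoodS (univ : Set V)) {X Y : Set V} (hX : J X) (hY : J Yᶜ) :
    ¬ Eqp X Y := by
  rintro ⟨f, hf, hf2⟩
  have hF : IR (fun x y => x ∈ X ∧ y = f x) := hf
  have h1 := hX.img hF (fun x y y' h1 h2 => h1.2.trans h2.2.symm)
  have h2 : Img (fun x y => x ∈ X ∧ y = f x) X = Y := by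
    rw [← hf2.image_eq]
    ext y
    constructor
    · rintro ⟨x, hx, _, rfl⟩; exact ⟨x, hx, rfl⟩
    · rintro ⟨x, hx, rfl⟩; exact ⟨x, hx, hx, rfl⟩
  rw [h2] at h1
  exact h1.not_compl hV hY

/-- Hume's principle in the new structure -/
theorem cardRel_hume (hV : ¬ GoodS (univ : Set V)) {X Y : Set V} (hX : NS X) (hY : NS Y)
    {m m' : V} (hm : CardRel X m) (hm' : CardRel Y m') :
    m = m' ↔ ∃ F : V → V → Prop, IR F ∧ (∃ P, J P ∧ Inv2 P F) ∧
      IsBij F (fun x => x ∈ X) (fun x => x ∈ Y) := by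
  have hXI := hX.is
  have hYI := hY.is
  rcases hX with hX | ⟨_, hX⟩
  · rcases hY with hY | ⟨_, hY⟩
    · rw [cardRel_small hV hX hY hm hm', bij_small hX hY]
    · constructor
      · intro h; exact absurd h (cardRel_mixed hV hX hY hm hm')
      · rintro ⟨F, hF, _, hb⟩
        obtain ⟨f, hf, hf2, _⟩ := isBij_fun hF hXI hYI hb
        exact absurd ⟨f, hf, hf2⟩ (no_bij hV hX hY)
  · rcases hY with hY | ⟨_, hY⟩
    · constructor
      · intro h; exact absurd h.symm (cardRel_mixed hV hY hX hm' hm)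
      · rintro ⟨F, hF, _, hb⟩
        obtain ⟨f, hf, hf2, _⟩ := isBij_fun hF hXI hYI hb
        exact absurd (Eqp.symm ⟨f, hf, hf2⟩) (no_bij hV hY hX)
    · rw [cardRel_cosmall hV hX hY hm hm', bij_cosmall hV hXI hYI hX hY]

end HumeCol
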