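import Pool.Agent.HumeCol.Graph

/-!
# The internal predicates of a model of AHP₀
-/

namespace HumeCol

open Srt Set

/-- all relations given by an application of a relation of `M` to variables and constants -/
def DM (M : Str false) (p : (ℕ → M.Dom obj) → Prop) : Prop :=
  ∃ (k : ℕ) (R : M.Dom (rel k)) (f : Fin (k + 1) → ℕ ⊕ M.Dom obj),
    ∀ e, p e ↔ M.App R (fun i => tv (f i) e)

/-- semantic form of comprehension -/
def Compr (M : Str false) : Prop := ∀ (Γ : List Srt) (k : ℕ) (φ : Fm false (objs (k + 1) Γ)),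
  φ.Arith → ∀ e : Env M.Dom Γ, ∃ R : M.Dom (rel k), ∀ x, M.App R x ↔ φ.Sat M (e.push (k + 1) x)

theorem Models.compr {M : Str false} (h : Models M (AHP false)) : Compr M := by
  intro Γ k φ hφ
  exact (sat_compr M k φ).1 (h _ (AHP.compr k φ hφ))

section

variable {M : Str false} (h : Compr M)

include h

theorem DM.and {p q : (ℕ → M.Dom obj) → Prop} (hp : DM M p) (hq : DM M q) :
    DM M (fun e => p e ∧ q e) := by
  obtain ⟨k, R, f, hR⟩ := hp
  obtain ⟨l, S, g, hS⟩ := hq
  obtain ⟨T, hT⟩ := h [rel k, rel l] (k + 1 + l)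
    (Fm.and (Fm.app (wk (k + 1 + l + 1) _ Var.here)
        (fun i => Tm.var (ovar (k + 1 + l + 1) (Fin.castAdd (l + 1) i))))
      (Fm.app (wk (k + 1 + l + 1) _ (Var.there Var.here))
        (fun i => Tm.var (ovar (k + 1 + l + 1) (Fin.natAdd (k + 1) i))))) ⟨trivial, trivial⟩
    (Env.cons R (Env.cons S Env.nil))
  let F : Fin ((k + 1) + (l + 1)) → ℕ ⊕ M.Dom obj := Fin.append f g
  refine ⟨k + 1 + l, T, F, fun e => ?_⟩
  change p e ∧ q e ↔ _
  rw [hT, hR, hS]
  simp only [sat_and, sat_app, val_var, push_ovar, push_wk, cons_here, cons_there]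
  have h1 : (fun i => tv (F (Fin.castAdd (l + 1) i)) e) = fun i => tv (f i) e := by
    funext i; rw [show F (Fin.castAdd (l + 1) i) = f i from Fin.append_left f g i]
  have h2 : (fun i => tv (F (Fin.natAdd (k + 1) i)) e) = fun i => tv (g i) e := by
    funext i; rw [show F (Fin.natAdd (k + 1) i) = g i from Fin.append_right f g i]
  rw [← h1, ← h2]

theorem DM.not {p : (ℕ → M.Dom obj) → Prop} (hp : DM M p) : DM M (fun e => ¬ p e) := by
  obtain ⟨k, R, f, hR⟩ := hp
  obtain ⟨T, hT⟩ := h [rel k] k
    (Fm.neg (Fm.app (wk (k + 1) _ Var.here) (fun i => Tm.var (ovar (k + 1) i)))) trivial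
    (Env.cons R Env.nil)
  refine ⟨k, T, f, fun e => ?_⟩
  change ¬ p e ↔ _
  rw [hT, hR]
  simp only [sat_neg, sat_app, val_var, push_ovar, push_wk, cons_here]

theorem DM.ex {p : (ℕ → M.Dom obj) → Prop} (hp : DM M p) :
    DM M (fun e => ∃ a, p (scons a e)) := by
  obtain ⟨k, R, f, hR⟩ := hp
  obtain ⟨T, hT⟩ := h [rel k] k
    (Fm.ex obj (Fm.app (Var.there (wk (k + 1) _ Var.here))
      (fun i => match f i with
        | Sum.inl 0 => Tm.var Var.here
        | _ => Tm.var (Var.there (ovar (k + 1) i))))) trivial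
    (Env.cons R Env.nil)
  refine ⟨k, T, fun i => match f i with
    | Sum.inl 0 => Sum.inl 0
    | Sum.inl (n + 1) => Sum.inl n
    | Sum.inr c => Sum.inr c, fun e => ?_⟩
  rw [hT, sat_ex]
  refine exists_congr fun a => ?_
  rw [hR, sat_app]
  simp only [cons_there, push_wk, cons_here]
  have : (fun i => tv (f i) (scons a e)) = fun i =>
      Tm.val M (Env.cons a ((Env.cons R Env.nil : Env M.Dom [rel k]).push (k + 1) fun i =>
        tv (match f i with
          | Sum.inl 0 => Sum.inl 0
          | Sum.inl (n + 1) => Sum.inl n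
          | Sum.inr c => Sum.inr c) e))
        (match f i with
        | Sum.inl 0 => Tm.var Var.here
        | _ => Tm.var (Var.there (ovar (k + 1) i))) := by
    funext i
    rcases hf : f i with n | c
    · cases n with
      | zero => rfl
      | succ n =>
        simp only [val_var, cons_there, push_ovar, hf]
        rfl
    · simp only [val_var, cons_there, push_ovar, hf]
      rfl
  rw [this]

theorem DM.eq (s t : ℕ ⊕ M.Dom obj) : DM M (fun e => tv s e = tv t e) := by
  obtain ⟨T, hT⟩ := h [] 1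
    (Fm.eqO (Tm.var (ovar 2 0)) (Tm.var (ovar 2 1))) trivial Env.nil
  refine ⟨1, T, ![s, t], fun e => ?_⟩
  rw [hT]
  simp only [sat_eqO, val_var, push_ovar]
  rfl

omit h in
theorem DM.sub {p : (ℕ → M.Dom obj) → Prop} (hp : DM M p) (t : ℕ → ℕ ⊕ M.Dom obj) :
    DM M (fun e => p (fun n => tv (t n) e)) := by
  obtain ⟨k, R, f, hR⟩ := hp
  refine ⟨k, R, fun i => Sum.elim t Sum.inr (f i), fun e => ?_⟩
  change p (fun n => tv (t n) e) ↔ _
  rw [hR]
  have : (fun i => tv (f i) (fun n => tv (t n) e)) =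
      fun i => tv (Sum.elim t Sum.inr (f i)) e := by
    funext i
    rcases f i with n | c <;> rfl
  rw [this]

theorem DM.realize {p : (ℕ → M.Dom obj) → Prop} (hp : DM M p) (k : ℕ)
    (ρ : ℕ → Fin (k + 1)) :
    ∃ S : M.Dom (rel k), ∀ x, M.App S x ↔ p (fun n => x (ρ n)) := by
  classical
  obtain ⟨l, R, f, hR⟩ := hp
  obtain ⟨a0⟩ := M.ne obj
  obtain ⟨T, hT⟩ := h (rel l :: objs (l + 1) []) k
    (Fm.app (wk (k + 1) _ Var.here) (fun i => match f i with
      | Sum.inl n => Tm.var (ovar (k + 1) (ρ n))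
      | Sum.inr _ => Tm.var (wk (k + 1) _ (Var.there (ovar (l + 1) i))))) trivial
    (Env.cons R (Env.nil.push (l + 1) (fun i => match f i with
      | Sum.inl _ => a0
      | Sum.inr c => c)))
  refine ⟨T, fun x => ?_⟩
  rw [hT, sat_app, hR]
  simp only [push_wk, cons_here]
  have : (fun i => tv (f i) (fun n => x (ρ n))) = fun i =>
      Tm.val M ((Env.cons R (Env.nil.push (l + 1) (fun i => match f i with
          | Sum.inl _ => a0
          | Sum.inr c => c))).push (k + 1) x)
        (match f i with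
        | Sum.inl n => Tm.var (ovar (k + 1) (ρ n))
        | Sum.inr _ => Tm.var (wk (k + 1) _ (Var.there (ovar (l + 1) i)))) := by
    funext i
    rcases hf : f i with n | c
    · simp only [val_var, push_ovar]
      rfl
    · simp only [val_var, push_wk, cons_there, push_ovar, hf]
      rfl
  rw [this]

end

/-- the internal predicates of a model of comprehension -/
@[instance_reducible] def mkIntl (M : Str false) (h : Compr M) : Intl (M.Dom obj) where
  D := DM M
  d_and := DM.and h
  d_not := DM.not h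
  d_ex := DM.ex h
  d_eq := DM.eq h
  d_sub := DM.sub
  inh := M.ne obj

/-- extension of a set of the structure -/
def ext1 (M : Str false) (X : M.Dom (rel 0)) : Set (M.Dom obj) := {x | M.App X (fun _ => x)}

/-- extension of a binary relation of the structure -/
def ext2 (M : Str false) (F : M.Dom (rel 1)) : M.Dom obj → M.Dom obj → Prop :=
  fun x y => M.App F ![x, y]

section

variable {M : Str false} (h : Compr M)

theorem IS.ext (X : M.Dom (rel 0)) : @IS _ (mkIntl M h) (ext1 M X) :=
  ⟨0, X, fun _ => Sum.inl 0, fun _ => Iff.rfl⟩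

theorem IR.ext (F : M.Dom (rel 1)) : @IR _ (mkIntl M h) (ext2 M F) := by
  refine ⟨1, F, ![Sum.inl 0, Sum.inl 1], fun e => ?_⟩
  show M.App F ![e 0, e 1] ↔ _
  have : (![e 0, e 1] : Fin 2 → M.Dom obj) =
      fun i => tv (![Sum.inl 0, Sum.inl 1] i : ℕ ⊕ M.Dom obj) e := by
    funext i
    fin_cases i <;> rfl
  rw [this]

theorem IS.exists_ext {X : Set (M.Dom obj)} (hX : @IS _ (mkIntl M h) X) :
    ∃ R : M.Dom (rel 0), ext1 M R = X := by
  obtain ⟨S, hS⟩ := DM.realize h (p := fun e => e 0 ∈ X) hX 0 (fun _ => 0)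
  refine ⟨S, ?_⟩
  ext x
  exact hS (fun _ => x)

theorem IR.exists_ext {F : M.Dom obj → M.Dom obj → Prop} (hF : @IR _ (mkIntl M h) F) :
    ∃ R : M.Dom (rel 1), ext2 M R = F := by
  obtain ⟨S, hS⟩ := DM.realize h (p := fun e => F (e 0) (e 1)) hF 1
    (fun n => if n = 0 then 0 else 1)
  refine ⟨S, ?_⟩
  funext x y
  apply propext
  have := hS ![x, y]
  exact this

open Classical in
/-- the number of an internal set -/
noncomputable def mcard (M : Str false) (X : Set (M.Dom obj)) : M.Dom obj :=
  if h : ∃ R : M.Dom (rel 0), ext1 M R = X then M.num h.choose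
  else Classical.choice (M.ne obj)

theorem Models.hume {M : Str false} (h : Models M (AHP false)) (X Y : M.Dom (rel 0)) :
    M.num X = M.num Y ↔ ∃ F : M.Dom (rel 1),
      IsBij (ext2 M F) (fun x => x ∈ ext1 M X) (fun x => x ∈ ext1 M Y) :=
  (sat_hume M).1 (h _ AHP.hume) X Y

theorem num_eq_iff {M : Str false} (h : Models M (AHP false)) (X Y : M.Dom (rel 0)) :
    M.num X = M.num Y ↔ @Eqp _ (mkIntl M h.compr) (ext1 M X) (ext1 M Y) := by
  let _ := mkIntl M h.compr
  rw [h.hume, eqp_iff_bij (IS.ext h.compr X) (IS.ext h.compr Y)]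
  constructor
  · rintro ⟨F, hF⟩
    exact ⟨ext2 M F, IR.ext h.compr F, hF⟩
  · rintro ⟨F, hF, hb⟩
    obtain ⟨R, rfl⟩ := IR.exists_ext h.compr hF
    exact ⟨R, hb⟩

theorem mcard_ext {M : Str false} (h : Models M (AHP false)) (X : M.Dom (rel 0)) :
    mcard M (ext1 M X) = M.num X := by
  have hex : ∃ R : M.Dom (rel 0), ext1 M R = ext1 M X := ⟨X, rfl⟩
  rw [mcard, dif_pos hex, num_eq_iff h, hex.choose_spec]
  exact @Eqp.refl _ (mkIntl M h.compr) _ (IS.ext h.compr X)

/-- the class of internal predicates with the cardinality function -/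
@[instance_reducible] noncomputable def mkHume (M : Str false) (h : Models M (AHP false)) : HumeP (M.Dom obj) :=
  { mkIntl M h.compr with
    card := mcard M
    hp := by
      intro X Y hX hY
      obtain ⟨R, rfl⟩ := IS.exists_ext h.compr hX
      obtain ⟨S, rfl⟩ := IS.exists_ext h.compr hY
      rw [mcard_ext h, mcard_ext h]
      exact num_eq_iff h R S }

end

/-- models of AHP₀ -/
structure Mod where
  /-- the structure -/
  M : Str false
  h : Models M (AHP false)

/-- the objects -/
abbrev Mod.V (N : Mod) : Type := N.M.Dom obj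

noncomputable instance (N : Mod) : HumeP N.V := mkHume N.M N.h

end HumeCol
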