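import Pool.Agent.HumeCol.Card

/-!
# The ideal of small sets
-/

set_option linter.unreachableTactic false
set_option linter.unusedTactic false

namespace HumeCol

open Set

/-- the slice `{x | R n x}` -/
def sl {V : Type} (R : V → V → Prop) (n : V) : Set V := {x | R n x}

/-- the image of a set under a relation -/
def Img {V : Type} (F : V → V → Prop) (P : Set V) : Set V := {y | ∃ x, x ∈ P ∧ F x y}

/-- functional relations -/
def Fnl {V : Type} (F : V → V → Prop) : Prop := ∀ x y y', F x y → F x y' → y = y'

/-- a cardinality function with Hume's principle -/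
class HumeP (V : Type) extends Intl V where
  /-- the cardinality function -/
  card : Set V → V
  hp : ∀ X Y : Set V, IS X → IS Y → (card X = card Y ↔ Eqp X Y)

open HumeP

section

variable {V : Type} [HumeP V]

/-- column counting exists on `P` -/
def GoodS (P : Set V) : Prop := ∀ R : V → V → Prop, IR R → IFun P (fun n => card (sl R n))

/-- any two internal subsets are comparable -/
def CompS (Q : Set V) : Prop :=
  ∀ A B : Set V, IS A → IS B → A ⊆ Q → B ⊆ Q → Emb A B ∨ Emb B A

/-- there is a disjoint copy with Dedekind finite union -/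
def DisjS (Q : Set V) : Prop :=
  ∃ j : V → V, IFun Q j ∧ InjOn j Q ∧ (∀ x ∈ Q, j x ∉ Q) ∧ DF (Q ∪ j '' Q)

/-- the conjunction -/
def Phi (Q : Set V) : Prop := GoodS Q ∧ CompS Q ∧ DisjS Q

/-- the ideal -/
def J (P : Set V) : Prop :=
  IS P ∧ ∀ F : V → V → Prop, IR F → Fnl F → ∀ Q : Set V, Phi Q → Phi (Q ∪ Img F P)

theorem IS.img {F : V → V → Prop} {P : Set V} (hF : IR F) (hP : IS P) : IS (Img F P) := by
  show D (fun e => ∃ x, x ∈ P ∧ F x (e 0))
  repeat' first
    | assumption
    | with_reducible apply IsT.get | with_reducible apply IsT.const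
    | refine D.fn (by assumption) ?_ ?_
    | with_reducible apply D.and | with_reducible apply D.or | with_reducible apply D.not
    | with_reducible apply D.imp | with_reducible apply D.iff
    | with_reducible apply D.ex | with_reducible apply D.all
    | with_reducible apply D.eq | with_reducible apply D.const
    | refine D.mem (by assumption) ?_
    | refine D.rel (by assumption) ?_ ?_

theorem GoodS.is {P : Set V} (h : GoodS P) : IS P :=
  (h (fun _ _ => True) (D.const _)).dom

theorem Phi.is {P : Set V} (h : Phi P) : IS P := h.1.is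

theorem GoodS.empty : GoodS (∅ : Set V) := by
  intro R hR
  refine D.congr (D.const False) (fun e => by simp)

theorem GoodS.singleton (a : V) : GoodS ({a} : Set V) := by
  intro R hR
  refine D.congr (p := fun e => e 0 = a ∧ e 1 = card (sl R a)) ?_ (fun e => ?_)
  ·
    repeat' first
      | assumption
      | with_reducible apply IsT.get | with_reducible apply IsT.const
      | refine D.fn (by assumption) ?_ ?_
      | with_reducible apply D.and | with_reducible apply D.or | with_reducible apply D.not
      | with_reducible apply D.imp | with_reducible apply D.iff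
      | with_reducible apply D.ex | with_reducible apply D.all
      | with_reducible apply D.eq | with_reducible apply D.const
      | refine D.mem (by assumption) ?_
      | refine D.rel (by assumption) ?_ ?_
  · simp only [mem_singleton_iff]
    constructor
    · rintro ⟨h1, h2⟩; exact ⟨h1, by rw [h1]; exact h2⟩
    · rintro ⟨h1, h2⟩; exact ⟨h1, by rw [h1] at h2; exact h2⟩

theorem GoodS.union {P Q : Set V} (hP : GoodS P) (hQ : GoodS Q) : GoodS (P ∪ Q) := by
  intro R hR
  have h1 := hP R hR
  have h2 := hQ R hR
  refine D.congr (p := fun e => (e 0 ∈ P ∧ e 1 = card (sl R (e 0))) ∨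
    (e 0 ∈ Q ∧ e 1 = card (sl R (e 0)))) ?_ (fun e => ?_)
  · exact D.or h1 h2
  · simp only [mem_union]; tauto

theorem GoodS.subset {P Q : Set V} (hP : GoodS P) (hQ : IS Q) (h : Q ⊆ P) : GoodS Q :=
  fun R hR => (hP R hR).restrict hQ h

theorem GoodS.image {P : Set V} (hP : GoodS P) {F : V → V → Prop} (hF : IR F) (hFn : Fnl F) :
    GoodS (Img F P) := by
  intro R hR
  set R' : V → V → Prop := fun x y => ∃ g, F x g ∧ R g y with hR'
  have hR'I : IR R' := by
    show D (fun e => ∃ g, F (e 0) g ∧ R g (e 1))
    repeat' first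
      | assumption
      | with_reducible apply IsT.get | with_reducible apply IsT.const
      | refine D.fn (by assumption) ?_ ?_
      | with_reducible apply D.and | with_reducible apply D.or | with_reducible apply D.not
      | with_reducible apply D.imp | with_reducible apply D.iff
      | with_reducible apply D.ex | with_reducible apply D.all
      | with_reducible apply D.eq | with_reducible apply D.const
      | refine D.mem (by assumption) ?_
      | refine D.rel (by assumption) ?_ ?_
  have h1 := hP R' hR'I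
  refine D.congr (p := fun e => ∃ x, F x (e 0) ∧ (x ∈ P ∧ e 1 = card (sl R' x))) ?_ (fun e => ?_)
  · have h1' : IR (fun x y => x ∈ P ∧ y = card (sl R' x)) := h1
    refine D.ex (D.and ?_ (D.rel h1' ?_ ?_))
    ·
      repeat' first
        | assumption
        | with_reducible apply IsT.get | with_reducible apply IsT.const
        | refine D.fn (by assumption) ?_ ?_
        | with_reducible apply D.and | with_reducible apply D.or | with_reducible apply D.not
        | with_reducible apply D.imp | with_reducible apply D.iff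
        | with_reducible apply D.ex | with_reducible apply D.all
        | with_reducible apply D.eq | with_reducible apply D.const
        | refine D.mem (by assumption) ?_
        | refine D.rel (by assumption) ?_ ?_
    · exact IsT.get _
    · exact IsT.get _
  · have key : ∀ x, F x (e 0) → sl R' x = sl R (e 0) := by
      intro x hx
      ext y
      show (∃ g, F x g ∧ R g y) ↔ R (e 0) y
      constructor
      · rintro ⟨g, hg, hy⟩
        rwa [hFn x g (e 0) hg hx] at hy
      · intro hy; exact ⟨_, hx, hy⟩
    constructor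
    · rintro ⟨x, h2, h3, h4⟩
      exact ⟨⟨x, h3, h2⟩, by rw [h4, key x h2]⟩
    · rintro ⟨⟨x, h3, h2⟩, h4⟩
      exact ⟨x, h2, h3, by rw [h4, key x h2]⟩

theorem GoodS.of_finite {P : Set V} (hP : P.Finite) : GoodS P := by
  induction P, hP using Set.Finite.induction_on with
  | empty => exact GoodS.empty
  | insert _ _ ih =>
    rw [Set.insert_eq]
    exact (GoodS.singleton _).union ih

theorem GoodS.image_fun {P : Set V} (hP : GoodS P) {j : V → V} (hj : IFun P j) :
    GoodS (j '' P) := by
  have hF : IR (fun x y => x ∈ P ∧ y = j x) := hj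
  have := hP.image hF (fun x y y' h1 h2 => h1.2.trans h2.2.symm)
  have h2 : Img (fun x y => x ∈ P ∧ y = j x) P = j '' P := by
    ext y
    constructor
    · rintro ⟨x, hx, _, rfl⟩; exact ⟨x, hx, rfl⟩
    · rintro ⟨x, hx, rfl⟩; exact ⟨x, hx, hx, rfl⟩
  rwa [h2] at this

theorem Phi.empty : Phi (∅ : Set V) := by
  refine ⟨GoodS.empty, ?_, ?_⟩
  · intro A B hA _ hAQ _
    left
    refine ⟨fun x => x, IFun.id hA, ?_, fun x _ y _ h => h⟩
    intro x hx
    exact absurd (hAQ hx) (Set.notMem_empty x)
  · refine ⟨fun x => x, IFun.id IS.empty, ?_, ?_, ?_⟩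
    · intro x hx; exact absurd hx (Set.notMem_empty x)
    · intro x hx; exact absurd hx (Set.notMem_empty x)
    · rw [Set.image_empty, Set.union_empty]; exact DF.empty

theorem J.img_phi {P : Set V} (h : J P) {F : V → V → Prop} (hF : IR F) (hFn : Fnl F) :
    Phi (Img F P) := by
  have := h.2 F hF hFn ∅ Phi.empty
  rwa [Set.empty_union] at this

theorem IR.eq : IR (fun x y : V => x = y) := by
  show D (fun e => e 0 = e 1)
  repeat' first
    | assumption
    | with_reducible apply IsT.get | with_reducible apply IsT.const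
    | refine D.fn (by assumption) ?_ ?_
    | with_reducible apply D.and | with_reducible apply D.or | with_reducible apply D.not
    | with_reducible apply D.imp | with_reducible apply D.iff
    | with_reducible apply D.ex | with_reducible apply D.all
    | with_reducible apply D.eq | with_reducible apply D.const
    | refine D.mem (by assumption) ?_
    | refine D.rel (by assumption) ?_ ?_

theorem img_eq {V : Type} (P : Set V) : Img (fun x y => x = y) P = P := by
  ext y
  constructor
  · rintro ⟨x, hx, rfl⟩; exact hx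
  · intro hy; exact ⟨y, hy, rfl⟩

theorem J.phi {P : Set V} (h : J P) : Phi P := by
  have := h.img_phi IR.eq (fun x y y' h1 h2 => h1.symm.trans h2)
  rwa [img_eq] at this

theorem J.img {P : Set V} (h : J P) {G : V → V → Prop} (hG : IR G) (hGn : Fnl G) :
    J (Img G P) := by
  refine ⟨IS.img hG h.1, ?_⟩
  intro F hF hFn Q hQ
  have hFG : IR (fun x z => ∃ y, G x y ∧ F y z) := by
    show D (fun e => ∃ y, G (e 0) y ∧ F y (e 1))
    repeat' first
      | assumption
      | with_reducible apply IsT.get | with_reducible apply IsT.const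
      | refine D.fn (by assumption) ?_ ?_
      | with_reducible apply D.and | with_reducible apply D.or | with_reducible apply D.not
      | with_reducible apply D.imp | with_reducible apply D.iff
      | with_reducible apply D.ex | with_reducible apply D.all
      | with_reducible apply D.eq | with_reducible apply D.const
      | refine D.mem (by assumption) ?_
      | refine D.rel (by assumption) ?_ ?_
  have := h.2 (fun x z => ∃ y, G x y ∧ F y z) hFG (by
    rintro x z z' ⟨y, h1, h2⟩ ⟨y', h3, h4⟩
    have := hGn x y y' h1 h3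
    subst this
    exact hFn _ _ _ h2 h4) Q hQ
  have h2 : Img (fun x z => ∃ y, G x y ∧ F y z) P = Img F (Img G P) := by
    ext z
    constructor
    · rintro ⟨x, hx, y, h1, h2⟩; exact ⟨y, ⟨x, hx, h1⟩, h2⟩
    · rintro ⟨y, ⟨x, hx, h1⟩, h2⟩; exact ⟨x, hx, y, h1, h2⟩
  rwa [h2] at this

theorem J.union {P P' : Set V} (h : J P) (h' : J P') : J (P ∪ P') := by
  refine ⟨h.1.union h'.1, ?_⟩
  intro F hF hFn Q hQ
  have h1 := h.2 F hF hFn Q hQ
  have h2 := h'.2 F hF hFn _ h1
  have h3 : Q ∪ Img F (P ∪ P') = Q ∪ Img F P ∪ Img F P' := by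
    ext z
    constructor
    · rintro (hz | ⟨x, hx | hx, hz⟩)
      · exact Or.inl (Or.inl hz)
      · exact Or.inl (Or.inr ⟨x, hx, hz⟩)
      · exact Or.inr ⟨x, hx, hz⟩
    · rintro ((hz | ⟨x, hx, hz⟩) | ⟨x, hx, hz⟩)
      · exact Or.inl hz
      · exact Or.inr ⟨x, Or.inl hx, hz⟩
      · exact Or.inr ⟨x, Or.inr hx, hz⟩
  rwa [h3]

theorem J.subset {P Q : Set V} (h : J P) (hQ : IS Q) (hQP : Q ⊆ P) : J Q := by
  have hG : IR (fun x y => x ∈ Q ∧ x = y) := by
    show D (fun e => e 0 ∈ Q ∧ e 0 = e 1)
    repeat' first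
      | assumption
      | with_reducible apply IsT.get | with_reducible apply IsT.const
      | refine D.fn (by assumption) ?_ ?_
      | with_reducible apply D.and | with_reducible apply D.or | with_reducible apply D.not
      | with_reducible apply D.imp | with_reducible apply D.iff
      | with_reducible apply D.ex | with_reducible apply D.all
      | with_reducible apply D.eq | with_reducible apply D.const
      | refine D.mem (by assumption) ?_
      | refine D.rel (by assumption) ?_ ?_
  have := h.img hG (fun x y y' h1 h2 => h1.2.symm.trans h2.2)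
  have h2 : Img (fun x y => x ∈ Q ∧ x = y) P = Q := by
    ext y
    constructor
    · rintro ⟨x, hx, hq, rfl⟩; exact hq
    · intro hy; exact ⟨y, hQP hy, hy, rfl⟩
  rwa [h2] at this

theorem J.empty : J (∅ : Set V) := by
  refine ⟨IS.empty, ?_⟩
  intro F _ _ Q hQ
  have h2 : Img F (∅ : Set V) = ∅ := by
    ext y
    constructor
    · rintro ⟨x, hx, _⟩; exact absurd hx (Set.notMem_empty x)
    · intro hy; exact absurd hy (Set.notMem_empty y)
  rw [h2, Set.union_empty]
  exact hQ

/-! ### surgery -/

theorem IFun.extend {A : Set V} {f : V → V} (hf : IFun A f) (hi : InjOn f A) {b c : V}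
    (hb : b ∉ A) (hc : c ∉ f '' A) : ∃ g : V → V, IFun (insert b A) g ∧
      InjOn g (insert b A) ∧ (∀ x ∈ A, g x = f x) ∧ g b = c := by
  classical
  have h1 := IFun.ite (IFun.cst (IS.singleton b) c) hf
  refine ⟨fun x => if x ∈ ({b} : Set V) then c else f x, ?_, ?_, ?_, ?_⟩
  · rwa [← Set.insert_eq] at h1
  · have hne : ∀ x ∈ A, x ≠ b := fun x hx h => hb (h ▸ hx)
    intro x hx y hy hxy
    simp only [mem_singleton_iff] at hxy
    rcases hx with rfl | hx
    · rcases hy with rfl | hy
      · rfl
      · simp only [if_true, hne y hy, if_false] at hxy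
        exact absurd ⟨y, hy, hxy.symm⟩ hc
    · rcases hy with rfl | hy
      · simp only [if_true, hne x hx, if_false] at hxy
        exact absurd ⟨x, hx, hxy⟩ hc
      · simp only [hne x hx, hne y hy, if_false] at hxy
        exact hi hx hy hxy
  · intro x hx
    have : x ≠ b := fun h => hb (h ▸ hx)
    simp [this]
  · simp

theorem Emb.insert_insert {A B : Set V} (h : Emb A B) {b : V} (hA : b ∉ A) (hB : b ∉ B) :
    Emb (insert b A) (insert b B) := by
  obtain ⟨f, hf, hm, hi⟩ := h
  obtain ⟨g, hg, hgi, hgf, hgb⟩ := hf.extend hi hA (c := b) (by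
    rintro ⟨x, hx, hxb⟩
    exact hB (hxb ▸ hm hx))
  refine ⟨g, hg, ?_, hgi⟩
  intro x hx
  rcases hx with rfl | hx
  · rw [hgb]; exact Set.mem_insert _ _
  · rw [hgf x hx]; exact Set.mem_insert_of_mem _ (hm hx)

theorem Emb.insert_left {A B : Set V} (h : Emb A B) {b : V} (hA : b ∉ A) :
    Emb (insert b A) B ∨ Emb B A := by
  obtain ⟨f, hf, hm, hi⟩ := h
  by_cases hs : SurjOn f A B
  · right
    exact (Eqp.of_surj hf hm hi hs).symm.emb
  · left
    have : ∃ c ∈ B, c ∉ f '' A := by
      by_contra hcon
      push Not at hcon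
      exact hs (fun c hc => hcon c hc)
    obtain ⟨c, hcB, hc⟩ := this
    obtain ⟨g, hg, hgi, hgf, hgb⟩ := hf.extend hi hA hc
    refine ⟨g, hg, ?_, hgi⟩
    intro x hx
    rcases hx with rfl | hx
    · rw [hgb]; exact hcB
    · rw [hgf x hx]; exact hm hx

theorem CompS.ins {Q : Set V} (h : CompS Q) (b : V) : CompS (insert b Q) := by
  intro A B hA hB hAQ hBQ
  have hA' : IS (A \ {b}) := hA.diff (IS.singleton b)
  have hB' : IS (B \ {b}) := hB.diff (IS.singleton b)
  have hAQ' : A \ {b} ⊆ Q := fun x hx => (hAQ hx.1).resolve_left hx.2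
  have hBQ' : B \ {b} ⊆ Q := fun x hx => (hBQ hx.1).resolve_left hx.2
  have hbA : b ∉ A \ {b} := fun hx => hx.2 rfl
  have hbB : b ∉ B \ {b} := fun hx => hx.2 rfl
  have hA2 : b ∈ A → insert b (A \ {b}) = A := fun hb => by
    rw [Set.insert_sdiff_singleton, Set.insert_eq_of_mem hb]
  have hB2 : b ∈ B → insert b (B \ {b}) = B := fun hb => by
    rw [Set.insert_sdiff_singleton, Set.insert_eq_of_mem hb]
  by_cases h1 : b ∈ A
  · by_cases h2 : b ∈ B
    · rcases h _ _ hA' hB' hAQ' hBQ' with h3 | h3
      · left
        have := h3.insert_insert hbA hbB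
        rwa [hA2 h1, hB2 h2] at this
      · right
        have := h3.insert_insert hbB hbA
        rwa [hA2 h1, hB2 h2] at this
    · have hBQ2 : B ⊆ Q := fun x hx => (hBQ hx).resolve_left (fun h => h2 (h ▸ hx))
      rcases h _ _ hA' hB hAQ' hBQ2 with h3 | h3
      · rcases h3.insert_left hbA with h4 | h4
        · left; rwa [hA2 h1] at h4
        · right; exact h4.trans (Emb.of_subset hA' Set.sdiff_subset)
      · right; exact h3.trans (Emb.of_subset hA' Set.sdiff_subset)
  · have hAQ2 : A ⊆ Q := fun x hx => (hAQ hx).resolve_left (fun h => h1 (h ▸ hx))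
    by_cases h2 : b ∈ B
    · rcases h _ _ hA hB' hAQ2 hBQ' with h3 | h3
      · left; exact h3.trans (Emb.of_subset hB' Set.sdiff_subset)
      · rcases h3.insert_left hbB with h4 | h4
        · right; rwa [hB2 h2] at h4
        · left; exact h4.trans (Emb.of_subset hB' Set.sdiff_subset)
    · have hBQ2 : B ⊆ Q := fun x hx => (hBQ hx).resolve_left (fun h => h2 (h ▸ hx))
      exact h _ _ hA hB hAQ2 hBQ2

theorem Phi.infinite (hV : ¬ GoodS (univ : Set V)) {Q : Set V} (hQ : GoodS Q) {j : V → V}
    (hj : IFun Q j) : (Q ∪ j '' Q)ᶜ.Infinite := by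
  intro hfin
  apply hV
  have h1 := (hQ.union (hQ.image_fun hj)).union (GoodS.of_finite hfin)
  rwa [Set.union_compl_self] at h1

theorem DisjS.ins (hV : ¬ GoodS (univ : Set V)) {Q : Set V} (hG : GoodS Q) (hQ : DisjS Q)
    (b : V) : DisjS (insert b Q) := by
  classical
  by_cases hbQ : b ∈ Q
  · rwa [Set.insert_eq_of_mem hbQ]
  have hQI := hG.is
  obtain ⟨j, hj, hji, hjd, hdf⟩ := hQ
  have hinf := Phi.infinite hV hG hj
  obtain ⟨b', hb'⟩ := (hinf.sdiff (Set.finite_singleton b)).nonempty
  obtain ⟨b'', hb''⟩ := (hinf.sdiff (Set.toFinite {b, b'})).nonempty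
  have e1 : b' ∉ Q := fun h => hb'.1 (Or.inl h)
  have e2 : b' ∉ j '' Q := fun h => hb'.1 (Or.inr h)
  have e3 : b' ≠ b := hb'.2
  have e4 : b'' ∉ Q := fun h => hb''.1 (Or.inl h)
  have e5 : b'' ∉ j '' Q := fun h => hb''.1 (Or.inr h)
  have e6 : b'' ≠ b := fun h => hb''.2 (Or.inl h)
  have e7 : b'' ≠ b' := fun h => hb''.2 (Or.inr h)
  set j1 : V → V := fun x => if j x = b then b'' else j x with hj1
  have hj1I : IFun Q j1 := by
    refine D.congr (p := fun e => ∃ z, (e 0 ∈ Q ∧ z = j (e 0)) ∧
      ((z = b ∧ e 1 = b'') ∨ (¬ (z = b) ∧ e 1 = z))) ?_ (fun e => ?_)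
    ·
      repeat' first
        | assumption
        | with_reducible apply IsT.get | with_reducible apply IsT.const
        | refine D.fn (by assumption) ?_ ?_
        | with_reducible apply D.and | with_reducible apply D.or | with_reducible apply D.not
        | with_reducible apply D.imp | with_reducible apply D.iff
        | with_reducible apply D.ex | with_reducible apply D.all
        | with_reducible apply D.eq | with_reducible apply D.const
        | refine D.mem (by assumption) ?_
        | refine D.rel (by assumption) ?_ ?_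
    · constructor
      · rintro ⟨z, ⟨h1, rfl⟩, ⟨h2, h3⟩ | ⟨h2, h3⟩⟩
        · exact ⟨h1, by simp [hj1, h2, h3]⟩
        · exact ⟨h1, by simp [hj1, h2, h3]⟩
      · rintro ⟨h1, h2⟩
        refine ⟨_, ⟨h1, rfl⟩, ?_⟩
        by_cases h3 : j (e 0) = b
        · left; exact ⟨h3, by simpa [hj1, h3] using h2⟩
        · right; exact ⟨h3, by simpa [hj1, h3] using h2⟩
  have hj1i : InjOn j1 Q := by
    intro x hx y hy hxy
    by_cases h1 : j x = b
    · by_cases h2 : j y = b
      · exact hji hx hy (h1.trans h2.symm)
      · simp only [hj1, h1, h2, if_true, if_false] at hxy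
        exact absurd ⟨y, hy, hxy.symm⟩ e5
    · by_cases h2 : j y = b
      · simp only [hj1, h1, h2, if_true, if_false] at hxy
        exact absurd ⟨x, hx, hxy⟩ e5
      · simp only [hj1, h1, h2, if_false] at hxy
        exact hji hx hy hxy
  have hj1v : ∀ x ∈ Q, j1 x ≠ b ∧ j1 x ∉ Q ∧ (j1 x = b'' ∨ j1 x ∈ j '' Q) := by
    intro x hx
    by_cases h1 : j x = b
    · have : j1 x = b'' := by simp [hj1, h1]
      rw [this]; exact ⟨e6, e4, Or.inl rfl⟩
    · have : j1 x = j x := by simp [hj1, h1]
      rw [this]; exact ⟨h1, hjd x hx, Or.inr ⟨x, hx, rfl⟩⟩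
  have hb'1 : b' ∉ j1 '' Q := by
    rintro ⟨x, hx, h⟩
    rcases (hj1v x hx).2.2 with h2 | h2
    · exact e7 (h2.symm.trans h)
    · exact e2 (h ▸ h2)
  obtain ⟨g, hg, hgi, hgf, hgb⟩ := hj1I.extend hj1i hbQ hb'1
  refine ⟨g, hg, hgi, ?_, ?_⟩
  · intro x hx
    rcases hx with rfl | hx
    · rw [hgb]; rintro (h | h)
      · exact e3 h
      · exact e1 h
    · rw [hgf x hx]
      rintro (h | h)
      · exact (hj1v x hx).1 h
      · exact (hj1v x hx).2.1 h
  · have hI0 : IS (Q ∪ j '' Q) := hQI.union hj.image
    have h1 := hdf.insert hI0 b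
    have hI1 := hI0.insert b
    have h2 := h1.insert hI1 b'
    have hI2 := hI1.insert b'
    have h3 := h2.insert hI2 b''
    have hI3 := hI2.insert b''
    refine h3.subset hI3 ((hQI.insert b).union hg.image) ?_
    rintro x (hx | ⟨y, hy, rfl⟩)
    · rcases hx with rfl | hx
      · simp
      · simp [hx]
    · rcases hy with rfl | hy
      · rw [hgb]; simp
      · rw [hgf y hy]
        rcases (hj1v y hy).2.2 with h | h
        · rw [h]; simp
        · right; right; right; right; exact h

theorem Phi.ins (hV : ¬ GoodS (univ : Set V)) {Q : Set V} (hQ : Phi Q) (b : V) :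
    Phi (insert b Q) :=
  ⟨by rw [Set.insert_eq]; exact (GoodS.singleton b).union hQ.1, hQ.2.1.ins b,
    DisjS.ins hV hQ.1 hQ.2.2 b⟩

theorem J.singleton (hV : ¬ GoodS (univ : Set V)) (a : V) : J ({a} : Set V) := by
  refine ⟨IS.singleton a, ?_⟩
  intro F hF hFn Q hQ
  by_cases h : ∃ b, F a b
  · obtain ⟨b, hb⟩ := h
    have : Img F ({a} : Set V) = {b} := by
      ext y
      constructor
      · rintro ⟨x, rfl, hy⟩; exact hFn _ _ _ hy hb
      · rintro rfl; exact ⟨a, rfl, hb⟩
    rw [this, Set.union_singleton]
    exact hQ.ins hV b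
  · have : Img F ({a} : Set V) = ∅ := by
      ext y
      constructor
      · rintro ⟨x, rfl, hy⟩; exact absurd ⟨y, hy⟩ h
      · intro hy; exact absurd hy (Set.notMem_empty y)
    rw [this, Set.union_empty]
    exact hQ

theorem J.ins (hV : ¬ GoodS (univ : Set V)) {P : Set V} (hP : J P) (a : V) :
    J (insert a P) := by
  rw [Set.insert_eq]
  exact (J.singleton hV a).union hP

theorem J.not_univ (hV : ¬ GoodS (univ : Set V)) : ¬ J (univ : Set V) :=
  fun h => hV h.phi.1

theorem J.not_compl (hV : ¬ GoodS (univ : Set V)) {P : Set V} (h : J P) : ¬ J Pᶜ := by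
  intro h'
  apply J.not_univ hV
  rw [← Set.union_compl_self P]
  exact h.union h'

theorem J.of_finite (hV : ¬ GoodS (univ : Set V)) {P : Set V} (hP : P.Finite) : J P := by
  induction P, hP using Set.Finite.induction_on with
  | empty => exact J.empty
  | insert _ _ ih => exact ih.ins hV _

theorem J.infinite (hV : ¬ GoodS (univ : Set V)) {P : Set V} (h : J P) : Pᶜ.Infinite :=
  fun hfin => h.not_compl hV (J.of_finite hV hfin)

end

end HumeCol
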